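import Pool.Agent.Lib.MP_9c5ecf_lc.S3.El

/-!
Bounded statements about a subset of `V_ l` are projections of closed sets.
-/

namespace Pool.Agent.I1PSP.S3

open ZFSet Order

universe u

/-- Closed relations between subsets. -/
def Cl (lam : ℕ → Ordinal.{u}) (F : ZFSet.{u} → ZFSet.{u} → Prop) : Prop :=
  ∀ U C, (∀ d, ∃ U' C', F U' C' ∧ U' ∩ V_ (lam d) = U ∩ V_ (lam d) ∧
    C' ∩ V_ (lam d) = C ∩ V_ (lam d)) → F U C

/-- Projections of closed relations. -/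
def An (l : Ordinal.{u}) (lam : ℕ → Ordinal.{u}) (P : ZFSet.{u} → Prop) : Prop :=
  ∃ F, Cl lam F ∧ ∀ U, U ⊆ V_ l → (P U ↔ ∃ C, C ⊆ V_ l ∧ F U C)

/-- Continuous operations. -/
def Ct (l : Ordinal.{u}) (lam : ℕ → Ordinal.{u}) (t : ZFSet.{u} → ZFSet.{u}) : Prop :=
  (∀ U, U ⊆ V_ l → t U ⊆ V_ l) ∧ ∀ x ∈ V_ l, ∃ d, ∀ U U',
    U ∩ V_ (lam d) = U' ∩ V_ (lam d) → (x ∈ t U ↔ x ∈ t U')

variable {l : Ordinal.{u}} {lam : ℕ → Ordinal.{u}} {P Q : ZFSet.{u} → Prop}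

theorem An.congr (h : An l lam P) (H : ∀ U, U ⊆ V_ l → (Q U ↔ P U)) : An l lam Q := by
  obtain ⟨F, h1, h2⟩ := h
  exact ⟨F, h1, fun U hU => (H U hU).trans (h2 U hU)⟩

theorem mem_ana {A B W x : ZFSet.{u}} (h : A ∩ W = B ∩ W) (hx : x ∈ W) : x ∈ A ↔ x ∈ B :=
  ⟨fun H => (mem_inter.1 (h ▸ mem_inter.2 ⟨H, hx⟩)).1,
    fun H => (mem_inter.1 (h.symm ▸ mem_inter.2 ⟨H, hx⟩)).1⟩

theorem mono_ana {A B W W' : ZFSet.{u}} (h : A ∩ W = B ∩ W) (hW : W' ⊆ W) : A ∩ W' = B ∩ W' := by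
  ext x
  rw [mem_inter, mem_inter]
  exact and_congr_left fun hx => mem_ana h (hW hx)

theorem sec_ana (hF : Fr l lam) {e : ℕ} {A B a : ZFSet.{u}} (ha : a ∈ V_ (lam e))
    (h : A ∩ V_ (lam e) = B ∩ V_ (lam e)) :
    sec (V_ l) A a ∩ V_ (lam e) = sec (V_ l) B a ∩ V_ (lam e) := by
  ext x
  rw [mem_inter, mem_inter, mem_sec, mem_sec]
  exact and_congr_left fun hx => and_congr_right fun _ => mem_ana h (hF.pair_mem_W e _ ha _ hx)

theorem two_ana (h : An l lam P) (h' : An l lam Q) (a : ZFSet.{u}) :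
    An l lam fun U => (a = ix 0 → P U) ∧ (a ≠ ix 0 → Q U) := by
  by_cases ha : a = ix 0
  · exact h.congr fun U _ => by simp [ha]
  · exact h'.congr fun U _ => by simp [ha]

theorem An.clopen (d : ℕ) (h : ∀ U U', U ∩ V_ (lam d) = U' ∩ V_ (lam d) → (P U ↔ P U')) :
    An l lam P := by
  refine ⟨fun U _ => P U, fun U C H => ?_, fun U _ =>
    ⟨fun H => ⟨∅, empty_subset _, H⟩, fun ⟨_, _, H⟩ => H⟩⟩
  obtain ⟨U', _, h1, h2, -⟩ := H d
  exact (h U' U h2).1 h1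

/-- `F U C` says `F a U (sec N C a)` for all `a ∈ N`; `exists_code` puts the witnesses
together. -/
theorem An.all (hF : Fr l lam) {R : ZFSet.{u} → ZFSet.{u} → Prop}
    (h : ∀ a ∈ V_ l, An l lam (R a)) : An l lam fun U => ∀ a ∈ V_ l, R a U := by
  choose F h1 h2 using h
  refine ⟨fun U C => ∀ a ha, F a ha U (sec (V_ l) C a), fun U C H a ha => ?_, fun U hU => ?_⟩
  · refine h1 a ha _ _ fun d => ?_
    obtain ⟨n, hn⟩ := hF.W_cof ha
    obtain ⟨U', C', e1, e2, e3⟩ := H (max d n)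
    exact ⟨U', _, e1 a ha, mono_ana e2 (hF.W_mono (le_max_left _ _)),
      mono_ana (sec_ana hF (hF.W_mono (le_max_right _ _) hn) e3) (hF.W_mono (le_max_left _ _))⟩
  · refine ⟨fun H => ?_, fun ⟨C, _, H⟩ a ha => (h2 a ha U hU).2 ⟨_, sec_subset, H a ha⟩⟩
    choose A e1 e2 using fun a : {a // a ∈ V_ l} => (h2 a.1 a.2 U hU).1 (H a.1 a.2)
    obtain ⟨C, e3, e4⟩ := exists_code hF.pair_mem Subtype.val_injective (fun a => a.2) A e1
    exact ⟨C, e3, fun a ha => (e4 ⟨a, ha⟩).symm ▸ e2 ⟨a, ha⟩⟩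

/-- `F U C` says: there are `n` and `a ∈ W n` such that `pair (ix 0) (ix i) ∈ C` iff `i = n`,
`pair (ix 1) x ∈ C` iff `x = a` for `x ∈ W n`, and `F a U (sec N C (ix 2))`. -/
theorem An.ex (hF : Fr l lam) {R : ZFSet.{u} → ZFSet.{u} → Prop}
    (h : ∀ a ∈ V_ l, An l lam (R a)) : An l lam fun U => ∃ a ∈ V_ l, R a U := by
  choose F h1 h2 using h
  refine ⟨fun U C => ∃ n a, ∃ ha : a ∈ V_ l, a ∈ V_ (lam n) ∧
    (∀ i, pair (ix 0) (ix i) ∈ C ↔ i = n) ∧ (∀ x ∈ V_ (lam n), pair (ix 1) x ∈ C ↔ x = a) ∧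
    F a ha U (sec (V_ l) C (ix 2)), fun U C H => ?_, fun U hU => ?_⟩
  · have hp : ∀ e i j, pair (ix i) (ix j) ∈ V_ (lam e) := fun e i j =>
      hF.pair_mem_W e _ (hF.ix_mem_W e i) _ (hF.ix_mem_W e j)
    obtain ⟨-, C0, ⟨n, -, -, -, e0, -⟩, -, e0'⟩ := H 0
    have k0 : ∀ i, pair (ix 0) (ix i) ∈ C ↔ i = n := fun i =>
      (mem_ana e0' (hp 0 0 i)).symm.trans (e0 i)
    obtain ⟨-, C1, ⟨n1, a, ha, han, e1, e2, -⟩, -, e1'⟩ := H n
    obtain rfl : n1 = n := (k0 n1).1 ((mem_ana e1' (hp n 0 n1)).1 ((e1 n1).2 rfl))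
    have k1 : ∀ x ∈ V_ (lam n1), pair (ix 1) x ∈ C ↔ x = a := fun x hx =>
      (mem_ana e1' (hF.pair_mem_W n1 _ (hF.ix_mem_W n1 1) _ hx)).symm.trans (e2 x hx)
    refine ⟨n1, a, ha, han, k0, k1, h1 a ha _ _ fun d => ?_⟩
    obtain ⟨U', C', ⟨n2, a', ha', han', f1, f2, f3⟩, f4, f5⟩ := H (max d n1)
    obtain rfl : n2 = n1 := (k0 n2).1 ((mem_ana f5 (hp _ 0 n2)).1 ((f1 n2).2 rfl))
    obtain rfl : a' = a := (k1 a' han').1 ((mem_ana f5 (hF.W_mono (le_max_right _ _)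
      (hF.pair_mem_W n2 _ (hF.ix_mem_W n2 1) _ han'))).1 ((f2 a' han').2 rfl))
    exact ⟨U', _, f3, mono_ana f4 (hF.W_mono (le_max_left _ _)),
      mono_ana (sec_ana hF (hF.ix_mem_W _ 2) f5) (hF.W_mono (le_max_left _ _))⟩
  · refine ⟨fun ⟨a, ha, H⟩ => ?_,
      fun ⟨C, _, _, a, ha, _, _, _, H⟩ => ⟨a, ha, (h2 a ha U hU).2 ⟨_, sec_subset, H⟩⟩⟩
    obtain ⟨C0, e1, e2⟩ := (h2 a ha U hU).1 H
    obtain ⟨n, hn⟩ := hF.W_cof ha
    obtain ⟨C, e3, e4⟩ := exists_code hF.pair_mem ix_injective hF.ix_mem_N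
      (fun i => if i = 0 then {ix n} else if i = 1 then {a} else C0) fun i x hx => by
        split_ifs at hx
        · exact mem_singleton.1 hx ▸ hF.ix_mem_N n
        · exact mem_singleton.1 hx ▸ ha
        · exact e1 hx
    have k0 : sec (V_ l) C (ix 0) = {ix n} := e4 0
    have k1 : sec (V_ l) C (ix 1) = {a} := e4 1
    have k2 : sec (V_ l) C (ix 2) = C0 := e4 2
    refine ⟨C, e3, n, a, ha, hn, fun i => ?_, fun x hx => ?_, k2.symm ▸ e2⟩
    · rw [← ix_injective.eq_iff, ← mem_singleton, ← k0, mem_sec, and_iff_right (hF.ix_mem_N i)]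
    · rw [← mem_singleton, ← k1, mem_sec, and_iff_right (hF.W_sub n hx)]

theorem An.and (hF : Fr l lam) (h : An l lam P) (h' : An l lam Q) :
    An l lam fun U => P U ∧ Q U := by
  have h1 : ix.{u} 1 ≠ ix 0 := fun e => one_ne_zero (ix_injective e)
  exact (An.all hF fun a _ => two_ana h h' a).congr fun U _ =>
    ⟨fun H a _ => ⟨fun _ => H.1, fun _ => H.2⟩,
      fun H => ⟨(H _ (hF.ix_mem_N 0)).1 rfl, (H _ (hF.ix_mem_N 1)).2 h1⟩⟩

theorem An.or (hF : Fr l lam) (h : An l lam P) (h' : An l lam Q) :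
    An l lam fun U => P U ∨ Q U := by
  have h1 : ix.{u} 1 ≠ ix 0 := fun e => one_ne_zero (ix_injective e)
  refine (An.ex hF fun a _ => two_ana h h' a).congr fun U _ => ⟨?_, fun ⟨a, _, H⟩ => ?_⟩
  · rintro (H | H)
    · exact ⟨_, hF.ix_mem_N 0, fun _ => H, fun e => absurd rfl e⟩
    · exact ⟨_, hF.ix_mem_N 1, fun e => absurd e h1, fun _ => H⟩
  · exact (em (a = ix 0)).imp H.1 H.2

theorem Ct.const_h84 {x : ZFSet.{u}} (hx : x ⊆ V_ l) : Ct l lam fun _ => x :=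
  ⟨fun _ _ => hx, fun _ _ => ⟨0, fun _ _ _ => Iff.rfl⟩⟩

theorem Ct.id_h84 (hF : Fr l lam) : Ct l lam fun U => U := by
  refine ⟨fun _ h => h, fun x hx => ?_⟩
  obtain ⟨d, hd⟩ := hF.W_cof hx
  refine ⟨d, fun U U' e => ⟨fun h => ?_, fun h => ?_⟩⟩
  · have h1 : x ∈ U ∩ V_ (lam d) := mem_inter.2 ⟨h, hd⟩
    rw [e] at h1
    exact (mem_inter.1 h1).1
  · have h1 : x ∈ U' ∩ V_ (lam d) := mem_inter.2 ⟨h, hd⟩
    rw [← e] at h1
    exact (mem_inter.1 h1).1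

theorem inter_restrict_h84 {U U' A B : ZFSet.{u}} (hAB : A ⊆ B) (h : U ∩ B = U' ∩ B) :
    U ∩ A = U' ∩ A := by
  ext x
  rw [mem_inter, mem_inter]
  constructor
  · rintro ⟨h1, h2⟩
    have h3 : x ∈ U ∩ B := mem_inter.2 ⟨h1, hAB h2⟩
    rw [h] at h3
    exact ⟨(mem_inter.1 h3).1, h2⟩
  · rintro ⟨h1, h2⟩
    have h3 : x ∈ U' ∩ B := mem_inter.2 ⟨h1, hAB h2⟩
    rw [← h] at h3
    exact ⟨(mem_inter.1 h3).1, h2⟩

theorem An.bool_h84 (hF : Fr l lam) {t s : ZFSet.{u} → ZFSet.{u}} (ht : Ct l lam t)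
    (hs : Ct l lam s) {x : ZFSet.{u}} (hx : x ∈ V_ l) (B : Prop → Prop → Prop) :
    An l lam fun U => B (x ∈ t U) (x ∈ s U) := by
  obtain ⟨d, hd⟩ := ht.2 x hx
  obtain ⟨e, he⟩ := hs.2 x hx
  refine An.clopen (max d e) fun U U' h => ?_
  have h1 := hd U U' (inter_restrict_h84 (hF.W_mono (le_max_left d e)) h)
  have h2 := he U U' (inter_restrict_h84 (hF.W_mono (le_max_right d e)) h)
  rw [propext h1, propext h2]

theorem An.eq_h84 (hF : Fr l lam) {t s : ZFSet.{u} → ZFSet.{u}} (ht : Ct l lam t)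
    (hs : Ct l lam s) : An l lam fun U => t U = s U := by
  refine (An.all hF (R := fun a U => (a ∈ t U ↔ a ∈ s U))
    fun a ha => An.bool_h84 hF ht hs ha fun p q => (p ↔ q)).congr fun U hU => ?_
  constructor
  · intro e a _
    rw [e]
  · intro H
    ext x
    exact ⟨fun h => (H x (ht.1 U hU h)).1 h, fun h => (H x (hs.1 U hU h)).2 h⟩

theorem An.ne_h84 (hF : Fr l lam) {t s : ZFSet.{u} → ZFSet.{u}} (ht : Ct l lam t)
    (hs : Ct l lam s) : An l lam fun U => ¬ t U = s U := by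
  refine (An.ex hF (R := fun a U => ¬ (a ∈ t U ↔ a ∈ s U))
    fun a ha => An.bool_h84 hF ht hs ha fun p q => ¬ (p ↔ q)).congr fun U hU => ?_
  constructor
  · intro e
    by_contra H
    refine e ?_
    have H' : ∀ a ∈ V_ l, (a ∈ t U ↔ a ∈ s U) := fun a ha => by
      by_contra h
      exact H ⟨a, ha, h⟩
    ext x
    exact ⟨fun h => (H' x (ht.1 U hU h)).1 h, fun h => (H' x (hs.1 U hU h)).2 h⟩
  · rintro ⟨a, _, h⟩ e
    exact h (by rw [e])

theorem An.mem_h84 (hF : Fr l lam) {t s : ZFSet.{u} → ZFSet.{u}} (ht : Ct l lam t)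
    (hs : Ct l lam s) : An l lam fun U => t U ∈ s U := by
  refine (An.ex hF (R := fun a U => a ∈ s U ∧ a = t U) fun a ha =>
    An.and hF (An.bool_h84 hF hs hs ha fun p _ => p)
      (An.eq_h84 hF (Ct.const_h84 (isTransitive_vonNeumann l a ha)) ht)).congr fun U hU => ?_
  exact ⟨fun h => ⟨_, hs.1 U hU h, h, rfl⟩, fun ⟨_, _, h, e⟩ => e ▸ h⟩

theorem An.notMem_h84 (hF : Fr l lam) {t s : ZFSet.{u} → ZFSet.{u}} (ht : Ct l lam t)
    (hs : Ct l lam s) : An l lam fun U => ¬ t U ∈ s U := by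
  refine (An.all hF (R := fun a U => ¬ a ∈ s U ∨ ¬ a = t U) fun a ha =>
    An.or hF (An.bool_h84 hF hs hs ha fun p _ => ¬ p)
      (An.ne_h84 hF (Ct.const_h84 (isTransitive_vonNeumann l a ha)) ht)).congr fun U hU => ?_
  constructor
  · intro h a _
    by_cases e : a = t U
    · exact Or.inl (e ▸ h)
    · exact Or.inr e
  · intro H h
    exact (H _ (hs.1 U hU h)).elim (fun h' => h' h) fun h' => h' rfl

theorem an_sat_h84 (hF : Fr l lam) {φ : Fml} (hφ : IsDelta0 φ) :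
    ∀ t : ℕ → ZFSet.{u} → ZFSet.{u}, (∀ i, Ct l lam (t i)) →
      (An l lam fun U => Sat (PP (V_ l)) φ fun i => t i U) ∧
        An l lam fun U => ¬ Sat (PP (V_ l)) φ fun i => t i U := by
  induction hφ with
  | mem i j => exact fun t ht => ⟨An.mem_h84 hF (ht i) (ht j), An.notMem_h84 hF (ht i) (ht j)⟩
  | eq i j => exact fun t ht => ⟨An.eq_h84 hF (ht i) (ht j), An.ne_h84 hF (ht i) (ht j)⟩
  | neg _ ih => exact fun t ht => ⟨(ih t ht).2, (ih t ht).1.congr fun U _ => not_not⟩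
  | and _ _ ih1 ih2 =>
    exact fun t ht => ⟨An.and hF (ih1 t ht).1 (ih2 t ht).1,
      (An.or hF (ih1 t ht).2 (ih2 t ht).2).congr fun U _ => not_and_or⟩
  | @bex i φ _ ih =>
    intro t ht
    have key : ∀ a ∈ V_ l,
        (An l lam fun U => Sat (PP (V_ l)) φ (cons a fun k => t k U)) ∧
          An l lam fun U => ¬ Sat (PP (V_ l)) φ (cons a fun k => t k U) := fun a ha => by
      refine ih (fun k U => cons a (fun k => t k U) k) fun k => ?_
      cases k with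
      | zero => exact Ct.const_h84 (isTransitive_vonNeumann l a ha)
      | succ k => exact ht k
    have e : ∀ U, U ⊆ V_ l →
        ((Sat (PP (V_ l)) (.ex (.and (.mem 0 (i + 1)) φ)) fun k => t k U) ↔
          ∃ a ∈ V_ l, a ∈ t i U ∧ Sat (PP (V_ l)) φ (cons a fun k => t k U)) := fun U hU =>
      exists_congr fun x => ⟨fun H => ⟨(ht i).1 U hU H.2.1, H.2⟩,
        fun H => ⟨isTransitive_vonNeumann l x H.1, H.2⟩⟩
    refine ⟨(An.ex hF (R := fun a U => a ∈ t i U ∧ Sat (PP (V_ l)) φ (cons a fun k => t k U))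
      fun a ha => An.and hF (An.bool_h84 hF (ht i) (ht i) ha fun p _ => p) (key a ha).1).congr e,
      (An.all hF (R := fun a U => ¬ a ∈ t i U ∨ ¬ Sat (PP (V_ l)) φ (cons a fun k => t k U))
        fun a ha => An.or hF (An.bool_h84 hF (ht i) (ht i) ha fun p _ => ¬ p)
          (key a ha).2).congr fun U hU => ?_⟩
    rw [e U hU]
    constructor
    · intro H a ha
      exact not_and_or.1 fun h => H ⟨a, ha, h⟩
    · rintro H ⟨a, ha, h⟩
      exact not_and_or.2 (H a ha) h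

/-- Induction on `IsDelta0` for the formula and its negation together, as in `d0_sat`: an
assignment is a sequence of continuous operations, bound variables are constant operations,
`t U = s U` is `∀ x ∈ N, x ∈ t U ↔ x ∈ s U`, `t U ∈ s U` is `∃ x ∈ N, x ∈ s U ∧ x = t U`. -/
theorem D0.an (hF : Fr l lam) {R : (ℕ → ZFSet.{u}) → Prop} (h : D0 (V_ l) R)
    {z : ℕ → ZFSet.{u}} (hz : Val (V_ l) z) : An l lam fun U => R (cons U z) := by
  obtain ⟨φ, h1, hφ⟩ := h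
  refine (an_sat_h84 hF h1 (fun k U => cons (V_ l) (cons U z) k) fun k => ?_).1.congr
    fun U hU => hφ _ (Val.cons hU hz)
  match k with
  | 0 => exact Ct.const_h84 (subset_refl _)
  | 1 => exact Ct.id_h84 hF
  | k + 2 => exact Ct.const_h84 (hz k)

end Pool.Agent.I1PSP.S3
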