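import Pool.Agent.Lib.MP_9c5ecf_lc.S3.Node

/-!
A node of splitting rank at least `Lam` carries a perfect tree of well-founded branches.
-/

namespace Pool.Agent.I1PSP.S3

open ZFSet Order Cardinal

universe u

/-- The two nodes have the same type at stage `n`. -/
structure Sty (lam : ℕ → Ordinal.{u}) (cd : Ordinal.{u + 1} → ZFSet.{u}) (n : ℕ)
    (σ σ' : Nd.{u}) : Prop where
  w : σ'.w = σ.w
  s : σ'.s = σ.s
  lev : ∀ a ∈ σ.w, ∀ i, cd (σ'.ρ a) ∈ V_ (lam i) ↔ cd (σ.ρ a) ∈ V_ (lam i)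
  lab : ∀ a ∈ σ.w, cd (σ.ρ a) ∈ V_ (lam n) → cd (σ'.ρ a) = cd (σ.ρ a)

variable {l : Ordinal.{u}} {lam : ℕ → Ordinal.{u}} {T Y : ZFSet.{u}} {β : Ordinal.{u + 1}}

/-- The code of the type of a node at stage `n`. -/
noncomputable def tyCode (lam : ℕ → Ordinal.{u}) (cd : Ordinal.{u + 1} → ZFSet.{u}) (n : ℕ)
    (σ : Nd.{u}) : ZFSet.{u} :=
  pair (ix n) (pair σ.w (pair σ.s (pair
    (ZFSet.sep (fun p => ∃ i a, p = pair (ix i) a ∧ cd (σ.ρ a) ∈ V_ (lam i)) (ZFSet.prod II σ.w))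
    (ZFSet.sep (fun p => ∃ a, p = pair a (cd (σ.ρ a))) (ZFSet.prod σ.w (V_ (lam n)))))))

theorem tyCode_mem (hF : Fr l lam) (cd : Ordinal.{u + 1} → ZFSet.{u}) (n : ℕ) {σ : Nd.{u}}
    (h : Valid (V_ l) T β σ) : tyCode lam cd n σ ∈ V_ l :=
  hF.pair_mem _ (hF.ix_mem_N n) _ <| hF.pair_mem _ h.mem _ <|
    hF.pair_mem _ (hF.sub_mem _ h.mem _ h.sub) _ <| hF.pair_mem _
      (hF.sub_mem _ (hF.prod_mem hF.II_mem h.mem) _ fun _ hx => (mem_sep.1 hx).1) _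
      (hF.sub_mem _ (hF.prod_mem h.mem (hF.W_mem n)) _ fun _ hx => (mem_sep.1 hx).1)

theorem sty_of_tyCode {cd : Ordinal.{u + 1} → ZFSet.{u}} {n n' : ℕ} {σ σ' : Nd.{u}}
    (h : tyCode lam cd n' σ' = tyCode lam cd n σ) : Sty lam cd n σ σ' := by
  unfold tyCode at h
  simp only [pair_inj] at h
  obtain ⟨h0, hw, hs, hA, hB⟩ := h
  obtain rfl := ix_injective h0
  have k : ∀ τ : Nd.{u}, ∀ a ∈ τ.w, ∀ i, pair (ix i) a ∈ ZFSet.sep (fun p => ∃ i a,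
      p = pair (ix i) a ∧ cd (τ.ρ a) ∈ V_ (lam i)) (ZFSet.prod II τ.w) ↔
      cd (τ.ρ a) ∈ V_ (lam i) := by
    intro τ a ha i
    rw [mem_sep]
    refine ⟨fun ⟨_, j, b, h1, h2⟩ => ?_,
      fun h1 => ⟨pair_mem_prod.2 ⟨mem_II.2 ⟨i, rfl⟩, ha⟩, i, a, rfl, h1⟩⟩
    obtain ⟨h3, rfl⟩ := pair_inj.1 h1
    obtain rfl := ix_injective h3
    exact h2
  refine ⟨hw, hs, fun a ha i => ?_, fun a ha h1 => ?_⟩
  · rw [← k σ' a (hw ▸ ha) i, hA, k σ a ha i]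
  · have h2 : pair a (cd (σ.ρ a)) ∈ ZFSet.sep (fun p => ∃ a, p = pair a (cd (σ.ρ a)))
        (ZFSet.prod σ.w (V_ (lam n'))) := mem_sep.2 ⟨pair_mem_prod.2 ⟨ha, h1⟩, a, rfl⟩
    rw [← hB] at h2
    obtain ⟨-, b, h3⟩ := mem_sep.1 h2
    obtain ⟨rfl, h4⟩ := pair_inj.1 h3
    exact h4.symm

/-- There are at most as many types as members of `N`: the type of `σ` at stage `n` is coded by
`n`, `w`, `s`, `{pair (ix i) a : a ∈ w, cd (ρ a) ∈ W i}` and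
`{pair a (cd (ρ a)) : a ∈ w, cd (ρ a) ∈ W n}`, all members of `N`. For each code that is not
realised at all ranks below `Lam` choose a rank at which it is not; `exists_bound`. -/
theorem exists_stage (hF : Fr l lam) (cd : Ordinal.{u + 1} → ZFSet.{u}) :
    ∃ ξ, ξ < Lam (V_ l) ∧ ∀ n σ, Alive (V_ l) T Y β ξ σ → ∀ η < Lam (V_ l),
      ∃ σ', Sty lam cd n σ σ' ∧ Alive (V_ l) T Y β η σ' := by
  have k : ∀ c : {x : ZFSet.{u} | x ∈ V_ l}, ∃ ζ, ζ < Lam (V_ l) ∧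
      ((∃ n σ, tyCode lam cd n σ = c ∧ Alive (V_ l) T Y β ζ σ) → ∀ η < Lam (V_ l),
        ∃ n σ, tyCode lam cd n σ = c ∧ Alive (V_ l) T Y β η σ) := by
    intro c
    by_cases h : ∀ η < Lam (V_ l), ∃ n σ, tyCode lam cd n σ = c ∧ Alive (V_ l) T Y β η σ
    · exact ⟨0, Cardinal.lt_ord.2 (by simp), fun _ => h⟩
    · obtain ⟨η, h1⟩ := not_forall.1 h
      obtain ⟨h2, h3⟩ := Classical.not_imp.1 h1
      exact ⟨η, h2, fun h4 => (h3 h4).elim⟩
  choose f hf hk using k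
  obtain ⟨ξ, hξ, hb⟩ := exists_bound hF le_rfl f hf
  refine ⟨ξ, hξ, fun n σ h η hη => ?_⟩
  obtain ⟨n', σ', h1, h2⟩ := hk ⟨_, tyCode_mem hF cd n h.valid⟩
    ⟨n, σ, rfl, h.mono (hb _).le⟩ η hη
  exact ⟨σ', sty_of_tyCode h1, h2⟩

/-- A sequence of valid nodes in which each node has the type of an extension of the previous
one defines a well-founded branch. With `U` the union of the traces: the label of `a` is
eventually constant (if `cd (ρ a) ∈ W i` at one stage then at all later stages, and from stage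
`i` on the code of the label is constant). -/
theorem branch_wf (hF : Fr l lam) {cd : Ordinal.{u + 1} → ZFSet.{u}}
    (h1 : ∀ γ < β, cd γ ∈ V_ l) (h2 : ∀ γ < β, ∀ δ < β, cd γ = cd δ → γ = δ)
    {ν τ : ℕ → Nd.{u}} (hν : ∀ n, Valid (V_ l) T β (ν n)) (hτ : ∀ n, Valid (V_ l) T β (τ n))
    (he : ∀ n, Ext (ν n) (τ n)) (hs : ∀ n, Sty lam cd n (τ n) (ν (n + 1)))
    (hw : ∀ n, V_ (lam n) ⊆ (τ n).w) {U : ZFSet.{u}}
    (hU : ∀ x, x ∈ U ↔ ∃ n, x ∈ (ν n).s) :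
    U ⊆ V_ l ∧ (∀ n, U ∩ (ν n).w = (ν n).s) ∧
      WellFounded (Rl (V_ l) (sec (V_ l) U ∅)) := by
  have step : ∀ n, (ν n).w ⊆ (ν (n + 1)).w ∧
      ∀ x, x ∈ (ν n).s ↔ x ∈ (ν (n + 1)).s ∧ x ∈ (ν n).w := by
    intro n
    rw [(hs n).w, (hs n).s]
    exact ⟨(he n).sub, fun x => by rw [← (he n).trace, mem_inter]⟩
  have chain : ∀ n m, n ≤ m → (ν n).w ⊆ (ν m).w ∧
      ∀ x, x ∈ (ν n).s ↔ x ∈ (ν m).s ∧ x ∈ (ν n).w := by
    intro n m hnm
    induction m, hnm using Nat.le_induction with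
    | base => exact ⟨fun _ h => h, fun x => ⟨fun h => ⟨h, (hν n).sub h⟩, fun h => h.1⟩⟩
    | succ m _ ih =>
      refine ⟨fun x hx => (step m).1 (ih.1 hx), fun x => ?_⟩
      rw [ih.2 x, (step m).2 x]
      exact ⟨fun h => ⟨h.1.1, h.2⟩, fun h => ⟨⟨h.1, ih.1 h.2⟩, h.2⟩⟩
  have stab : ∀ a, a ∈ V_ l → ∃ (n : ℕ) (γ : Ordinal.{u + 1}), ∀ m, n ≤ m →
      a ∈ (ν m).w ∧ (ν m).ρ a = γ := by
    intro a ha
    obtain ⟨n0, h0⟩ := hF.W_cof ha
    have a1 : a ∈ (ν (n0 + 1)).w := by rw [(hs n0).w]; exact hw n0 h0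
    obtain ⟨i, hi⟩ := hF.W_cof (h1 _ ((hν (n0 + 1)).lt a a1))
    have am : ∀ m, n0 + 1 ≤ m → a ∈ (ν m).w := fun m hm => (chain _ m hm).1 a1
    have lev : ∀ m, n0 + 1 ≤ m → cd ((ν m).ρ a) ∈ V_ (lam i) := by
      intro m hm
      induction m, hm using Nat.le_induction with
      | base => exact hi
      | succ m hm ih =>
        rw [(hs m).lev a ((he m).sub (am m hm)) i, (he m).lab a (am m hm)]
        exact ih
    refine ⟨max (n0 + 1) i, (ν (max (n0 + 1) i)).ρ a, fun m hm =>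
      ⟨am m ((le_max_left _ _).trans hm), ?_⟩⟩
    induction m, hm using Nat.le_induction with
    | base => rfl
    | succ m hm ih =>
      have hm1 : n0 + 1 ≤ m := (le_max_left _ _).trans hm
      have hm2 : i ≤ m := (le_max_right _ _).trans hm
      have e1 := (he m).lab a (am m hm1)
      have e2 := (hs m).lab a ((he m).sub (am m hm1))
        (by rw [e1]; exact hF.W_mono hm2 (lev m hm1))
      rw [← ih, ← e1]
      exact h2 _ ((hν (m + 1)).lt a (am _ (by omega))) _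
        ((hτ m).lt a ((he m).sub (am m hm1))) e2
  refine ⟨fun x hx => ?_, fun n => ?_, ?_⟩
  · obtain ⟨n, hn⟩ := (hU x).1 hx
    exact isTransitive_vonNeumann l _ (hν n).mem ((hν n).sub hn)
  · ext x
    rw [mem_inter, hU]
    constructor
    · rintro ⟨⟨m, hm⟩, hx⟩
      exact ((chain n (max n m) (le_max_left _ _)).2 x).2
        ⟨(((chain m (max n m) (le_max_right _ _)).2 x).1 hm).1, hx⟩
    · exact fun h => ⟨⟨n, h⟩, (hν n).sub h⟩
  · choose! nn r hr using stab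
    refine Subrelation.wf (r := InvImage (· < ·) r) ?_ (InvImage.wf r wellFounded_lt)
    rintro a b ⟨ha, hb, hab⟩
    obtain ⟨m0, hm0⟩ := (hU _).1 (mem_sec.1 hab).2
    obtain ⟨a1, a2⟩ := hr a ha (max m0 (max (nn a) (nn b)))
      ((le_max_left _ _).trans (le_max_right _ _))
    obtain ⟨b1, b2⟩ := hr b hb (max m0 (max (nn a) (nn b)))
      ((le_max_right _ _).trans (le_max_right _ _))
    have := (hν _).edge a a1 b b1 (((chain m0 _ (le_max_left _ _)).2 _).1 hm0).1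
    rw [a2, b2] at this
    exact this

/-- With `ξ` from `exists_stage` build nodes `ν s n` (depending on `s 0, ..., s (n - 1)`) of rank
`ξ + 1`: apply the rank of `ν s n` with `ζ = ξ` and `a = I n ∪ W n`, take the member `τ` of the
family at `s n`, and replace it by a node of the same type at stage `n` of rank `ξ + 1`. -/
theorem perfect_of_alive (hF : Fr l lam) (hβ : β < Lam (V_ l)) {σ : Nd.{u}}
    (h : ∀ ξ < Lam (V_ l), Alive (V_ l) T Y β ξ σ) (I : ℕ → ZFSet.{u}) (hI : ∀ t, I t ∈ V_ l) :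
    ∃ U : (ℕ → ZFSet.{u}) → ZFSet.{u},
      (∀ s, (∀ t, s t ∈ I t) → U s ⊆ V_ l ∧
        (∀ n, ∃ w, w ∈ V_ l ∧ V_ (lam n) ⊆ w ∧ pair w (U s ∩ w) ∈ T) ∧
          WellFounded (Rl (V_ l) (sec (V_ l) (U s) ∅))) ∧
      (∀ s s', (∀ t, s t ∈ I t) → (∀ t, s' t ∈ I t) → ∀ n, (∀ i ≤ n, s' i = s i) →
        U s' ∩ V_ (lam n) = U s ∩ V_ (lam n)) ∧
      ∀ s, (∀ t, s t ∈ I t) → ∀ n, ∃ d, ∀ s', (∀ t, s' t ∈ I t) →
        U s' ∩ Y ∩ V_ (lam d) = U s ∩ Y ∩ V_ (lam d) → ∀ i ≤ n, s' i = s i := by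
  obtain ⟨cd, h1, h2⟩ := exists_cd hβ
  obtain ⟨ξ, hξ, hst⟩ := exists_stage (T := T) (Y := Y) (β := β) hF cd
  have hξ1 := succ_lt_Lam hF hξ
  have hN := isTransitive_vonNeumann l
  have step : ∀ (n : ℕ) (μ : Nd.{u}), ∃ (w : ZFSet.{u}) (τ nx : ZFSet.{u} → Nd.{u}),
      Alive (V_ l) T Y β (ξ + 1) μ → V_ (lam n) ⊆ w ∧
        (∀ x ∈ I n, (τ x).w = w ∧ Ext μ (τ x) ∧ Valid (V_ l) T β (τ x) ∧
          Sty lam cd n (τ x) (nx x) ∧ Alive (V_ l) T Y β (ξ + 1) (nx x)) ∧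
        ∀ x ∈ I n, ∀ y ∈ I n, (τ x).s ∩ Y = (τ y).s ∩ Y → x = y := by
    intro n μ
    by_cases hμ : Alive (V_ l) T Y β (ξ + 1) μ
    · obtain ⟨w, -, hw, τ, h3, h4⟩ := (alive_iff.1 hμ).2 ξ (lt_add_one ξ) _
        (hF.union_mem (hI n) (hF.W_mem n))
      have hin : ∀ x ∈ I n, x ∈ I n ∪ V_ (lam n) := fun x hx => mem_union.2 (Or.inl hx)
      have : ∀ x, ∃ ν', x ∈ I n → Sty lam cd n (τ x) ν' ∧ Alive (V_ l) T Y β (ξ + 1) ν' := by
        intro x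
        by_cases hx : x ∈ I n
        · obtain ⟨ν', h5, h6⟩ := hst n (τ x) (h3 x (hin x hx)).2.2 _ hξ1
          exact ⟨ν', fun _ => ⟨h5, h6⟩⟩
        · exact ⟨μ, fun hx' => absurd hx' hx⟩
      choose nx hnx using this
      refine ⟨w, τ, nx, fun _ => ⟨fun x hx => hw (mem_union.2 (Or.inr hx)), fun x hx => ?_,
        fun x hx y hy => h4 x (hin x hx) y (hin y hy)⟩⟩
      obtain ⟨h5, h6, h7⟩ := h3 x (hin x hx)
      exact ⟨h5, h6, h7.valid, hnx x hx⟩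
    · exact ⟨∅, fun _ => μ, fun _ => μ, fun h' => absurd h' hμ⟩
  choose Wd Ta Nx hstep using step
  let ν : (ℕ → ZFSet.{u}) → ℕ → Nd.{u} := fun s n => Nat.rec σ (fun m μ => Nx m μ (s m)) n
  have νs : ∀ s n, ν s (n + 1) = Nx n (ν s n) (s n) := fun _ _ => rfl
  have al : ∀ s, (∀ t, s t ∈ I t) → ∀ n, Alive (V_ l) T Y β (ξ + 1) (ν s n) := by
    intro s hs n
    induction n with
    | zero => exact h _ hξ1
    | succ n ih => exact ((hstep n _ ih).2.1 _ (hs n)).2.2.2.2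
  have lw : ∀ s, (∀ t, s t ∈ I t) → ∀ n, (ν s (n + 1)).w = Wd n (ν s n) := by
    intro s hs n
    obtain ⟨h3, -, -, h4, -⟩ := (hstep n _ (al s hs n)).2.1 _ (hs n)
    exact h4.w.trans h3
  have ls : ∀ s, (∀ t, s t ∈ I t) → ∀ n, (ν s (n + 1)).s = (Ta n (ν s n) (s n)).s :=
    fun s hs n => ((hstep n _ (al s hs n)).2.1 _ (hs n)).2.2.2.1.s
  have lW : ∀ s, (∀ t, s t ∈ I t) → ∀ n, V_ (lam n) ⊆ (ν s (n + 1)).w := by
    intro s hs n
    rw [lw s hs n]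
    exact (hstep n _ (al s hs n)).1
  have mono : ∀ s, (∀ t, s t ∈ I t) → ∀ i j, i ≤ j → (ν s i).w ⊆ (ν s j).w := by
    intro s hs i j hij
    induction j, hij using Nat.le_induction with
    | base => exact fun _ hx => hx
    | succ j _ ih =>
      obtain ⟨h3, h4, -⟩ := (hstep j _ (al s hs j)).2.1 _ (hs j)
      intro x hx
      rw [lw s hs j, ← h3]
      exact h4.sub (ih hx)
  have agree : ∀ s s' : ℕ → ZFSet.{u}, ∀ n, (∀ i < n, s' i = s i) → ν s' n = ν s n := by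
    intro s s' n
    induction n with
    | zero => exact fun _ => rfl
    | succ n ih =>
      intro H
      rw [νs, νs, ih fun i hi => H i (Nat.lt_succ_of_lt hi), H n (Nat.lt_succ_self n)]
  let U : (ℕ → ZFSet.{u}) → ZFSet.{u} := fun s =>
    ZFSet.sep (fun x => ∃ n, x ∈ (ν s n).s) (V_ l)
  have br : ∀ s, (∀ t, s t ∈ I t) → U s ⊆ V_ l ∧ (∀ n, U s ∩ (ν s n).w = (ν s n).s) ∧
      WellFounded (Rl (V_ l) (sec (V_ l) (U s) ∅)) := by
    intro s hs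
    refine branch_wf hF h1 h2 (τ := fun n => Ta n (ν s n) (s n)) (fun n => (al s hs n).valid)
      (fun n => ((hstep n _ (al s hs n)).2.1 _ (hs n)).2.2.1)
      (fun n => ((hstep n _ (al s hs n)).2.1 _ (hs n)).2.1)
      (fun n => ((hstep n _ (al s hs n)).2.1 _ (hs n)).2.2.2.1) (fun n => ?_) fun x => ?_
    · rw [((hstep n _ (al s hs n)).2.1 _ (hs n)).1]
      exact (hstep n _ (al s hs n)).1
    · refine mem_sep.trans ⟨fun H => H.2, fun H => ⟨?_, H⟩⟩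
      obtain ⟨n, hn⟩ := H
      exact hN _ (al s hs n).valid.mem ((al s hs n).valid.sub hn)
  have tr : ∀ s, (∀ t, s t ∈ I t) → ∀ n x, x ∈ (ν s n).s ↔ x ∈ U s ∧ x ∈ (ν s n).w := by
    intro s hs n x
    rw [← (br s hs).2.1 n, mem_inter]
  refine ⟨U, fun s hs => ⟨(br s hs).1, fun n => ⟨(ν s (n + 1)).w,
    (al s hs (n + 1)).valid.mem, lW s hs n, ?_⟩, (br s hs).2.2⟩, fun s s' hs hs' n H => ?_, fun s hs n => ?_⟩
  · rw [(br s hs).2.1 (n + 1)]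
    exact (al s hs (n + 1)).valid.tree
  · have e := agree s s' (n + 1) fun i hi => H i (Nat.le_of_lt_succ hi)
    ext x
    rw [mem_inter, mem_inter]
    refine and_congr_left fun hx => ?_
    have a := tr s hs (n + 1) x
    have b := tr s' hs' (n + 1) x
    rw [e] at b
    have c := lW s hs n hx
    exact ⟨fun H' => (a.1 (b.2 ⟨H', c⟩)).1, fun H' => (b.1 (a.2 ⟨H', c⟩)).1⟩
  · obtain ⟨d, hd⟩ := hF.W_cof_sub (al s hs (n + 1)).valid.mem
    refine ⟨d, fun s' hs' H i => ?_⟩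
    induction i using Nat.strong_induction_on with
    | _ i ih =>
      intro hi
      have e := agree s s' i fun j hj => ih j hj (hj.le.trans hi)
      have ew : (ν s' (i + 1)).w = (ν s (i + 1)).w := by rw [lw s hs i, lw s' hs' i, e]
      refine (hstep i _ (al s hs i)).2.2 _ (hs' i) _ (hs i) ?_
      have e1 := ls s' hs' i
      rw [e] at e1
      rw [← e1, ← ls s hs i]
      ext x
      have k : x ∈ U s' ∩ Y ∩ V_ (lam d) ↔ x ∈ U s ∩ Y ∩ V_ (lam d) := by rw [H]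
      simp only [mem_inter] at k ⊢
      rw [tr s hs (i + 1) x, tr s' hs' (i + 1) x, ew]
      have c : x ∈ (ν s (i + 1)).w → x ∈ V_ (lam d) :=
        fun hx => hd (mono s hs _ _ (Nat.succ_le_succ hi) hx)
      exact ⟨fun H' => ⟨⟨(k.1 ⟨⟨H'.1.1, H'.2⟩, c H'.1.2⟩).1.1, H'.1.2⟩, H'.2⟩,
        fun H' => ⟨⟨(k.2 ⟨⟨H'.1.1, H'.2⟩, c H'.1.2⟩).1.1, H'.1.2⟩, H'.2⟩⟩

end Pool.Agent.I1PSP.S3
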