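import Pool.Agent.Lib.MP_9c5ecf_lc.Defs

/-!
The levels of the Levy hierarchy and embeddings that are elementary up to a given level.
-/

namespace Pool.Agent.I1PSP.S3

open ZFSet

universe u

/-- The Levy hierarchy: `Lv n true` is the class Sigma-n and `Lv n false` is the class Pi-n. -/
inductive Lv : ℕ → Bool → Fml → Prop
  | delta0 {φ : Fml} (b : Bool) : IsDelta0 φ → Lv 0 b φ
  | up {n : ℕ} {b : Bool} {φ : Fml} (c : Bool) : Lv n b φ → Lv (n + 1) c φ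
  | neg {n : ℕ} {b : Bool} {φ : Fml} : Lv n b φ → Lv n (!b) (.neg φ)
  | and {n : ℕ} {b : Bool} {φ ψ : Fml} : Lv n b φ → Lv n b ψ → Lv n b (.and φ ψ)
  | ex {n : ℕ} {φ : Fml} : Lv (n + 1) true φ → Lv (n + 1) true (.ex φ)

/-- `j` restricts to a non-trivial Sigma-n-elementary embedding of `(V_ (l + 1), ∈)` into
itself. -/
structure IsSigmaElem (n : ℕ) (l : Ordinal.{u}) (j : ZFSet.{u} → ZFSet.{u}) : Prop where
  maps : ∀ x ∈ vonNeumann (l + 1), j x ∈ vonNeumann (l + 1)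
  elem : ∀ φ : Fml, Lv n true φ → ∀ v : ℕ → ZFSet.{u}, (∀ i, v i ∈ vonNeumann (l + 1)) →
    (Sat {x | x ∈ vonNeumann (l + 1)} φ v ↔
      Sat {x | x ∈ vonNeumann (l + 1)} φ fun i => j (v i))
  nontrivial : ∃ x ∈ vonNeumann (l + 1), j x ≠ x

end Pool.Agent.I1PSP.S3
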