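import Pool.Agent.Lib.MP_9c5ecf_lc.Sigma1
import Pool.Agent.Lib.MP_9c5ecf_lc.S3.Defs

/-!
A graded calculus of definability over the power set of `N`, with `N` as a parameter.
-/

namespace Pool.Agent.I1PSP.S3

open ZFSet

universe u

theorem delta0_rename {φ : Fml} (h : IsDelta0 φ) : ∀ σ : ℕ → ℕ, IsDelta0 (φ.rename σ) := by
  induction h with
  | mem i j => exact fun σ => .mem _ _
  | eq i j => exact fun σ => .eq _ _
  | neg _ ih => exact fun σ => .neg (ih σ)
  | and _ _ ih1 ih2 => exact fun σ => .and (ih1 σ) (ih2 σ)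
  | bex i _ ih => exact fun σ => .bex (σ i) (ih _)

theorem Lv.rename {n : ℕ} {b : Bool} {φ : Fml} (h : Lv n b φ) :
    ∀ σ : ℕ → ℕ, Lv n b (φ.rename σ) := by
  induction h with
  | delta0 b h => exact fun σ => .delta0 b (delta0_rename h σ)
  | up c _ ih => exact fun σ => .up c (ih σ)
  | neg _ ih => exact fun σ => .neg (ih σ)
  | and _ _ ih1 ih2 => exact fun σ => .and (ih1 σ) (ih2 σ)
  | ex _ ih => exact fun σ => .ex (ih _)

theorem Lv.of_delta0 {φ : Fml} (h : IsDelta0 φ) (n : ℕ) (b : Bool) : Lv n b φ := by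
  induction n generalizing b with
  | zero => exact .delta0 b h
  | succ n ih => exact .up b (ih b)

theorem Lv.mono {n m : ℕ} {b : Bool} {φ : Fml} (h : Lv n b φ) (hnm : n ≤ m) : Lv m b φ := by
  induction hnm with
  | refl => exact h
  | step _ ih => exact .up b ih

theorem Lv.zero {b : Bool} {φ : Fml} (h : Lv 0 b φ) : IsDelta0 φ := by
  have key : ∀ n b φ, Lv n b φ → n = 0 → IsDelta0 φ := by
    intro n b φ h
    induction h with
    | delta0 b h => exact fun _ => h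
    | up c _ _ => exact fun h => absurd h (Nat.succ_ne_zero _)
    | neg _ ih => exact fun h => .neg (ih h)
    | and _ _ ih1 ih2 => exact fun h => .and (ih1 h) (ih2 h)
    | ex _ _ => exact fun h => absurd h (Nat.succ_ne_zero _)
  exact key 0 b φ h rfl

/-- Relations definable by a bounded formula with the parameter `N`. -/
def D0 (N : ZFSet.{u}) (P : (ℕ → ZFSet.{u}) → Prop) : Prop :=
  ∃ φ : Fml, IsDelta0 φ ∧ ∀ v, Val N v → (P v ↔ Sat (PP N) φ (cons N v))

/-- Operations whose values are subsets of `N` with a bounded membership relation. -/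
def T0 (N : ZFSet.{u}) (t : (ℕ → ZFSet.{u}) → ZFSet.{u}) : Prop :=
  (∀ v, Val N v → t v ⊆ N) ∧ D0 N fun v => v 0 ∈ t fun i => v (i + 1)

/-- Relations definable at a given level. -/
def DL (N : ZFSet.{u}) (n : ℕ) (b : Bool) (P : (ℕ → ZFSet.{u}) → Prop) : Prop :=
  ∃ φ : Fml, Lv n b φ ∧ ∀ v, Val N v → (P v ↔ Sat (PP N) φ (cons N v))

variable {N : ZFSet.{u}} {P Q : (ℕ → ZFSet.{u}) → Prop}
  {t s r q : (ℕ → ZFSet.{u}) → ZFSet.{u}} {n : ℕ} {b : Bool}

theorem sat_lift (D : Set ZFSet.{u}) (φ : Fml) (σ : ℕ → ℕ) (v : ℕ → ZFSet.{u}) :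
    Sat D (φ.rename fun i => Nat.casesOn i 0 fun i => σ i + 1) (cons N v) ↔
      Sat D φ (cons N fun i => v (σ i)) := by
  rw [sat_rename]
  have : (fun i => cons N v (Nat.casesOn i 0 fun i => σ i + 1)) = cons N fun i => v (σ i) := by
    funext i; cases i <;> rfl
  rw [this]

/-- The exchange of the first two variables. -/
def swap01 : ℕ → ℕ
  | 0 => 1
  | 1 => 0
  | n + 2 => n + 2

theorem sat_swap (D : Set ZFSet.{u}) (φ : Fml) (x y : ZFSet.{u}) (v : ℕ → ZFSet.{u}) :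
    Sat D (φ.rename swap01) (cons x (cons y v)) ↔ Sat D φ (cons y (cons x v)) := by
  rw [sat_rename]
  have : (fun i => cons x (cons y v) (swap01 i)) = cons y (cons x v) := by
    funext i
    match i with
    | 0 => rfl
    | 1 => rfl
    | n + 2 => rfl
  rw [this]

theorem D0.dl (h : D0 N P) : DL N n b P := by
  obtain ⟨φ, h1, h2⟩ := h
  exact ⟨φ, Lv.of_delta0 h1 n b, h2⟩

theorem DL.d0 (h : DL N 0 b P) : D0 N P := by
  obtain ⟨φ, h1, h2⟩ := h
  exact ⟨φ, h1.zero, h2⟩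

theorem D0.congr (h : D0 N P) (H : ∀ v, Val N v → (Q v ↔ P v)) : D0 N Q := by
  obtain ⟨φ, h1, hφ⟩ := h
  exact ⟨φ, h1, fun v hv => (H v hv).trans (hφ v hv)⟩

theorem DL.congr (h : DL N n b P) (H : ∀ v, Val N v → (Q v ↔ P v)) : DL N n b Q := by
  obtain ⟨φ, h1, hφ⟩ := h
  exact ⟨φ, h1, fun v hv => (H v hv).trans (hφ v hv)⟩

theorem DL.rename (h : DL N n b P) (σ : ℕ → ℕ) : DL N n b fun v => P fun i => v (σ i) := by
  obtain ⟨φ, h1, hφ⟩ := h
  exact ⟨_, h1.rename _, fun v hv => (hφ _ fun _ => hv _).trans (sat_lift _ φ σ v).symm⟩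

theorem D0.rename (h : D0 N P) (σ : ℕ → ℕ) : D0 N fun v => P fun i => v (σ i) :=
  ((h.dl (n := 0) (b := true)).rename σ).d0

theorem DL.up (h : DL N n b P) (c : Bool) : DL N (n + 1) c P := by
  obtain ⟨φ, h1, hφ⟩ := h
  exact ⟨φ, h1.up c, hφ⟩

/-- From Pi-n to Sigma-(n+1). -/
theorem DL.upT (h : DL N n false P) : DL N (n + 1) true P := h.up true

/-- From Sigma-n to Pi-(n+1). -/
theorem DL.upF (h : DL N n true P) : DL N (n + 1) false P := h.up false

theorem DL.mono {m : ℕ} (h : DL N n b P) (hnm : n ≤ m) : DL N m b P := by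
  obtain ⟨φ, h1, hφ⟩ := h
  exact ⟨φ, h1.mono hnm, hφ⟩

theorem DL.not (h : DL N n b P) : DL N n (!b) fun v => ¬ P v := by
  obtain ⟨φ, h1, hφ⟩ := h
  exact ⟨.neg φ, h1.neg, fun v hv => not_congr (hφ v hv)⟩

theorem DL.notT (h : DL N n false P) : DL N n true fun v => ¬ P v := h.not

theorem DL.notF (h : DL N n true P) : DL N n false fun v => ¬ P v := h.not

theorem DL.and (h : DL N n b P) (h' : DL N n b Q) : DL N n b fun v => P v ∧ Q v := by
  obtain ⟨φ, h1, hφ⟩ := h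
  obtain ⟨ψ, h2, hψ⟩ := h'
  exact ⟨.and φ ψ, h1.and h2, fun v hv => and_congr (hφ v hv) (hψ v hv)⟩

theorem DL.or (h : DL N n b P) (h' : DL N n b Q) : DL N n b fun v => P v ∨ Q v := by
  have := (h.not.and h'.not).not
  rw [Bool.not_not] at this
  exact this.congr fun v _ => by tauto

theorem DL.impT (h : DL N n false P) (h' : DL N n true Q) : DL N n true fun v => P v → Q v :=
  (h.notT.or h').congr fun v _ => by tauto

theorem DL.impF (h : DL N n true P) (h' : DL N n false Q) : DL N n false fun v => P v → Q v :=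
  (h.notF.or h').congr fun v _ => by tauto

theorem DL.ex {R : ZFSet.{u} → (ℕ → ZFSet.{u}) → Prop}
    (h : DL N (n + 1) true fun w => R (w 0) fun i => w (i + 1)) :
    DL N (n + 1) true fun v => ∃ x, x ⊆ N ∧ R x v := by
  obtain ⟨φ, h1, hφ⟩ := h
  refine ⟨.ex (φ.rename swap01), (h1.rename _).ex, fun v hv =>
    exists_congr fun x => and_congr_right fun hx => ?_⟩
  rw [sat_swap]
  exact hφ (cons x v) (hv.cons hx)

theorem DL.all {R : ZFSet.{u} → (ℕ → ZFSet.{u}) → Prop}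
    (h : DL N (n + 1) false fun w => R (w 0) fun i => w (i + 1)) :
    DL N (n + 1) false fun v => ∀ x, x ⊆ N → R x v :=
  (DL.ex (R := fun x v => ¬ R x v) h.notT).notF.congr fun v _ => by push Not; rfl

theorem D0.not (h : D0 N P) : D0 N fun v => ¬ P v := (h.dl (n := 0) (b := true)).not.d0

theorem D0.and (h : D0 N P) (h' : D0 N Q) : D0 N fun v => P v ∧ Q v :=
  ((h.dl (n := 0) (b := true)).and h'.dl).d0

theorem D0.or (h : D0 N P) (h' : D0 N Q) : D0 N fun v => P v ∨ Q v :=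
  ((h.dl (n := 0) (b := true)).or h'.dl).d0

theorem D0.imp (h : D0 N P) (h' : D0 N Q) : D0 N fun v => P v → Q v :=
  ((h.dl (n := 0)).impT h'.dl).d0

theorem D0.iff (h : D0 N P) (h' : D0 N Q) : D0 N fun v => P v ↔ Q v :=
  ((h.imp h').and (h'.imp h)).congr fun v _ => by tauto

theorem D0.const (p : Prop) : D0 N fun _ => p := by
  by_cases h : p
  · exact ⟨.eq 0 0, .eq 0 0, fun _ _ => iff_of_true h rfl⟩
  · exact ⟨.neg (.eq 0 0), .neg (.eq 0 0), fun _ _ => iff_of_false h fun H => H rfl⟩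

theorem D0.exN (hN : N.IsTransitive) {R : ZFSet.{u} → (ℕ → ZFSet.{u}) → Prop}
    (h : D0 N fun w => R (w 0) fun i => w (i + 1)) : D0 N fun v => ∃ x, x ∈ N ∧ R x v := by
  obtain ⟨φ, h1, hφ⟩ := h
  refine ⟨.ex (.and (.mem 0 (0 + 1)) (φ.rename swap01)), .bex 0 (delta0_rename h1 _),
    fun v hv => exists_congr fun x => ?_⟩
  constructor
  · rintro ⟨hx, H⟩
    exact ⟨hN x hx, hx, (sat_swap _ φ x N v).2 ((hφ (cons x v) (hv.cons (hN x hx))).1 H)⟩
  · rintro ⟨hx, hx', H⟩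
    exact ⟨hx', (hφ (cons x v) (hv.cons hx)).2 ((sat_swap _ φ x N v).1 H)⟩

theorem D0.allN (hN : N.IsTransitive) {R : ZFSet.{u} → (ℕ → ZFSet.{u}) → Prop}
    (h : D0 N fun w => R (w 0) fun i => w (i + 1)) : D0 N fun v => ∀ x, x ∈ N → R x v :=
  (D0.exN hN (R := fun x v => ¬ R x v) h.not).not.congr fun v _ => by push Not; rfl

theorem T0.var (i : ℕ) : T0 N fun v => v i :=
  ⟨fun _ hv => hv i, .mem 1 (i + 2), .mem _ _, fun _ _ => Iff.rfl⟩

theorem T0.univ : T0 N fun _ => N :=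
  ⟨fun _ _ => subset_refl _, .mem 1 0, .mem _ _, fun _ _ => Iff.rfl⟩

theorem T0.rename (h : T0 N t) (σ : ℕ → ℕ) : T0 N fun v => t fun i => v (σ i) :=
  ⟨fun _ hv => h.1 _ fun _ => hv _, h.2.rename fun i => Nat.casesOn i 0 fun i => σ i + 1⟩

theorem T0.shift (h : T0 N t) : T0 N fun v => t fun i => v (i + 1) := h.rename _

theorem D0.bex (hN : N.IsTransitive) {R : ZFSet.{u} → (ℕ → ZFSet.{u}) → Prop} (ht : T0 N t)
    (h : D0 N fun w => R (w 0) fun i => w (i + 1)) : D0 N fun v => ∃ x, x ∈ t v ∧ R x v :=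
  (D0.exN hN (R := fun x v => x ∈ t v ∧ R x v) (ht.2.and h)).congr
    fun v hv => exists_congr fun _ => ⟨fun H => ⟨ht.1 v hv H.1, H⟩, fun H => H.2⟩

theorem D0.ball (hN : N.IsTransitive) {R : ZFSet.{u} → (ℕ → ZFSet.{u}) → Prop} (ht : T0 N t)
    (h : D0 N fun w => R (w 0) fun i => w (i + 1)) : D0 N fun v => ∀ x, x ∈ t v → R x v :=
  (D0.bex hN (R := fun x v => ¬ R x v) ht h.not).not.congr fun v _ => by push Not; rfl

theorem D0.subset (hN : N.IsTransitive) (ht : T0 N t) (hs : T0 N s) :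
    D0 N fun v => t v ⊆ s v :=
  (D0.ball hN (R := fun x v => x ∈ s v) ht hs.2).congr fun _ _ => Iff.rfl

theorem D0.eq (hN : N.IsTransitive) (ht : T0 N t) (hs : T0 N s) : D0 N fun v => t v = s v :=
  ((D0.subset hN ht hs).and (D0.subset hN hs ht)).congr fun _ _ => subset_antisymm_iff

theorem D0.mem (hN : N.IsTransitive) (ht : T0 N t) (hs : T0 N s) : D0 N fun v => t v ∈ s v :=
  (D0.bex hN (R := fun x v => x = t v) hs (D0.eq hN (T0.var 0) ht.shift)).congr
    fun _ _ => ⟨fun H => ⟨_, H, rfl⟩, fun ⟨_, H, e⟩ => e ▸ H⟩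

theorem d0_sat (hN : N.IsTransitive) {φ : Fml} (hφ : IsDelta0 φ) :
    ∀ t : ℕ → (ℕ → ZFSet.{u}) → ZFSet.{u}, (∀ i, T0 N (t i)) →
      D0 N fun v => Sat (PP N) φ fun i => t i v := by
  induction hφ with
  | mem i j => exact fun t ht => D0.mem hN (ht i) (ht j)
  | eq i j => exact fun t ht => D0.eq hN (ht i) (ht j)
  | neg _ ih => exact fun t ht => (ih t ht).not
  | and _ _ ih1 ih2 => exact fun t ht => (ih1 t ht).and (ih2 t ht)
  | @bex i φ _ ih =>
    intro t ht
    refine (D0.bex hN (R := fun x v => Sat (PP N) φ (cons x fun i => t i v)) (ht i) ?_).congr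
      fun v hv => exists_congr fun x => ⟨fun H => H.2, fun H => ⟨hN x ((ht i).1 v hv H.1), H⟩⟩
    refine ih (fun k w => cons (w 0) (fun k => t k fun i => w (i + 1)) k) fun k => ?_
    cases k with
    | zero => exact T0.var 0
    | succ k => exact (ht k).shift

theorem dl_sat (hN : N.IsTransitive) {φ : Fml} (hφ : Lv n b φ) :
    ∀ t : ℕ → (ℕ → ZFSet.{u}) → ZFSet.{u}, (∀ i, T0 N (t i)) →
      DL N n b fun v => Sat (PP N) φ fun i => t i v := by
  induction hφ with
  | delta0 b h => exact fun t ht => (d0_sat hN h t ht).dl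
  | up c _ ih => exact fun t ht => (ih t ht).up c
  | neg _ ih => exact fun t ht => (ih t ht).not
  | and _ _ ih1 ih2 => exact fun t ht => (ih1 t ht).and (ih2 t ht)
  | @ex n φ _ ih =>
    intro t ht
    refine DL.ex (R := fun x v => Sat (PP N) φ (cons x fun i => t i v)) ?_
    refine ih (fun k w => cons (w 0) (fun k => t k fun i => w (i + 1)) k) fun k => ?_
    cases k with
    | zero => exact T0.var 0
    | succ k => exact (ht k).shift

/-- Substitution of operations into a definable relation. -/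
theorem DL.comp (hN : N.IsTransitive) (h : DL N n b P)
    {t : ℕ → (ℕ → ZFSet.{u}) → ZFSet.{u}} (ht : ∀ i, T0 N (t i)) :
    DL N n b fun v => P fun i => t i v := by
  obtain ⟨φ, h1, hφ⟩ := h
  refine (dl_sat hN h1 (fun k w => cons N (fun k => t k w) k) fun k => ?_).congr
    fun v hv => hφ _ fun i => (ht i).1 v hv
  cases k with
  | zero => exact T0.univ
  | succ k => exact ht k

theorem D0.comp (hN : N.IsTransitive) (h : D0 N P)
    {t : ℕ → (ℕ → ZFSet.{u}) → ZFSet.{u}} (ht : ∀ i, T0 N (t i)) :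
    D0 N fun v => P fun i => t i v :=
  ((h.dl (n := 0) (b := true)).comp hN ht).d0

/-- A sequence of operations with a new first member. -/
def tc (t : (ℕ → ZFSet.{u}) → ZFSet.{u}) (T : ℕ → (ℕ → ZFSet.{u}) → ZFSet.{u}) :
    ℕ → (ℕ → ZFSet.{u}) → ZFSet.{u}
  | 0 => t
  | i + 1 => T i

theorem T0.tc (ht : T0 N t) {T : ℕ → (ℕ → ZFSet.{u}) → ZFSet.{u}} (hT : ∀ i, T0 N (T i)) :
    ∀ i, T0 N (tc t T i)
  | 0 => ht
  | i + 1 => hT i

theorem DL.comp1 (hN : N.IsTransitive) {R : ZFSet.{u} → Prop} (h : DL N n b fun v => R (v 0))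
    (ht : T0 N t) : DL N n b fun v => R (t v) :=
  h.comp hN (t := fun _ => t) fun _ => ht

theorem DL.comp2 (hN : N.IsTransitive) {R : ZFSet.{u} → ZFSet.{u} → Prop}
    (h : DL N n b fun v => R (v 0) (v 1)) (ht : T0 N t) (hs : T0 N s) :
    DL N n b fun v => R (t v) (s v) :=
  h.comp hN (ht.tc (T := fun _ => s) fun _ => hs)

theorem DL.comp3 (hN : N.IsTransitive) {R : ZFSet.{u} → ZFSet.{u} → ZFSet.{u} → Prop}
    (h : DL N n b fun v => R (v 0) (v 1) (v 2)) (ht : T0 N t) (hs : T0 N s) (hr : T0 N r) :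
    DL N n b fun v => R (t v) (s v) (r v) :=
  h.comp hN (ht.tc (hs.tc (T := fun _ => r) fun _ => hr))

theorem DL.comp4 (hN : N.IsTransitive)
    {R : ZFSet.{u} → ZFSet.{u} → ZFSet.{u} → ZFSet.{u} → Prop}
    (h : DL N n b fun v => R (v 0) (v 1) (v 2) (v 3)) (ht : T0 N t) (hs : T0 N s) (hr : T0 N r)
    (hq : T0 N q) : DL N n b fun v => R (t v) (s v) (r v) (q v) :=
  h.comp hN (ht.tc (hs.tc (hr.tc (T := fun _ => q) fun _ => hq)))

theorem D0.comp1 (hN : N.IsTransitive) {R : ZFSet.{u} → Prop} (h : D0 N fun v => R (v 0))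
    (ht : T0 N t) : D0 N fun v => R (t v) :=
  (DL.comp1 hN (h.dl (n := 0) (b := true)) ht).d0

theorem D0.comp2 (hN : N.IsTransitive) {R : ZFSet.{u} → ZFSet.{u} → Prop}
    (h : D0 N fun v => R (v 0) (v 1)) (ht : T0 N t) (hs : T0 N s) :
    D0 N fun v => R (t v) (s v) :=
  (DL.comp2 hN (h.dl (n := 0) (b := true)) ht hs).d0

theorem D0.comp3 (hN : N.IsTransitive) {R : ZFSet.{u} → ZFSet.{u} → ZFSet.{u} → Prop}
    (h : D0 N fun v => R (v 0) (v 1) (v 2)) (ht : T0 N t) (hs : T0 N s) (hr : T0 N r) :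
    D0 N fun v => R (t v) (s v) (r v) :=
  (DL.comp3 hN (h.dl (n := 0) (b := true)) ht hs hr).d0

theorem D0.comp4 (hN : N.IsTransitive)
    {R : ZFSet.{u} → ZFSet.{u} → ZFSet.{u} → ZFSet.{u} → Prop}
    (h : D0 N fun v => R (v 0) (v 1) (v 2) (v 3)) (ht : T0 N t) (hs : T0 N s) (hr : T0 N r)
    (hq : T0 N q) : D0 N fun v => R (t v) (s v) (r v) (q v) :=
  (DL.comp4 hN (h.dl (n := 0) (b := true)) ht hs hr hq).d0

theorem T0.comp (hN : N.IsTransitive) (h : T0 N t) {T : ℕ → (ℕ → ZFSet.{u}) → ZFSet.{u}}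
    (hT : ∀ i, T0 N (T i)) : T0 N fun v => t fun i => T i v :=
  ⟨fun v hv => h.1 _ fun i => (hT i).1 v hv,
    h.2.comp hN ((T0.var 0).tc (T := fun k w => T k fun i => w (i + 1)) fun k => (hT k).shift)⟩

theorem T0.comp1 (hN : N.IsTransitive) {f : ZFSet.{u} → ZFSet.{u}} (h : T0 N fun v => f (v 0))
    (ht : T0 N t) : T0 N fun v => f (t v) :=
  h.comp hN (T := fun _ => t) fun _ => ht

theorem T0.comp2 (hN : N.IsTransitive) {f : ZFSet.{u} → ZFSet.{u} → ZFSet.{u}}
    (h : T0 N fun v => f (v 0) (v 1)) (ht : T0 N t) (hs : T0 N s) :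
    T0 N fun v => f (t v) (s v) :=
  h.comp hN (ht.tc (T := fun _ => s) fun _ => hs)

theorem T0.sep {R : ZFSet.{u} → (ℕ → ZFSet.{u}) → Prop} (ht : T0 N t)
    (h : D0 N fun w => R (w 0) fun i => w (i + 1)) :
    T0 N fun v => ZFSet.sep (fun x => R x v) (t v) :=
  ⟨fun v hv => sep_subset.trans (ht.1 v hv), (ht.2.and h).congr fun _ _ => mem_sep⟩

theorem T0.inter (ht : T0 N t) (hs : T0 N s) : T0 N fun v => t v ∩ s v :=
  ⟨fun v hv => (inter_sub_left _ _).trans (ht.1 v hv), (ht.2.and hs.2).congr fun _ _ => mem_inter⟩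

theorem T0.union (ht : T0 N t) (hs : T0 N s) : T0 N fun v => t v ∪ s v :=
  ⟨fun v hv _ hx => (mem_union.1 hx).elim (fun h => ht.1 v hv h) fun h => hs.1 v hv h,
    (ht.2.or hs.2).congr fun _ _ => mem_union⟩

theorem T0.diff (ht : T0 N t) (hs : T0 N s) : T0 N fun v => t v \ s v :=
  ⟨fun v hv _ hx => ht.1 v hv (mem_sdiff.1 hx).1, (ht.2.and hs.2.not).congr fun _ _ => mem_sdiff⟩

theorem T0.empty : T0 N fun _ => ∅ :=
  ⟨fun _ _ => ZFSet.empty_subset _, (D0.const False).congr fun _ _ => by simp⟩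

theorem D0.eqPair (hN : N.IsTransitive) (ht : T0 N t) (hs : T0 N s) (hr : T0 N r) :
    D0 N fun v => t v = pair (s v) (r v) := by
  refine D0.comp3 hN (R := fun p a b => p = pair a b) ?_ ht hs hr
  simp only [eq_pair_iff]
  repeat' with_reducible first
    | exact T0.var _ | apply D0.mem hN | apply D0.eq hN | apply D0.and | apply D0.or
    | apply D0.bex hN | apply D0.ball hN

theorem D0.pairMem (hN : N.IsTransitive) (ht : T0 N t) (hs : T0 N s) (hr : T0 N r) :
    D0 N fun v => pair (s v) (r v) ∈ t v :=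
  (D0.bex hN (R := fun p v => p = pair (s v) (r v)) ht
    (D0.eqPair hN (T0.var 0) hs.shift hr.shift)).congr fun v _ => by simp

theorem T0.sec (hN : N.IsTransitive) (ht : T0 N t) (hs : T0 N s) :
    T0 N fun v => sec N (t v) (s v) :=
  T0.sep (R := fun x v => pair (s v) x ∈ t v) T0.univ
    (D0.pairMem hN ht.shift hs.shift (T0.var 0))

theorem T0.prod (hN : N.IsTransitive) (hpair : ∀ a ∈ N, ∀ b ∈ N, pair a b ∈ N) (ht : T0 N t)
    (hs : T0 N s) : T0 N fun v => ZFSet.prod (t v) (s v) := by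
  refine ⟨fun v hv x hx => ?_, (D0.bex hN (R := fun a w => ∃ c, c ∈ (s fun i => w (i + 1)) ∧
    w 0 = pair a c) ht.shift (D0.bex hN hs.shift.shift (D0.eqPair hN (T0.var 2) (T0.var 1)
      (T0.var 0)))).congr fun _ _ => mem_prod⟩
  obtain ⟨a, ha, c, hc, rfl⟩ := mem_prod.1 hx
  exact hpair _ (ht.1 v hv ha) _ (hs.1 v hv hc)

theorem T0.ap (hN : N.IsTransitive) (ht : T0 N t) (hs : T0 N s) :
    T0 N fun v => ap N (t v) (s v) := by
  refine T0.comp2 hN (f := I1PSP.ap N) ?_ ht hs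
  unfold I1PSP.ap
  repeat' with_reducible first
    | exact T0.var _ | exact T0.univ | apply T0.sep | apply D0.pairMem hN
    | apply D0.bex hN | apply D0.and | apply D0.mem hN | apply T0.inter

theorem D0.injRel (hN : N.IsTransitive) (ht : T0 N t) (hs : T0 N s) (hr : T0 N r) :
    D0 N fun v => InjRel (t v) (s v) (r v) := by
  refine D0.comp3 hN (R := InjRel) ?_ ht hs hr
  unfold InjRel
  repeat' with_reducible first
    | exact T0.var _ | apply D0.ball hN | apply D0.bex hN | apply D0.and | apply D0.imp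
    | apply D0.eq hN | apply D0.pairMem hN

theorem DL.bex (hN : N.IsTransitive) {R : ZFSet.{u} → (ℕ → ZFSet.{u}) → Prop} (ht : T0 N t)
    (h : DL N (n + 1) true fun w => R (w 0) fun i => w (i + 1)) :
    DL N (n + 1) true fun v => ∃ x, x ∈ t v ∧ R x v :=
  (DL.ex (R := fun x v => x ∈ t v ∧ R x v) (ht.2.dl.and h)).congr
    fun v hv => exists_congr fun x => ⟨fun H => ⟨hN x (ht.1 v hv H.1), H⟩, fun H => H.2⟩

theorem DL.ball (hN : N.IsTransitive) {R : ZFSet.{u} → (ℕ → ZFSet.{u}) → Prop} (ht : T0 N t)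
    (h : DL N (n + 1) false fun w => R (w 0) fun i => w (i + 1)) :
    DL N (n + 1) false fun v => ∀ x, x ∈ t v → R x v :=
  (DL.bex hN (R := fun x v => ¬ R x v) ht h.notT).notF.congr fun v _ => by push Not; rfl

end Pool.Agent.I1PSP.S3
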