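import Pool.Agent.Lib.MP_9c5ecf_lc.S3.Trans

/-!
The capture lemma.
-/

namespace Pool.Agent.I1PSP.S3

open ZFSet Order

universe u

variable {l : Ordinal.{u}} {lam : ℕ → Ordinal.{u}} {T Y a W : ZFSet.{u}}
  {k : ZFSet.{u} → ZFSet.{u}} {β ξ : Ordinal.{u + 1}} {σ τ : Nd.{u}}

theorem capture (hF : Fr l lam) (hk : El 1 (V_ l) k) (hT : T ⊆ V_ l) (hY : Y ⊆ V_ l)
    (hW : W ∈ V_ l) (hβ : β < Lam (V_ l)) (hξ : ξ < Lam (V_ l))
    (hσ : Valid (V_ l) (k T) β σ) (hkw : k σ.w = σ.w) (hks : k σ.s = σ.s)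
    (hkw' : ∀ x ∈ σ.w, k x = x) (hfβ : FixO (V_ l) k β) (hfρ : ∀ x ∈ σ.w, FixO (V_ l) k (σ.ρ x))
    (ha : a ∈ V_ l) (hka : k a = a) (hka' : ∀ y ∈ a, k y = y)
    (hno : ¬ Fam (V_ l) (k T) (k Y) β ξ σ a (k W))
    (h1 : τ.w = k W) (h2 : Ext σ τ) (h3 : Alive (V_ l) (k T) (k Y) β ξ τ) :
    ∃ p, p ⊆ V_ l ∧ k p = τ.s ∩ k Y := by
  have hN := isTransitive_vonNeumann l
  have hm : max β ξ < Lam (V_ l) := max_lt hβ hξ
  obtain ⟨r, hr, hcode⟩ := exists_sw hF (succ_lt_Lam hF hm)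
  have hle1 : β ≤ max β ξ + 1 := (le_max_left _ _).trans le_self_add
  have hle2 : ξ + 1 ≤ max β ξ + 1 := by gcongr; exact le_max_right _ _
  obtain ⟨b, hb, hbβ⟩ := hcode β hle1
  have hwN : σ.w ⊆ V_ l := hN _ hσ.mem
  have hsN : σ.s ⊆ V_ l := hσ.sub.trans hwN
  obtain ⟨g, hg, hg', hlab⟩ := exists_cfun hF (r := r) hwN (ρ := σ.ρ)
    fun x hx => hcode _ ((hσ.lt x hx).le.trans hle1)
  have hkb : rk (V_ l) (k r) (k b) = β := hfβ r b hr hb hbβ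
  have hsame : Same σ (nd (V_ l) (k r) (k σ.w) (k σ.s) (k g)) := by
    refine ⟨hkw, hks, fun x hx => ?_⟩
    change lab (V_ l) (k r) (k g) x = σ.ρ x
    rw [lab_map hF hk hr hσ.mem hg hg' hx (hkw' x hx) (by rw [hlab x hx]; exact hfρ x hx),
      hlab x hx]
  have hup : ∀ x ∈ V_ l, (∀ η < rk (V_ l) r x,
      Fam (V_ l) T Y (rk (V_ l) r b) η (nd (V_ l) r σ.w σ.s g) a W) →
        rk (V_ l) (k r) (k x) ≤ ξ := by
    intro x hx H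
    by_contra hc
    have h4 := fam_up hF hk hr hT hY hb hx hσ.mem hsN hg hg' ha hW H ξ (not_le.1 hc)
    rw [hkb, hka] at h4
    exact hno (hsame.symm.fam h4)
  have hne : ∃ η, η ≤ ξ ∧ ¬ Fam (V_ l) T Y (rk (V_ l) r b) η (nd (V_ l) r σ.w σ.s g) a W := by
    by_contra hc
    push Not at hc
    obtain ⟨x, hx, hx'⟩ := hcode (ξ + 1) hle2
    have h4 := hup x hx fun η hη => hc η (by rw [hx'] at hη; exact Order.lt_add_one_iff.1 hη)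
    have h5 := hr.rk_le_map hN hk hx
    rw [hx'] at h5
    exact absurd (h5.trans h4) (not_le.2 (lt_add_one ξ))
  obtain ⟨η, ⟨hη, hη'⟩, hmin⟩ := wellFounded_lt.has_min _ hne
  obtain ⟨x, hx, hx'⟩ := hcode η (hη.trans (le_self_add.trans hle2))
  have hkx : rk (V_ l) (k r) (k x) ≤ ξ := hup x hx fun ζ hζ => by
    rw [hx'] at hζ
    by_contra hc
    exact hmin ζ ⟨hζ.le.trans hη, hc⟩ hζ
  let P : ZFSet.{u} := ZFSet.sep (fun t => ∃ τ' : Nd.{u}, τ'.w = W ∧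
    Ext (nd (V_ l) r σ.w σ.s g) τ' ∧ Alive (V_ l) T Y (rk (V_ l) r b) η τ' ∧ τ'.s ∩ Y = t)
    (powerset W)
  have hPN : P ⊆ V_ l := sep_subset.trans (hN _ (hF.pow_mem hW))
  have h4 : τ.s ∩ k Y ∈ k P := by
    refine trace_down hF hk hr hT hY hb hx hσ.mem hsN hg hg' hW hPN (fun τ' e1 e2 e3 => ?_) h1
      (hsame.ext_left h2) (by rw [hkb]; exact h3.mono hkx)
    rw [hx'] at e3
    exact mem_sep.2 ⟨mem_powerset.2 ((inter_sub_left _ _).trans (e1 ▸ e3.valid.sub)),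
      τ', e1, e2, e3, rfl⟩
  refine small_range hF hk ha hka hka' hPN ?_ h4
  rintro ⟨e, he1, he2⟩
  have : Nonempty Nd.{u} := ⟨σ⟩
  choose! τ' e1 e2 e3 e4 using fun y hy => (mem_sep.1 (he1 y hy)).2
  exact hη' ⟨τ', fun y hy => ⟨e1 y hy, e2 y hy, e3 y hy⟩, fun y hy y' hy' e =>
    he2 y hy y' hy' (by rw [← e4 y hy, ← e4 y' hy', e])⟩

end Pool.Agent.I1PSP.S3
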