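import Pool.Agent.Lib.MP_9c5ecf_lc.S3.El

/-!
The argument of Kunen for Sigma-3-elementary embeddings (port of the part Kunen of `Main`).
-/

namespace Pool.Agent.I1PSP.S3

open ZFSet Order

universe u

variable {l : Ordinal.{u}} {j : ZFSet.{u} → ZFSet.{u}} {N : ZFSet.{u}} {n : ℕ}

theorem El.map_gr (hj : El n N j) (hN : N.IsTransitive) {O : ZFSet.{u}} (hO : O ⊆ N)
    (hO' : ∀ a, a ∈ O ↔ ∃ n, ix n = a) (hjO : j O = O) (hix : ∀ n, j (ix n) = ix n)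
    {f : ℕ → ZFSet.{u}} (hf : gr f ⊆ N) : j (gr f) = gr fun n => j (f n) := by
  have h0 : ∀ n, pair (ix n) (f n) ∈ N := fun n => hf (pair_mem_gr.2 rfl)
  have h1 : ∀ n, pair (ix n) (j (f n)) ∈ j (gr f) := fun n => by
    rw [← hix n, hj.pair_mem_iff hN (hN _ (fst_mem_of_pair_mem hN (h0 n)))
      (hN _ (snd_mem_of_pair_mem hN (h0 n))) hf]
    exact pair_mem_gr.2 rfl
  have hdef : D0 N fun v => (∀ p, p ∈ v 0 → ∃ a, a ∈ v 1 ∧ ∃ x, x ∈ N ∧ p = pair a x) ∧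
      ∀ a, a ∈ v 1 → ∀ x, x ∈ N → ∀ y, y ∈ N → pair a x ∈ v 0 → pair a y ∈ v 0 → x = y := by
    repeat' with_reducible first
      | exact T0.var _ | exact T0.univ | apply D0.ball hN | apply D0.bex hN
      | apply D0.and | apply D0.imp | apply D0.eqPair hN | apply D0.eq hN
      | apply D0.pairMem hN
  obtain ⟨h2, h3⟩ := (hj.iff2 (b := true) (R := fun g O => (∀ p, p ∈ g → ∃ a, a ∈ O ∧ ∃ x, x ∈ N ∧
      p = pair a x) ∧ ∀ a, a ∈ O → ∀ x, x ∈ N → ∀ y, y ∈ N → pair a x ∈ g → pair a y ∈ g →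
        x = y) hdef.dl hf hO).1 (by
    constructor
    · intro p hp
      obtain ⟨n, rfl⟩ := mem_gr.1 hp
      exact ⟨ix n, (hO' _).2 ⟨n, rfl⟩, f n, snd_mem_of_pair_mem hN (h0 n), rfl⟩
    · intro a ha x _ y _ hx hy
      obtain ⟨n, rfl⟩ := (hO' a).1 ha
      rw [pair_mem_gr.1 hx, pair_mem_gr.1 hy])
  rw [hjO] at h2 h3
  ext p
  constructor
  · intro hp
    obtain ⟨a, ha, x, hx, rfl⟩ := h2 p hp
    obtain ⟨n, rfl⟩ := (hO' a).1 ha
    exact pair_mem_gr.2 (h3 _ ha x hx _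
      (hj.mem_univ hN (snd_mem_of_pair_mem hN (h0 n))) hp (h1 n))
  · intro hp
    obtain ⟨n, rfl⟩ := mem_gr.1 hp
    exact h1 n

theorem kunen3 (hj : El 3 (V_ l) j) {lam : ℕ → Ordinal.{u}}
    (hmono : StrictMono lam) (hjV : ∀ n, j (V_ (lam n)) = V_ (lam (n + 1)))
    (hfix : ∀ x ∈ V_ (lam 0), j x = x) (hom : Ordinal.omega0 < lam 0) {a : Ordinal.{u}}
    (ha : a < l) : ∃ n, a < lam n := by
  have hN := isTransitive_vonNeumann l
  by_contra hc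
  push Not at hc
  let d : Ordinal.{u} := ⨆ n, lam n
  have hd1 : ∀ n, lam n < d := fun n =>
    (hmono (Nat.lt_succ_self n)).trans_le (Ordinal.le_iSup lam (n + 1))
  have hd2 : ∀ b < d, ∃ n, b < lam n := fun b hb => (Ordinal.lt_iSup_iff).1 hb
  have hdl : d < l := (Ordinal.iSup_le hc).trans_lt ha
  have hd3 : ∀ b < d, succ b < d := fun b hb => by
    obtain ⟨n, hn⟩ := hd2 b hb
    exact (succ_le_of_lt hn).trans_lt (hd1 n)
  have hpair : ∀ x ∈ V_ d, ∀ y ∈ V_ d, pair x y ∈ V_ d := fun x hx y hy => pair_mem_V hd3 hx hy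
  have hDN : V_ d ⊆ V_ l := vonNeumann_subset_of_le hdl.le
  have hPN : V_ (d + 1) ⊆ V_ l := vonNeumann_subset_of_le (add_one_le_of_lt hdl)
  have hix : ∀ n, ix n ∈ V_ d := ix_mem (hom.le.trans (hd1 0).le)
  have hcof : ∀ x ∈ V_ d, ∃ n, x ∈ V_ (lam n) := fun x hx => by
    simpa only [mem_vonNeumann] using hd2 _ (mem_vonNeumann.1 hx)
  have hgr : ∀ f : ℕ → ZFSet.{u}, (∀ n, f n ∈ V_ d) → gr f ⊆ V_ d := fun f hf p hp => by
    obtain ⟨n, rfl⟩ := mem_gr.1 hp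
    exact hpair _ (hix n) _ (hf n)
  let O : ZFSet.{u} := ZFSet.range ix
  have hO' : ∀ a, a ∈ O ↔ ∃ n, ix n = a := fun a => mem_range
  have hO1 : O ⊆ V_ Ordinal.omega0 := fun x hx => by
    obtain ⟨n, rfl⟩ := (hO' x).1 hx
    exact ix_mem le_rfl n
  have hO : O ⊆ V_ l := hO1.trans (vonNeumann_subset_of_le (hom.le.trans ((hd1 0).trans hdl).le))
  have hjO : j O = O := hfix O (mem_vonNeumann.2 ((subset_vonNeumann.1 hO1).trans_lt hom))
  have hjgr : ∀ f : ℕ → ZFSet.{u}, (∀ n, f n ∈ V_ d) → j (gr f) = gr fun n => j (f n) :=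
    fun f hf => hj.map_gr hN hO hO' hjO (fun n => hfix _ (ix_mem hom.le n))
      ((hgr f hf).trans hDN)
  have hjD : j (V_ d) = V_ d := by
    have hdef : T0 (V_ l) fun v => ZFSet.sep
        (fun x => ∃ a, a ∈ V_ l ∧ ∃ w, w ∈ V_ l ∧ pair a w ∈ v 0 ∧ x ∈ w) (V_ l) := by
      repeat' with_reducible first
        | exact T0.var _ | exact T0.univ | apply T0.sep | apply D0.bex hN
        | apply D0.and | apply D0.pairMem hN | apply D0.mem hN
    have h1 : ∀ m : ℕ → ℕ, (∀ n, n ≤ m n) → ZFSet.sep (fun x => ∃ a, a ∈ V_ l ∧ ∃ w,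
        w ∈ V_ l ∧ pair a w ∈ gr (fun n => V_ (lam (m n))) ∧ x ∈ w) (V_ l) = V_ d := by
      intro m hm
      ext x
      rw [mem_sep]
      constructor
      · rintro ⟨-, a, -, w, -, h, hx⟩
        obtain ⟨n, h⟩ := mem_gr.1 h
        rw [← (pair_inj.1 h).2] at hx
        exact vonNeumann_subset_of_le (hd1 _).le hx
      · intro hx
        obtain ⟨n, hn⟩ := hcof x hx
        exact ⟨hDN hx, ix n, hDN (hix n), _, vonNeumann_mem_of_lt ((hd1 (m n)).trans hdl),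
          pair_mem_gr.2 rfl, vonNeumann_subset_of_le (hmono.monotone (hm n)) hn⟩
    have h2 : ∀ n, V_ (lam n) ∈ V_ d := fun n => vonNeumann_mem_of_lt (hd1 n)
    have h3 := hj.term hN hdef (v := fun _ => gr fun n => V_ (lam n)) fun _ => (hgr _ h2).trans hDN
    simp only [hjgr _ h2, hjV] at h3
    rwa [h1 (fun n => n) fun _ => le_rfl, h1 (fun n => n + 1) Nat.le_succ] at h3
  have hjm : ∀ x ∈ V_ d, j x ∈ V_ d := fun x hx => by
    rw [← hjD, hj.mem_iff hN (hN x (hDN hx)) hDN]; exact hx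
  obtain ⟨F, hF1, hF2⟩ := exists_jonsson (W := fun n => V_ (lam n)) hpair
    (fun n y hy => mem_vonNeumann.2 ((subset_vonNeumann.1 hy).trans_lt (hd1 n))) hcof
  have hc1 : ∀ t : ℕ → ZFSet.{u}, (∀ n, t n ∈ V_ d) → ∀ n, cons (F t) t n ∈ V_ d := by
    intro t ht n
    cases n with
    | zero => exact hF1 t
    | succ n => exact ht n
  let G : ZFSet.{u} :=
    ZFSet.sep (fun g => ∃ t, (∀ n, t n ∈ V_ d) ∧ g = gr (cons (F t) t)) (V_ l)
  have hG : ∀ t : ℕ → ZFSet.{u}, (∀ n, t n ∈ V_ d) → gr (cons (F t) t) ∈ G := fun t ht =>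
    mem_sep.2 ⟨hPN (mem_V_succ.2 (hgr _ (hc1 t ht))), t, ht, rfl⟩
  have hne : ∀ n, ix.{u} (n + 1) ≠ ∅ := fun n h =>
    Nat.succ_ne_zero n (ix_injective (h.trans ix_zero.symm))
  let R : ZFSet.{u} → ZFSet.{u} → ZFSet.{u} → Prop := fun G D O =>
    (∀ g, g ∈ G → ∀ g', g' ∈ G →
      (∀ a, a ∈ O → ∀ x, x ∈ D → ¬ a = ∅ → pair a x ∈ g → pair a x ∈ g') → g = g') ∧
    ∀ A, A ⊆ V_ l → A ⊆ D → (∃ e, e ⊆ V_ l ∧ InjRel e D A) → ∀ c, c ∈ D → ∃ g, g ∈ G ∧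
      pair ∅ c ∈ g ∧ ∀ a, a ∈ O → ¬ a = ∅ → ∃ x, x ∈ A ∧ pair a x ∈ g
  have hdef : DL (V_ l) 3 false fun v => R (v 0) (v 1) (v 2) := by
    simp only [R]
    refine DL.and (D0.dl ?_) (DL.all (DL.impF (D0.dl ?_) (DL.impF (DL.ex (D0.dl ?_))
      (D0.dl ?_))))
    all_goals
      repeat' with_reducible first
        | exact T0.var _ | exact T0.empty | apply D0.ball hN | apply D0.bex hN
        | apply D0.and | apply D0.not | apply D0.imp
        | apply D0.eq hN | apply D0.pairMem hN | apply D0.subset hN | apply D0.injRel hN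
  have hR : R G (V_ d) O := by
    constructor
    · intro g hg g' hg' h
      obtain ⟨-, t, ht, rfl⟩ := mem_sep.1 hg
      obtain ⟨-, t', -, rfl⟩ := mem_sep.1 hg'
      have : t = t' := funext fun n => (pair_mem_gr (n := n + 1)).1
        (h _ ((hO' _).2 ⟨n + 1, rfl⟩) _ (ht n) (hne n) (pair_mem_gr.2 rfl))
      rw [this]
    · rintro A - hA ⟨e, -, he⟩ c hc
      obtain ⟨e, h1, h2⟩ := he.exists_fun
      obtain ⟨t, ht, rfl⟩ := hF2 A hA e h1 h2 c hc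
      refine ⟨_, hG t fun n => hA (ht n), ix_zero ▸ pair_mem_gr.2 rfl, fun a ha ha' => ?_⟩
      obtain ⟨n, rfl⟩ := (hO' a).1 ha
      cases n with
      | zero => exact absurd ix_zero ha'
      | succ n => exact ⟨t n, ht n, pair_mem_gr.2 rfl⟩
  rw [hj.iff3 hdef sep_subset hDN hO, hjD, hjO] at hR
  let A : ZFSet.{u} := ZFSet.sep (fun y => ∃ x ∈ V_ d, y = j x) (V_ d)
  have hinj : ∀ x ∈ V_ d, ∀ y ∈ V_ d, j x = j y → x = y := fun x hx y hy =>
    hj.inj hN (hN x (hDN hx)) (hN y (hDN hy))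
  obtain ⟨e, he1, he2⟩ := exists_injRel hpair (subset_refl _) (b := A) sep_subset (e := j)
    (fun x hx => mem_sep.2 ⟨hjm x hx, x, hx, rfl⟩) hinj
  obtain ⟨g, hg, h1, h2⟩ := hR.2 A (sep_subset.trans hDN) sep_subset ⟨e, he1.trans hDN, he2⟩
    (V_ (lam 0)) (vonNeumann_mem_of_lt (hd1 0))
  have h3 : ∀ n, ∃ x ∈ V_ d, pair (ix (n + 1)) (j x) ∈ g := fun n => by
    obtain ⟨y, hy, h⟩ := h2 _ ((hO' _).2 ⟨n + 1, rfl⟩) (hne n)
    obtain ⟨-, x, hx, rfl⟩ := mem_sep.1 hy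
    exact ⟨x, hx, h⟩
  choose t ht1 ht2 using h3
  have h4 : j (gr (cons (F t) t)) = g := by
    refine hR.1 _ ((hj.mem_iff hN ((hgr _ (hc1 t ht1)).trans hDN) sep_subset).2 (hG t ht1)) g hg
      fun a ha x _ ha' h => ?_
    obtain ⟨n, rfl⟩ := (hO' a).1 ha
    rw [hjgr _ (hc1 t ht1), pair_mem_gr] at h
    cases n with
    | zero => exact absurd ix_zero ha'
    | succ n => rw [h]; exact ht2 n
  rw [← h4, hjgr _ (hc1 t ht1), ← ix_zero, pair_mem_gr] at h1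
  change V_ (lam 0) = j (F t) at h1
  have h5 : F t ∈ V_ (lam 0) := by
    rw [← hj.mem_iff hN (hN _ (hDN (hF1 t))) (vonNeumann_subset_of_le ((hd1 0).trans hdl).le),
      ← h1, hjV]
    exact vonNeumann_mem_of_lt (hmono Nat.zero_lt_one)
  rw [hfix _ h5] at h1
  rw [← h1] at h5
  exact mem_irrefl _ h5

end Pool.Agent.I1PSP.S3
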