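import Pool.Agent.Lib.MP_9c5ecf_lc.S3.Crit
import Pool.Agent.Lib.MP_9c5ecf_lc.S3.Kunen

/-!
The size of the levels (port of `mk_V_le`) and the frame of a Sigma-3-elementary embedding.
-/

namespace Pool.Agent.I1PSP.S3

open ZFSet Order Cardinal

universe u

variable {l : Ordinal.{u}} {j : ZFSet.{u} → ZFSet.{u}} {lam : ℕ → Ordinal.{u}}

/-- Port of `mk_V_le`. For `j (lev l a) = lev l a'` use the Pi-3 relation
`∀ y ∈ N, (y ∈ v 0 → y ∈ v 1 ∧ IsLevel N y) ∧ (y ∈ v 1 ∧ IsLevel N y → y ∈ v 0)`. -/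
theorem mk_V_le3 (hj : El 3 (V_ l) j) (hF : Fr l lam)
    (hjV : ∀ n, j (V_ (lam n)) = V_ (lam (n + 1))) (hfix : ∀ x ∈ V_ (lam 0), j x = x) (n : ℕ) :
    #{x : ZFSet.{u} | x ∈ V_ (lam n)} ≤ #(Set.Iio l) := by
  have hmono := hF.mono
  have hlt := hF.lt
  have hN := isTransitive_vonNeumann l
  have hVN : ∀ n, V_ (lam n) ⊆ V_ l := fun n => vonNeumann_subset_of_le (hlt n).le
  have hON : ∀ n, lev l (lam n) ⊆ V_ l := fun n => sep_subset.trans (hVN n)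
  have hdef0 : DL (V_ l) 3 false fun v => ∀ y, y ∈ V_ l →
      (y ∈ v 0 → y ∈ v 1 ∧ IsLevel (V_ l) y) ∧ (y ∈ v 1 ∧ IsLevel (V_ l) y → y ∈ v 0) :=
    DL.ball hN T0.univ (DL.and
      (DL.impF (D0.mem hN (T0.var 0) (T0.var 1)).dl
        (DL.and (D0.mem hN (T0.var 0) (T0.var 2)).dl ((DL.isLevel hN (T0.var 0)).up false)))
      (DL.impF (DL.and (D0.mem hN (T0.var 0) (T0.var 2)).dl ((DL.isLevel hN (T0.var 0)).up true))
        (D0.mem hN (T0.var 0) (T0.var 1)).dl))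
  have hjO : ∀ n, j (lev l (lam n)) = lev l (lam (n + 1)) := fun n => by
    have := (hj.iff2 (R := fun O W => ∀ y, y ∈ V_ l →
      (y ∈ O → y ∈ W ∧ IsLevel (V_ l) y) ∧ (y ∈ W ∧ IsLevel (V_ l) y → y ∈ O)) hdef0
      (hON n) (hVN n)).1 fun y _ => ⟨mem_sep.1, mem_sep.2⟩
    rw [hjV] at this
    ext y
    exact ⟨fun hy => mem_sep.2 ((this y (hj.maps _ (hON n) hy)).1 hy),
      fun hy => (this y (hON _ hy)).2 (mem_sep.1 hy)⟩
  have hpair : ∀ x ∈ V_ (lam 0), ∀ y ∈ V_ (lam 0), pair x y ∈ V_ (lam 0) :=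
    fun x hx y hy => pair_mem_V (hF.lim 0) hx hy
  have hdef : DL (V_ l) 3 false fun v => ∀ a, a ∈ v 0 → ∃ g, g ⊆ V_ l ∧ InjRel g a (v 1) :=
    DL.ball hN (T0.var 0) (DL.upF (n := 2) (DL.ex (n := 1)
      (D0.injRel hN (T0.var 0) (T0.var 1) (T0.var 3)).dl))
  have hQ : ∀ n, ∀ a, a ∈ V_ (lam n) → ∃ g, g ⊆ V_ l ∧ InjRel g a (lev l (lam n)) := by
    intro n
    induction n with
    | succ n ih =>
      rw [← hjV, ← hjO]
      exact (hj.iff2 (R := fun W O => ∀ a, a ∈ W → ∃ g, g ⊆ V_ l ∧ InjRel g a O) hdef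
        (hVN n) (hON n)).1 ih
    | zero =>
      intro a ha
      have ha' : a ⊆ V_ (lam 0) := isTransitive_vonNeumann _ a ha
      have key : ∀ b c : ZFSet.{u}, b ⊆ V_ (lam 0) → c ⊆ V_ (lam 0) →
          #{x : ZFSet.{u} | x ∈ b} ≤ #{x : ZFSet.{u} | x ∈ c} →
            ∃ g, g ⊆ V_ (lam 0) ∧ InjRel g b c := by
        classical
        intro b c hb hc ⟨e⟩
        refine exists_injRel hpair hb hc (e := fun x => if h : x ∈ b then (e ⟨x, h⟩).1 else ∅)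
          (fun x hx => ?_) fun x hx y hy h => ?_
        · simp only [dif_pos hx]
          exact (e ⟨x, hx⟩).2
        · simp only [dif_pos hx, dif_pos hy] at h
          exact congrArg Subtype.val (e.injective (Subtype.ext h))
      rcases le_total #{x : ZFSet.{u} | x ∈ a} #{x : ZFSet.{u} | x ∈ lev l (lam 0)} with h | h
      · obtain ⟨g, h1, h2⟩ := key _ _ ha' sep_subset h
        exact ⟨g, h1.trans (hVN 0), h2⟩
      exfalso
      obtain ⟨g, h1, h2⟩ := key _ _ sep_subset ha' h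
      have hg := h1.trans (hVN 0)
      have haN := ha'.trans (hVN 0)
      have h3 := (hj.iff3 (b := true) (R := InjRel)
        (D0.injRel hN (T0.var 0) (T0.var 1) (T0.var 2)).dl hg (hON 0) haN).1 h2
      rw [hjO, hfix a ha] at h3
      have h4 : V_ (lam 0) ∈ lev l (lam (0 + 1)) :=
        (mem_lev (hlt _).le).2 ⟨_, hmono (Nat.lt_succ_self 0), rfl⟩
      obtain ⟨y, hy, h5⟩ := h3.1 _ h4
      have hdef2 : DL (V_ l) 3 true fun v => ∃ x, x ∈ v 0 ∧ pair x (v 1) ∈ v 2 :=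
        (D0.bex hN (T0.var 0) (D0.pairMem hN (T0.var 3) (T0.var 0) (T0.var 2))).dl
      obtain ⟨x, hx, h6⟩ := (hj.iff3 (R := fun O y g => ∃ x, x ∈ O ∧ pair x y ∈ g) hdef2
        (hON 0) (hN y (haN hy)) hg).2 ⟨_, by rw [hjO]; exact h4, by rwa [hfix y (ha' hy)]⟩
      have hx' : x ∈ V_ (lam 0) := sep_subset hx
      have h7 := (hj.pair_mem_iff hN (hN x (hVN 0 hx')) (hN y (haN hy)) hg).2 h6
      rw [hfix x hx', hfix y (ha' hy)] at h7
      have h8 : x ∈ lev l (lam (0 + 1)) := by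
        rw [← hjO, ← hfix x hx', hj.mem_iff hN (hN x (hVN 0 hx')) (hON 0)]
        exact hx
      rw [h3.2 x h8 _ h4 y hy h7 h5] at hx'
      exact mem_irrefl _ hx'
  obtain ⟨g, -, hg⟩ := hQ (n + 1) _ (vonNeumann_mem_of_lt (hmono (Nat.lt_succ_self n)))
  obtain ⟨e, h1, h2⟩ := hg.exists_fun
  have h3 : ∀ x : {x : ZFSet.{u} | x ∈ V_ (lam n)}, ∃ b : Set.Iio l, e x = V_ b.1 := fun x => by
    obtain ⟨b, hb, h⟩ := (mem_lev (hlt _).le).1 (h1 x x.2)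
    exact ⟨⟨b, hb.trans (hlt _)⟩, h⟩
  choose f hf using h3
  exact mk_le_of_injective (f := f) fun x y h =>
    Subtype.ext (h2 x x.2 y y.2 (by rw [hf, hf, h]))

theorem IsSigmaElem.exists_fr (hI : IsSigmaElem 3 l j) : ∃ lam : ℕ → Ordinal.{u}, Fr l lam ∧
    (∀ n, j (V_ (lam n)) = V_ (lam (n + 1))) ∧ (∀ x ∈ V_ (lam 0), j x = x) ∧
      ∀ n, #{x : ZFSet.{u} | x ∈ V_ (lam n)} ≤ #(Set.Iio l) := by
  obtain ⟨lam, h1, h2, h3, h4, h5, h6⟩ := hI.exists_crit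
  have hF : Fr l lam := ⟨h1, h2, fun a ha => kunen3 hI.toEl h1 h3 h4 h5 ha, h6, h5⟩
  exact ⟨lam, hF, h3, h4, mk_V_le3 hI.toEl hF h3 h4⟩

end Pool.Agent.I1PSP.S3
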