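import Pool.Agent.Lib.MP_9c5ecf_lc.S3.Ops

/-!
Codes of maps: a bounded condition on a set of pairs `G` under which `ap N G` preserves the basic
operations.
-/

namespace Pool.Agent.I1PSP.S3

open ZFSet Order

universe u

/-- The relation between three sets that the codes have to preserve. -/
def Tri (N a b c a' b' c' : ZFSet.{u}) : Prop :=
  (a ∈ b ↔ a' ∈ b') ∧ (c = a ∩ b → c' = a' ∩ b') ∧ (c = a \ b → c' = a' \ b') ∧
    (c = ZFSet.prod a b → c' = ZFSet.prod a' b') ∧ (c = proj N a → c' = proj N a') ∧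
      (c = sec N a b → c' = sec N a' b')

/-- `G` is the graph of a cofinal map of `N` into itself that preserves the basic operations on
members of `N` and fixes `I` and its members. -/
def RB (N I G : ZFSet.{u}) : Prop :=
  (∀ a, a ∈ N → ∃ a', a' ∈ N ∧ pair a a' ∈ G) ∧
  (∀ a, a ∈ N → ∀ a', a' ∈ N → ∀ a'', a'' ∈ N → pair a a' ∈ G → pair a a'' ∈ G → a' = a'') ∧
  (∀ a, a ∈ N → ∀ b, b ∈ N → ∀ c, c ∈ N → ∀ a', a' ∈ N → ∀ b', b' ∈ N → ∀ c', c' ∈ N →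
    pair a a' ∈ G → pair b b' ∈ G → pair c c' ∈ G → Tri N a b c a' b' c') ∧
  (∀ x, x ∈ N → ∃ a, a ∈ N ∧ ∃ a', a' ∈ N ∧ pair a a' ∈ G ∧ x ⊆ a') ∧
  pair I I ∈ G ∧ ∀ a, a ∈ I → pair a a ∈ G

variable {l : Ordinal.{u}} {lam : ℕ → Ordinal.{u}} {N G : ZFSet.{u}}
  {t s : (ℕ → ZFSet.{u}) → ZFSet.{u}} {j : ZFSet.{u} → ZFSet.{u}}

theorem D0.rb (hN : N.IsTransitive) (hpair : ∀ a ∈ N, ∀ b ∈ N, pair a b ∈ N) (ht : T0 N t)
    (hs : T0 N s) : D0 N fun v => RB N (t v) (s v) := by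
  have h : D0 N fun v => RB N (v 0) (v 1) := by
    unfold RB Tri
    repeat' with_reducible first
      | exact T0.var _ | exact T0.univ | apply D0.ball hN | apply D0.bex hN | apply D0.and
      | apply D0.imp | apply D0.iff | apply D0.pairMem hN | apply D0.eq hN | apply D0.subset hN
      | apply D0.mem hN | apply T0.sec hN | apply T0.inter | apply T0.diff
      | apply T0.prod hN hpair | apply T0.proj hN
  exact D0.comp2 hN h ht hs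

theorem mem_ap_h3 {A x : ZFSet.{u}} :
    x ∈ ap N G A ↔ x ∈ N ∧ ∃ a, a ∈ N ∧ ∃ w, w ∈ N ∧ pair (A ∩ a) w ∈ G ∧ x ∈ w := mem_sep

theorem RB.mono_h3 {I a b a' b' : ZFSet.{u}} (h : RB N I G) (ha : a ∈ N) (hb : b ∈ N)
    (ha' : a' ∈ N) (hb' : b' ∈ N) (pa : pair a a' ∈ G) (pb : pair b b' ∈ G) (hs : a ⊆ b) :
    a' ⊆ b' := by
  have e : a = a ∩ b := by
    ext y
    exact ⟨fun hy => mem_inter.2 ⟨hy, hs hy⟩, fun hy => (mem_inter.1 hy).1⟩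
  have k := (h.2.2.1 a ha b hb a ha a' ha' b' hb' a' ha' pa pb pa).2.1 e
  intro y hy
  rw [k] at hy
  exact (mem_inter.1 hy).2

/-- On members of `N` the map `ap N G` is the function with graph `G`. -/
theorem RB.ap_eq (hF : Fr l lam) (h : RB (V_ l) II G) {a a' : ZFSet.{u}} (ha : a ∈ V_ l)
    (ha' : a' ∈ V_ l) (hp : pair a a' ∈ G) : ap (V_ l) G a = a' := by
  have hN := isTransitive_vonNeumann l
  ext x
  rw [mem_ap_h3]
  constructor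
  · rintro ⟨-, e, -, w, hw, hp', hx⟩
    have hs : a ∩ e ⊆ a := fun y hy => (mem_inter.1 hy).1
    exact h.mono_h3 (hF.sub_mem a ha _ hs) ha hw ha' hp' hp hs hx
  · intro hx
    have e : a ∩ a = a := by ext y; simp [mem_inter]
    exact ⟨hN.subset_of_mem ha' hx, a, ha, a', ha', by rw [e]; exact hp, hx⟩

/-- The local description: if `x ∈ ap N G a` with `a ∈ N` then
`x ∈ ap N G A ↔ x ∈ ap N G (A ∩ a)`, and `A ∩ a ∈ N`. -/
theorem RB.mem_ap_iff (hF : Fr l lam) (h : RB (V_ l) II G) {a A x : ZFSet.{u}} (ha : a ∈ V_ l)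
    (hx : x ∈ ap (V_ l) G a) : x ∈ ap (V_ l) G A ↔ x ∈ ap (V_ l) G (A ∩ a) := by
  obtain ⟨a', ha', pa⟩ := h.1 a ha
  rw [h.ap_eq hF ha ha' pa] at hx
  rw [mem_ap_h3, mem_ap_h3]
  constructor
  · rintro ⟨hxN, e, he, w, hw, hp, hxw⟩
    have m1 : A ∩ e ∈ V_ l := hF.sub_mem e he _ fun y hy => (mem_inter.1 hy).2
    have m2 : A ∩ e ∩ a ∈ V_ l := hF.sub_mem a ha _ fun y hy => (mem_inter.1 hy).2
    obtain ⟨c', hc', pc⟩ := h.1 _ m2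
    have k := (h.2.2.1 _ m1 a ha _ m2 w hw a' ha' c' hc' hp pa pc).2.1 rfl
    have e1 : A ∩ a ∩ e = A ∩ e ∩ a := by
      ext y; simp only [mem_inter]; tauto
    exact ⟨hxN, e, he, c', hc', by rw [e1]; exact pc, by rw [k]; exact mem_inter.2 ⟨hxw, hx⟩⟩
  · rintro ⟨hxN, e, he, w, hw, hp, hxw⟩
    have e1 : A ∩ (a ∩ e) = A ∩ a ∩ e := by
      ext y; simp only [mem_inter]; tauto
    exact ⟨hxN, a ∩ e, hF.sub_mem e he _ fun y hy => (mem_inter.1 hy).2, w, hw,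
      by rw [e1]; exact hp, hxw⟩

/-- Every member of `N` is a subset of the image of some level. -/
theorem RB.cof (hF : Fr l lam) (h : RB (V_ l) II G) {x : ZFSet.{u}} (hx : x ∈ V_ l) :
    ∃ n, ∀ m, n ≤ m → x ⊆ ap (V_ l) G (V_ (lam m)) ∧ x ∈ ap (V_ l) G (V_ (lam m)) := by
  obtain ⟨a, ha, a', ha', pa, hs⟩ := h.2.2.2.1 _ (hF.union_mem hx (hF.pow_mem hx))
  obtain ⟨n, hn⟩ := hF.W_cof_sub ha
  refine ⟨n, fun m hm => ?_⟩
  obtain ⟨w, hw, pw⟩ := h.1 _ (hF.W_mem m)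
  have k := h.mono_h3 ha (hF.W_mem m) ha' hw pa pw fun y hy => hF.W_mono hm (hn hy)
  rw [h.ap_eq hF (hF.W_mem m) hw pw]
  exact ⟨fun y hy => k (hs (mem_union.2 (Or.inl hy))),
    k (hs (mem_union.2 (Or.inr (mem_powerset.2 fun y hy => hy))))⟩

theorem RB.gr_h99 (hF : Fr l lam) (h : RB (V_ l) II G) {a : ZFSet.{u}} (ha : a ∈ V_ l) :
    ap (V_ l) G a ∈ V_ l ∧ pair a (ap (V_ l) G a) ∈ G := by
  obtain ⟨a', h1, h2⟩ := h.1 a ha
  rw [h.ap_eq hF ha h1 h2]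
  exact ⟨h1, h2⟩

theorem RB.tri_h99 (hF : Fr l lam) (h : RB (V_ l) II G) {a b c : ZFSet.{u}} (ha : a ∈ V_ l)
    (hb : b ∈ V_ l) (hc : c ∈ V_ l) :
    Tri (V_ l) a b c (ap (V_ l) G a) (ap (V_ l) G b) (ap (V_ l) G c) :=
  h.2.2.1 a ha b hb c hc _ (h.gr_h99 hF ha).1 _ (h.gr_h99 hF hb).1 _ (h.gr_h99 hF hc).1
    (h.gr_h99 hF ha).2 (h.gr_h99 hF hb).2 (h.gr_h99 hF hc).2

theorem RB.loc_h99 (hF : Fr l lam) (h : RB (V_ l) II G) {A x : ZFSet.{u}}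
    (hx : x ∈ ap (V_ l) G A) : ∃ a, a ∈ V_ l ∧ a ⊆ A ∧ x ∈ ap (V_ l) G a := by
  obtain ⟨-, a, ha, w, hw, h1, h2⟩ := mem_sep.1 hx
  have h3 : A ∩ a ∈ V_ l := hF.sub_mem a ha _ fun y hy => (mem_inter.1 hy).2
  refine ⟨A ∩ a, h3, fun y hy => (mem_inter.1 hy).1, ?_⟩
  rw [h.ap_eq hF h3 hw h1]
  exact h2

theorem RB.mono_h99 (hF : Fr l lam) (h : RB (V_ l) II G) {A B : ZFSet.{u}} (hAB : A ⊆ B) :
    ap (V_ l) G A ⊆ ap (V_ l) G B := by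
  intro x hx
  obtain ⟨a, ha, h1, h2⟩ := h.loc_h99 hF hx
  have e : B ∩ a = a := ZFSet.ext fun y =>
    ⟨fun hy => (mem_inter.1 hy).2, fun hy => mem_inter.2 ⟨hAB (h1 hy), hy⟩⟩
  rw [h.mem_ap_iff hF ha h2, e]
  exact h2

theorem snd_mem_h99 {o : Ordinal.{u}} {x y : ZFSet.{u}} (hp : pair x y ∈ V_ o) : y ∈ V_ o :=
  isTransitive_vonNeumann o _
    (isTransitive_vonNeumann o _ hp (show ({x, y} : ZFSet.{u}) ∈ pair x y by simp [pair]))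
    (by simp)

theorem Fr.proj_mem_h99 (hF : Fr l lam) {c : ZFSet.{u}} (hc : c ∈ V_ l) :
    proj (V_ l) c ∈ V_ l := by
  obtain ⟨m, hm⟩ := hF.W_cof_sub hc
  refine hF.sub_W_mem (n := m) fun y hy => ?_
  obtain ⟨-, x, -, hx⟩ := mem_proj.1 hy
  exact snd_mem_h99 (hm hx)

theorem Fr.sec_mem_h99 (hF : Fr l lam) {c : ZFSet.{u}} (hc : c ∈ V_ l) (a : ZFSet.{u}) :
    sec (V_ l) c a ∈ V_ l := by
  obtain ⟨m, hm⟩ := hF.W_cof_sub hc
  exact hF.sub_W_mem (n := m) fun y hy => snd_mem_h99 (hm (mem_sec.1 hy).2)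

theorem RB.ap_sec (hF : Fr l lam) (h : RB (V_ l) II G) {A a : ZFSet.{u}} (hA : A ⊆ V_ l)
    (ha : a ∈ V_ l) :
    ap (V_ l) G (sec (V_ l) A a) = sec (V_ l) (ap (V_ l) G A) (ap (V_ l) G a) := by
  refine ZFSet.ext fun x => ⟨fun hx => ?_, fun hx => ?_⟩
  · obtain ⟨b, hb, h1, h2⟩ := h.loc_h99 hF hx
    obtain ⟨m, hm⟩ := hF.W_cof ha
    have hc : A ∩ ZFSet.prod (V_ (lam m)) b ∈ V_ l :=
      hF.sub_mem _ (hF.prod_mem (hF.W_mem m) hb) _ fun y hy => (mem_inter.1 hy).2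
    have e : b = sec (V_ l) (A ∩ ZFSet.prod (V_ (lam m)) b) a := ZFSet.ext fun y =>
      ⟨fun hy => mem_sec.2 ⟨(mem_sec.1 (h1 hy)).1,
        mem_inter.2 ⟨(mem_sec.1 (h1 hy)).2, pair_mem_prod.2 ⟨hm, hy⟩⟩⟩,
      fun hy => (pair_mem_prod.1 (mem_inter.1 (mem_sec.1 hy).2).2).2⟩
    rw [(h.tri_h99 hF hc ha hb).2.2.2.2.2 e] at h2
    exact mem_sec.2 ⟨(mem_sec.1 h2).1,
      h.mono_h99 hF (fun y hy => (mem_inter.1 hy).1) (mem_sec.1 h2).2⟩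
  · obtain ⟨hxN, hx⟩ := mem_sec.1 hx
    obtain ⟨c, hc, h1, h2⟩ := h.loc_h99 hF hx
    refine h.mono_h99 hF (A := sec (V_ l) c a)
      (fun y hy => mem_sec.2 ⟨(mem_sec.1 hy).1, h1 (mem_sec.1 hy).2⟩) ?_
    rw [(h.tri_h99 hF hc ha (hF.sec_mem_h99 hc a)).2.2.2.2.2 rfl]
    exact mem_sec.2 ⟨hxN, h2⟩

/-- For `⊆` let `x` be in the image of `proj A ∩ W n`. The set
`S = {pair (ix m) y : y ∈ proj (A ∩ W m) ∩ W n}` is a member of `N`, a subset of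
`prod II (W n)`, and `proj S = proj A ∩ W n`; so `pair (ix m) x` is in the image of `S` for some
`m`, and the section of `S` at `ix m` is contained in `proj (A ∩ W m)`. -/
theorem RB.ap_proj (hF : Fr l lam) (h : RB (V_ l) II G) {A : ZFSet.{u}} (hA : A ⊆ V_ l) :
    ap (V_ l) G (proj (V_ l) A) = proj (V_ l) (ap (V_ l) G A) := by
  refine ZFSet.ext fun x => ⟨fun hx => ?_, fun hx => ?_⟩
  · obtain ⟨b, hb, h1, h2⟩ := h.loc_h99 hF hx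
    have hP : ZFSet.prod II b ∈ V_ l := hF.prod_mem hF.II_mem hb
    obtain ⟨S, hS⟩ : ∃ S : ZFSet.{u}, S = ZFSet.sep (fun p => ∃ m y, p = pair (ix m) y ∧
        y ∈ proj (V_ l) (A ∩ V_ (lam m))) (ZFSet.prod II b) := ⟨_, rfl⟩
    have hS1 : S ⊆ ZFSet.prod II b := hS ▸ sep_subset
    have hSN : S ∈ V_ l := hF.sub_mem _ hP _ hS1
    have e : b = proj (V_ l) S := by
      refine ZFSet.ext fun y => ⟨fun hy => ?_, fun hy => ?_⟩
      · obtain ⟨hyN, z, hz, hzy⟩ := mem_proj.1 (h1 hy)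
        obtain ⟨m, hm⟩ := hF.W_cof (hA hzy)
        refine mem_proj.2 ⟨hyN, ix m, hF.ix_mem_N m, ?_⟩
        rw [hS]
        exact mem_sep.2 ⟨pair_mem_prod.2 ⟨mem_II.2 ⟨m, rfl⟩, hy⟩, m, y, rfl,
          mem_proj.2 ⟨hyN, z, hz, mem_inter.2 ⟨hzy, hm⟩⟩⟩
      · obtain ⟨-, z, -, hz⟩ := mem_proj.1 hy
        exact (pair_mem_prod.1 (hS1 hz)).2
    rw [(h.tri_h99 hF hSN hSN hb).2.2.2.2.1 e] at h2
    obtain ⟨hxN, z, -, hz⟩ := mem_proj.1 h2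
    have h3 := h.mono_h99 hF hS1 hz
    rw [(h.tri_h99 hF hF.II_mem hb hP).2.2.2.1 rfl,
      h.ap_eq hF hF.II_mem hF.II_mem h.2.2.2.2.1] at h3
    obtain ⟨m, rfl⟩ := mem_II.1 (pair_mem_prod.1 h3).1
    have e1 : ap (V_ l) G (ix m) = ix m :=
      h.ap_eq hF (hF.ix_mem_N m) (hF.ix_mem_N m) (h.2.2.2.2.2 _ (mem_II.2 ⟨m, rfl⟩))
    have h4 : x ∈ ap (V_ l) G (sec (V_ l) S (ix m)) := by
      rw [(h.tri_h99 hF hSN (hF.ix_mem_N m) (hF.sec_mem_h99 hSN _)).2.2.2.2.2 rfl, e1]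
      exact mem_sec.2 ⟨hxN, hz⟩
    have hc : A ∩ V_ (lam m) ∈ V_ l := hF.sub_W_mem (n := m) fun y hy => (mem_inter.1 hy).2
    have h5 := h.mono_h99 hF (B := proj (V_ l) (A ∩ V_ (lam m))) (fun y hy => by
      have h6 := (mem_sec.1 hy).2
      rw [hS] at h6
      obtain ⟨-, m', y', e2, h7⟩ := mem_sep.1 h6
      obtain ⟨e3, rfl⟩ := pair_inj.1 e2
      rw [ix_injective e3]
      exact h7) h4
    rw [(h.tri_h99 hF hc hc (hF.proj_mem_h99 hc)).2.2.2.2.1 rfl] at h5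
    obtain ⟨-, w, hw, h6⟩ := mem_proj.1 h5
    exact mem_proj.2 ⟨hxN, w, hw, h.mono_h99 hF (fun y hy => (mem_inter.1 hy).1) h6⟩
  · obtain ⟨hxN, z, hz, hx⟩ := mem_proj.1 hx
    obtain ⟨c, hc, h1, h2⟩ := h.loc_h99 hF hx
    refine h.mono_h99 hF (A := proj (V_ l) c) (fun y hy => ?_) ?_
    · obtain ⟨hyN, w, hw, h3⟩ := mem_proj.1 hy
      exact mem_proj.2 ⟨hyN, w, hw, h1 h3⟩
    · rw [(h.tri_h99 hF hc hc (hF.proj_mem_h99 hc)).2.2.2.2.1 rfl]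
      exact mem_proj.2 ⟨hxN, z, hz, h2⟩

theorem RB.tri_c20 (hF : Fr l lam) (h : RB (V_ l) II G) {a b c : ZFSet.{u}} (ha : a ∈ V_ l)
    (hb : b ∈ V_ l) (hc : c ∈ V_ l) :
    Tri (V_ l) a b c (ap (V_ l) G a) (ap (V_ l) G b) (ap (V_ l) G c) := by
  obtain ⟨a', h1, h2⟩ := h.1 a ha
  obtain ⟨b', h3, h4⟩ := h.1 b hb
  obtain ⟨c', h5, h6⟩ := h.1 c hc
  rw [h.ap_eq hF ha h1 h2, h.ap_eq hF hb h3 h4, h.ap_eq hF hc h5 h6]
  exact h.2.2.1 a ha b hb c hc a' h1 b' h3 c' h5 h2 h4 h6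

theorem inter_mem_c20 (hF : Fr l lam) (A : ZFSet.{u}) {a : ZFSet.{u}} (ha : a ∈ V_ l) :
    A ∩ a ∈ V_ l :=
  hF.sub_mem a ha _ fun _ hx => (mem_inter.1 hx).2

theorem RB.cut_c20 (hF : Fr l lam) (h : RB (V_ l) II G) (A : ZFSet.{u}) {a x : ZFSet.{u}}
    (ha : a ∈ V_ l) : x ∈ ap (V_ l) G (A ∩ a) ↔ x ∈ ap (V_ l) G A ∧ x ∈ ap (V_ l) G a := by
  have h1 := inter_mem_c20 hF A ha
  have h2 : x ∈ ap (V_ l) G (A ∩ a) → x ∈ ap (V_ l) G a := fun hx => by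
    have e : A ∩ a = (A ∩ a) ∩ a := by
      ext y
      simp only [mem_inter, and_assoc, and_self]
    rw [(h.tri_c20 hF h1 ha h1).2.1 e] at hx
    exact (mem_inter.1 hx).2
  exact ⟨fun hx => ⟨(h.mem_ap_iff hF ha (h2 hx)).2 hx, h2 hx⟩,
    fun hx => (h.mem_ap_iff hF ha hx.2).1 hx.1⟩

theorem RB.mono_c20 (hF : Fr l lam) (h : RB (V_ l) II G) {A a : ZFSet.{u}} (ha : a ∈ V_ l)
    (hs : a ⊆ A) : ap (V_ l) G a ⊆ ap (V_ l) G A := by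
  intro x hx
  have e : a = A ∩ a := by
    ext y
    rw [mem_inter]
    exact ⟨fun hy => ⟨hs hy, hy⟩, fun hy => hy.2⟩
  rw [e] at hx
  exact ((h.cut_c20 hF A ha).1 hx).1

theorem RB.lev_c20 (hF : Fr l lam) (h : RB (V_ l) II G) {x : ZFSet.{u}} (hx : x ∈ V_ l) :
    ∃ m, x ∈ ap (V_ l) G (V_ (lam m)) := by
  obtain ⟨n, hn⟩ := h.cof hF hx
  exact ⟨n, (hn n le_rfl).2⟩

theorem RB.mem_c20 (hF : Fr l lam) (h : RB (V_ l) II G) {A B : ZFSet.{u}} (hB : B ⊆ V_ l)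
    (hAB : A ∈ B) : ap (V_ l) G A ∈ ap (V_ l) G B := by
  obtain ⟨m, hm⟩ := hF.W_cof (hB hAB)
  have h1 := inter_mem_c20 hF B (hF.W_mem m)
  exact ((h.cut_c20 hF B (hF.W_mem m)).1
    ((h.tri_c20 hF (hB hAB) h1 h1).1.1 (mem_inter.2 ⟨hAB, hm⟩))).1

theorem RB.ap_prod (hF : Fr l lam) (h : RB (V_ l) II G) {A B : ZFSet.{u}} (hA : A ⊆ V_ l)
    (hB : B ⊆ V_ l) :
    ap (V_ l) G (ZFSet.prod A B) = ZFSet.prod (ap (V_ l) G A) (ap (V_ l) G B) := by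
  have key : ∀ m, ap (V_ l) G (ZFSet.prod (A ∩ V_ (lam m)) (B ∩ V_ (lam m))) =
      ZFSet.prod (ap (V_ l) G (A ∩ V_ (lam m))) (ap (V_ l) G (B ∩ V_ (lam m))) := fun m =>
    (h.tri_c20 hF (inter_mem_c20 hF A (hF.W_mem m)) (inter_mem_c20 hF B (hF.W_mem m))
      (hF.prod_mem (inter_mem_c20 hF A (hF.W_mem m))
        (inter_mem_c20 hF B (hF.W_mem m)))).2.2.2.1 rfl
  ext x
  constructor
  · intro hx
    obtain ⟨m, hm⟩ := h.lev_c20 hF (ap_subset hx)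
    have hT := isTransitive_vonNeumann (lam m)
    have h1 : ZFSet.prod A B ∩ V_ (lam m) ⊆ ZFSet.prod (A ∩ V_ (lam m)) (B ∩ V_ (lam m)) := by
      intro p hp
      obtain ⟨h2, h3⟩ := mem_inter.1 hp
      obtain ⟨a, ha, b, hb, rfl⟩ := mem_prod.1 h2
      have h4 : ({a, b} : ZFSet.{u}) ∈ V_ (lam m) := hT _ h3 (by simp [pair])
      exact pair_mem_prod.2 ⟨mem_inter.2 ⟨ha, hT _ h4 (by simp)⟩,
        mem_inter.2 ⟨hb, hT _ h4 (by simp)⟩⟩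
    have h2 := h.mono_c20 hF (inter_mem_c20 hF _ (hF.W_mem m)) h1
      ((h.cut_c20 hF _ (hF.W_mem m)).2 ⟨hx, hm⟩)
    rw [key] at h2
    obtain ⟨y, hy, z, hz, rfl⟩ := mem_prod.1 h2
    exact pair_mem_prod.2 ⟨((h.cut_c20 hF _ (hF.W_mem m)).1 hy).1,
      ((h.cut_c20 hF _ (hF.W_mem m)).1 hz).1⟩
  · intro hx
    obtain ⟨y, hy, z, hz, rfl⟩ := mem_prod.1 hx
    obtain ⟨n, hn⟩ := h.cof hF (ap_subset hy)
    obtain ⟨n', hn'⟩ := h.cof hF (ap_subset hz)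
    have h1 := pair_mem_prod.2 ⟨(h.cut_c20 hF A (hF.W_mem (max n n'))).2
      ⟨hy, (hn _ (le_max_left _ _)).2⟩,
      (h.cut_c20 hF B (hF.W_mem (max n n'))).2 ⟨hz, (hn' _ (le_max_right _ _)).2⟩⟩
    rw [← key] at h1
    refine h.mono_c20 hF (hF.prod_mem (inter_mem_c20 hF A (hF.W_mem _))
      (inter_mem_c20 hF B (hF.W_mem _))) (fun p hp => ?_) h1
    obtain ⟨a, ha, b, hb, rfl⟩ := mem_prod.1 hp
    exact pair_mem_prod.2 ⟨(mem_inter.1 ha).1, (mem_inter.1 hb).1⟩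

/-- If `ap N G A` is a member of `N` it is a subset of the image of a level `W m`, so
`A ⊆ W m`. -/
theorem RB.ap_mem_iff (hF : Fr l lam) (h : RB (V_ l) II G) {A B : ZFSet.{u}} (hA : A ⊆ V_ l)
    (hB : B ⊆ V_ l) : ap (V_ l) G A ∈ ap (V_ l) G B ↔ A ∈ B := by
  refine ⟨fun H => ?_, h.mem_c20 hF hB⟩
  obtain ⟨n, hn⟩ := h.cof hF (ap_subset H)
  obtain ⟨h1, h2⟩ := hn n le_rfl
  have hW := hF.W_mem n
  have h3 : A ⊆ V_ (lam n) := fun a ha =>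
    (h.tri_c20 hF (hA ha) hW hW).1.2 (h1 (h.mem_c20 hF hA ha))
  have h4 := inter_mem_c20 hF B hW
  exact (mem_inter.1 ((h.tri_c20 hF (hF.sub_W_mem h3) h4 h4).1.2
    ((h.cut_c20 hF B hW).2 ⟨H, h2⟩))).1

theorem RB.ops (hF : Fr l lam) (h : RB (V_ l) II G) : Ops (V_ l) (ap (V_ l) G) := by
  refine ⟨fun _ _ => ap_subset, ?_, fun A hA B hB => h.ap_mem_iff hF hA hB, fun A hA B hB => ?_,
    fun A hA B hB => ?_, fun A hA B hB => h.ap_prod hF hA hB, fun A hA => h.ap_proj hF hA⟩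
  · ext x
    refine ⟨fun hx => ap_subset hx, fun hx => ?_⟩
    obtain ⟨m, hm⟩ := h.lev_c20 hF hx
    exact h.mono_c20 hF (hF.W_mem m) (hF.W_sub m) hm
  · have key : ∀ x m, x ∈ ap (V_ l) G (V_ (lam m)) →
        (x ∈ ap (V_ l) G (A ∩ B) ↔ x ∈ ap (V_ l) G A ∩ ap (V_ l) G B) := fun x m hm => by
      have e : A ∩ B ∩ V_ (lam m) = A ∩ (B ∩ V_ (lam m)) := by
        ext y
        simp only [mem_inter, and_assoc]
      rw [h.mem_ap_iff hF (hF.W_mem m) hm, e, h.cut_c20 hF A (inter_mem_c20 hF B (hF.W_mem m)),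
        h.cut_c20 hF B (hF.W_mem m), mem_inter]
      exact ⟨fun H => ⟨H.1, H.2.1⟩, fun H => ⟨H.1, H.2, hm⟩⟩
    ext x
    constructor
    · intro hx
      obtain ⟨m, hm⟩ := h.lev_c20 hF (ap_subset hx)
      exact (key x m hm).1 hx
    · intro hx
      obtain ⟨m, hm⟩ := h.lev_c20 hF (ap_subset (mem_inter.1 hx).1)
      exact (key x m hm).2 hx
  · have key : ∀ x m, x ∈ ap (V_ l) G (V_ (lam m)) →
        (x ∈ ap (V_ l) G (A \ B) ↔ x ∈ ap (V_ l) G A \ ap (V_ l) G B) := fun x m hm => by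
      have e : (A \ B) ∩ V_ (lam m) = (A ∩ V_ (lam m)) \ (B ∩ V_ (lam m)) := by
        ext y
        simp only [mem_inter, mem_sdiff]
        tauto
      have h1 := inter_mem_c20 hF (A \ B) (hF.W_mem m)
      rw [h.mem_ap_iff hF (hF.W_mem m) hm, (h.tri_c20 hF (inter_mem_c20 hF A (hF.W_mem m))
        (inter_mem_c20 hF B (hF.W_mem m)) h1).2.2.1 e, mem_sdiff, mem_sdiff,
        h.cut_c20 hF A (hF.W_mem m), h.cut_c20 hF B (hF.W_mem m)]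
      tauto
    ext x
    constructor
    · intro hx
      obtain ⟨m, hm⟩ := h.lev_c20 hF (ap_subset hx)
      exact (key x m hm).1 hx
    · intro hx
      obtain ⟨m, hm⟩ := h.lev_c20 hF (ap_subset (mem_sdiff.1 hx).1)
      exact (key x m hm).2 hx

theorem RB.ap_ix (hF : Fr l lam) (h : RB (V_ l) II G) (n : ℕ) : ap (V_ l) G (ix n) = ix n :=
  h.ap_eq hF (hF.ix_mem_N n) (hF.ix_mem_N n) (h.2.2.2.2.2 _ (mem_II.2 ⟨n, rfl⟩))

/-- The graph of the embedding is a code (compare `ap_graph`). -/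
theorem rb_graph (hF : Fr l lam) (hj : El 0 (V_ l) j)
    (hjV : ∀ n, j (V_ (lam n)) = V_ (lam (n + 1))) (hfix : ∀ x ∈ V_ (lam 0), j x = x) :
    RB (V_ l) II (graph (V_ l) j) ∧ ∀ A, A ⊆ V_ l → ap (V_ l) (graph (V_ l) j) A = j A := by
  have hN := isTransitive_vonNeumann l
  have g : ∀ a a' : ZFSet.{u}, pair a a' ∈ graph (V_ l) j ↔ a ∈ V_ l ∧ a' = j a := by
    intro a a'
    simp only [graph, mem_sep]
    constructor
    · rintro ⟨-, b, hb, e⟩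
      obtain ⟨rfl, rfl⟩ := pair_inj.1 e
      exact ⟨hb, rfl⟩
    · rintro ⟨ha, rfl⟩
      exact ⟨hF.pair_mem _ ha _ (hj.mem_univ hN ha), a, ha, rfl⟩
  have cof : ∀ x, x ∈ V_ l → ∃ n, x ⊆ j (V_ (lam n)) ∧ x ∈ j (V_ (lam n)) := by
    intro x hx
    obtain ⟨n, hn⟩ := hF.W_cof hx
    have h1 := hF.W_mono (Nat.le_succ n) hn
    refine ⟨n, ?_, ?_⟩ <;> rw [hjV]
    · exact (isTransitive_vonNeumann _).subset_of_mem h1
    · exact h1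
  have hR : RB (V_ l) II (graph (V_ l) j) := by
    refine ⟨fun a ha => ⟨j a, hj.mem_univ hN ha, (g _ _).2 ⟨ha, rfl⟩⟩,
      fun a _ a' _ a'' _ h1 h2 => ((g _ _).1 h1).2.trans ((g _ _).1 h2).2.symm,
      fun a ha b hb c _ a' _ b' _ c' _ h1 h2 h3 => ?_, fun x hx => ?_,
      (g _ _).2 ⟨hF.II_mem, (hfix _ (hF.II_mem_W 0)).symm⟩, fun a ha => ?_⟩
    · rw [((g _ _).1 h1).2, ((g _ _).1 h2).2, ((g _ _).1 h3).2]
      have sa := hN.subset_of_mem ha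
      have sb := hN.subset_of_mem hb
      have hv : Val (V_ l) (cons a fun _ => b) := Val.cons sa fun _ => sb
      refine ⟨(hj.mem_iff hN sa sb).symm, ?_, ?_, ?_, ?_, ?_⟩ <;> rintro rfl
      · exact hj.inter hN sa sb
      · exact hj.term hN (T0.diff (T0.var 0) (T0.var 1)) hv
      · exact hj.term hN (T0.prod hN hF.pair_mem (T0.var 0) (T0.var 1)) hv
      · exact hj.term hN (T0.proj hN (T0.var 0)) hv
      · exact hj.sec hN sa sb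
    · obtain ⟨n, h1, -⟩ := cof x hx
      exact ⟨_, hF.W_mem n, _, hj.mem_univ hN (hF.W_mem n), (g _ _).2 ⟨hF.W_mem n, rfl⟩, h1⟩
    · obtain ⟨n, rfl⟩ := mem_II.1 ha
      exact (g _ _).2 ⟨hF.ix_mem_N n, (hfix _ (hF.ix_mem_W 0 n)).symm⟩
  refine ⟨hR, fun A hA => ?_⟩
  ext x
  rw [mem_ap_h3]
  constructor
  · rintro ⟨-, a, ha, w, -, hp, hx⟩
    rw [((g _ _).1 hp).2, hj.inter hN hA (hN.subset_of_mem ha)] at hx
    exact (mem_inter.1 hx).1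
  · intro hx
    have hxN := hj.maps A hA hx
    obtain ⟨n, -, h1⟩ := cof x hxN
    have m1 : A ∩ V_ (lam n) ∈ V_ l := hF.sub_W_mem fun y hy => (mem_inter.1 hy).2
    refine ⟨hxN, _, hF.W_mem n, _, hj.mem_univ hN m1, (g _ _).2 ⟨m1, rfl⟩, ?_⟩
    rw [hj.inter hN hA (hF.W_sub n)]
    exact mem_inter.2 ⟨hx, h1⟩

end Pool.Agent.I1PSP.S3
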