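import Pool.Agent.Lib.MP_9c5ecf_lc.S3.Wit

/-!
Every small family of nodes of given ranks has a coded witness.
-/

namespace Pool.Agent.I1PSP.S3

open ZFSet Order

universe u

variable {l : Ordinal.{u}} {lam : ℕ → Ordinal.{u}} {T Y r b w : ZFSet.{u}}

/-- Choose for every `a ∈ w` a member of `N` whose rank is `ρ a`. -/
theorem exists_cfun (hF : Fr l lam) (hw : w ⊆ V_ l) {ρ : ZFSet.{u} → Ordinal.{u + 1}}
    (h : ∀ a ∈ w, ∃ c, c ∈ V_ l ∧ rk (V_ l) r c = ρ a) :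
    ∃ g, g ⊆ V_ l ∧ CFun (V_ l) w g ∧ ∀ a ∈ w, lab (V_ l) r g a = ρ a := by
  choose! f hf1 hf2 using h
  have key : ∀ a ∈ w, ∀ c, pair a c ∈ ZFSet.sep (fun p => ∃ a ∈ w, p = pair a (f a)) (V_ l) ↔
      c = f a := by
    intro a ha c
    rw [mem_sep]
    constructor
    · rintro ⟨_, a', _, he⟩
      obtain ⟨rfl, rfl⟩ := pair_inj.1 he
      rfl
    · rintro rfl
      exact ⟨hF.pair_mem _ (hw ha) _ (hf1 a ha), a, ha, rfl⟩
  have hc : CFun (V_ l) w (ZFSet.sep (fun p => ∃ a ∈ w, p = pair a (f a)) (V_ l)) :=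
    fun a ha => ⟨f a, hf1 a ha, (key a ha _).2 rfl, fun c' _ hc' => (key a ha _).1 hc'⟩
  exact ⟨_, sep_subset, hc, fun a ha =>
    (hc.lab_eq ha (hf1 a ha) ((key a ha _).2 rfl)).trans (hf2 a ha)⟩

theorem Valid.exists_cval (hF : Fr l lam) (hr : SW (V_ l) r) (hb : b ∈ V_ l) {σ : Nd.{u}}
    (h : Valid (V_ l) T (rk (V_ l) r b) σ) : ∃ g, g ⊆ V_ l ∧ CVal (V_ l) T r b σ.w σ.s g ∧
      ∀ a ∈ σ.w, lab (V_ l) r g a = σ.ρ a := by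
  obtain ⟨g, hg, hc, hl⟩ := exists_cfun (r := r) (ρ := σ.ρ) hF
    (isTransitive_vonNeumann l _ h.mem) fun a ha => exists_rk_eq hr.wf (h.lt a ha)
  have key : ∀ a ∈ σ.w, ∀ c ∈ V_ l, pair a c ∈ g → rk (V_ l) r c = σ.ρ a :=
    fun a ha c hc' hp => (hc.lab_eq ha hc' hp).symm.trans (hl a ha)
  refine ⟨g, hg, ⟨h.mem, h.sub, h.tree, hc, fun a ha c hc' hp => ?_,
    fun a ha a' ha' c hc1 c' hc2 hp hp' p _ he hs => ?_⟩, hl⟩
  · rw [hr.pair_mem_iff hc' hb, key a ha c hc' hp]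
    exact h.lt a ha
  · rw [hr.pair_mem_iff hc1 hc2, key a ha c hc1 hp, key a' ha' c' hc2 hp']
    exact h.edge a ha a' ha' (he ▸ hs)

/-- The nodes of the witness: index, stage, node. -/
inductive InW (N r J : ZFSet.{u}) (X : ZFSet.{u} → ZFSet.{u}) (σ : ZFSet.{u} → Nd.{u})
    (F : Nd.{u} → ZFSet.{u} → ZFSet.{u} → ZFSet.{u} → Nd.{u}) :
    ZFSet.{u} → ZFSet.{u} → Nd.{u} → Prop
  | root (j : ZFSet.{u}) : j ∈ J → InW N r J X σ F (pair ∅ j) (X j) (σ j)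
  | child (i x : ZFSet.{u}) (τ : Nd.{u}) (x' a y : ZFSet.{u}) : InW N r J X σ F i x τ → x' ∈ N →
      pair x' x ∈ r → a ∈ N → y ∈ a → InW N r J X σ F (pair (pair i x') (pair a y)) x' (F τ x' a y)

section inw

variable {N J : ZFSet.{u}} {X : ZFSet.{u} → ZFSet.{u}} {σ : ZFSet.{u} → Nd.{u}}
  {F : Nd.{u} → ZFSet.{u} → ZFSet.{u} → ZFSet.{u} → Nd.{u}} {i x : ZFSet.{u}} {τ : Nd.{u}}

theorem pair_ne_empty_inw (a c : ZFSet.{u}) : pair a c ≠ ∅ := fun h => by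
  have h1 : ({a} : ZFSet.{u}) ∈ pair a c := by simp [pair]
  rw [h] at h1
  exact notMem_empty _ h1

theorem InW.inv (h : InW N r J X σ F i x τ) : (∃ j, i = pair ∅ j ∧ x = X j ∧ τ = σ j) ∨
    ∃ i0 x0 τ0 a y, InW N r J X σ F i0 x0 τ0 ∧ i = pair (pair i0 x) (pair a y) ∧
      τ = F τ0 x a y := by
  cases h with
  | root j _ => exact Or.inl ⟨j, rfl, rfl, rfl⟩
  | child i0 x0 τ0 x' a y h0 _ _ _ _ => exact Or.inr ⟨i0, x0, τ0, a, y, h0, rfl, rfl⟩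

theorem InW.uniq (h : InW N r J X σ F i x τ) :
    ∀ x₂ τ₂, InW N r J X σ F i x₂ τ₂ → x₂ = x ∧ τ₂ = τ := by
  induction h with
  | root j _ =>
    intro x₂ τ₂ h2
    rcases h2.inv with ⟨j', h3, h4, h5⟩ | ⟨i0, x0, τ0, a, y, _, h3, _⟩
    · rw [h4, h5, (pair_inj.1 h3).2]
      exact ⟨rfl, rfl⟩
    · exact absurd (pair_inj.1 h3).1.symm (pair_ne_empty_inw _ _)
  | child i1 x1 τ1 x' a y _ _ _ _ _ ih =>
    intro x₂ τ₂ h2
    rcases h2.inv with ⟨j', h3, _, _⟩ | ⟨i0, x0, τ0, a0, y0, h0, h3, h4⟩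
    · exact absurd (pair_inj.1 h3).1 (pair_ne_empty_inw _ _)
    · obtain ⟨h5, h6⟩ := pair_inj.1 h3
      obtain ⟨h7, h8⟩ := pair_inj.1 h5
      obtain ⟨h9, h10⟩ := pair_inj.1 h6
      subst h7 h8 h9 h10
      rw [h4, (ih x0 τ0 h0).2]
      exact ⟨rfl, rfl⟩

end inw

/-- Choose for every node `σ`, rank `ζ` and `a` a level and a family as in `alive_iff`. Define an
inductive relation `In i x σ` (index, stage, node): the roots `In (pair ∅ j) (X j) (σ j)`, and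
from `In i x σ`, `x' ∈ N`, `pair x' x ∈ r`, `a ∈ N`, `y ∈ a` the child
`In (pair (pair i x') (pair a y)) x' (chosen family at y)`. Show `i, x ∈ N`, the node is alive at
`rk x`, and `x`, `σ` are determined by `i`. Put `Hw, Hs, Hg` together with `exists_code` or `sep`,
`Hg` from `Valid.exists_cval`; the set `h` of the pairs `(y, child)` with `y ∈ a` is a subset of
some level, hence a member of `N`. -/
theorem exists_wit (hF : Fr l lam) (hr : SW (V_ l) r) (hb : b ∈ V_ l) {J : ZFSet.{u}}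
    (hJ : J ⊆ V_ l) (X : ZFSet.{u} → ZFSet.{u}) (σ : ZFSet.{u} → Nd.{u})
    (h : ∀ j ∈ J, X j ∈ V_ l ∧
      Alive (V_ l) T Y (rk (V_ l) r b) (rk (V_ l) r (X j)) (σ j)) :
    ∃ Hw Hs Hg Al, Hw ⊆ V_ l ∧ Hs ⊆ V_ l ∧ Hg ⊆ V_ l ∧ Al ⊆ V_ l ∧
      Wit (V_ l) ⟨T, Y, r, b, Hw, Hs, Hg, Al⟩ ∧ ∀ j ∈ J, pair (X j) (pair ∅ j) ∈ Al ∧
        Same (σ j) (Cd.node (V_ l) ⟨T, Y, r, b, Hw, Hs, Hg, Al⟩ (pair ∅ j)) := by
  have hN := isTransitive_vonNeumann l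
  have hpair := hF.pair_mem
  have hch : ∀ (τ : Nd.{u}) (x' a : ZFSet.{u}), ∃ (w' : ZFSet.{u}) (f : ZFSet.{u} → Nd.{u}),
      (∃ w, w ∈ V_ l ∧ a ⊆ w ∧ Fam (V_ l) T Y (rk (V_ l) r b) (rk (V_ l) r x') τ a w) →
      w' ∈ V_ l ∧ a ⊆ w' ∧ (∀ y ∈ a, (f y).w = w' ∧ Ext τ (f y) ∧
        Alive (V_ l) T Y (rk (V_ l) r b) (rk (V_ l) r x') (f y)) ∧
        ∀ y ∈ a, ∀ y' ∈ a, (f y).s ∩ Y = (f y').s ∩ Y → y = y' := by
    intro τ x' a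
    by_cases H : ∃ w, w ∈ V_ l ∧ a ⊆ w ∧ Fam (V_ l) T Y (rk (V_ l) r b) (rk (V_ l) r x') τ a w
    · obtain ⟨w, h1, h2, f, h3, h4⟩ := H
      exact ⟨w, f, fun _ => ⟨h1, h2, h3, h4⟩⟩
    · exact ⟨∅, fun _ => τ, fun H' => absurd H' H⟩
  choose fw F hFs using hch
  have hsp : ∀ (τ : Nd.{u}) (x x' a : ZFSet.{u}), x ∈ V_ l →
      Alive (V_ l) T Y (rk (V_ l) r b) (rk (V_ l) r x) τ → x' ∈ V_ l → pair x' x ∈ r → a ∈ V_ l →
      ∃ w, w ∈ V_ l ∧ a ⊆ w ∧ Fam (V_ l) T Y (rk (V_ l) r b) (rk (V_ l) r x') τ a w :=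
    fun τ x x' a hx hA hx' hp ha => (alive_iff.1 hA).2 _ ((hr.pair_mem_iff hx' hx).1 hp) a ha
  have hmem : ∀ i x τ, InW (V_ l) r J X σ F i x τ → i ∈ V_ l ∧ x ∈ V_ l ∧
      Alive (V_ l) T Y (rk (V_ l) r b) (rk (V_ l) r x) τ := by
    intro i x τ H
    induction H with
    | root j hj =>
      exact ⟨hpair _ (hF.sub_mem _ hb _ (empty_subset _)) _ (hJ hj), (h j hj).1, (h j hj).2⟩
    | child i x τ x' a y _ hx' hp ha hy ih =>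
      exact ⟨hpair _ (hpair _ ih.1 _ hx') _ (hpair _ ha _ (hN _ ha hy)), hx',
        ((hFs τ x' a (hsp τ x x' a ih.2.1 ih.2.2 hx' hp ha)).2.2.1 y hy).2.2⟩
  let ι := {p : ZFSet.{u} × ZFSet.{u} × Nd.{u} // InW (V_ l) r J X σ F p.1 p.2.1 p.2.2}
  have hinj : Function.Injective fun p : ι => p.1.1 := by
    rintro ⟨⟨i, x, τ⟩, hp⟩ ⟨⟨i', x', τ'⟩, hq⟩ hpq
    have h1 : i = i' := hpq
    subst h1
    obtain ⟨h2, h3⟩ := InW.uniq hp x' τ' hq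
    have h2' : x' = x := h2
    have h3' : τ' = τ := h3
    subst h2' h3'
    rfl
  have hιN : ∀ p : ι, p.1.1 ∈ V_ l := fun p => (hmem _ _ _ p.2).1
  have hval : ∀ p : ι, Valid (V_ l) T (rk (V_ l) r b) p.1.2.2 := fun p => (hmem _ _ _ p.2).2.2.valid
  choose g hg1 hg2 hg3 using fun p : ι => (hval p).exists_cval hF hr hb
  obtain ⟨Hw, hw1, hw2⟩ := exists_code hpair hinj hιN (fun p => p.1.2.2.w)
    fun p => hN _ (hval p).mem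
  obtain ⟨Hs, hs1, hs2⟩ := exists_code hpair hinj hιN (fun p => p.1.2.2.s)
    fun p => fun _ hz => hN _ (hval p).mem ((hval p).sub hz)
  obtain ⟨Hg, hG1, hG2⟩ := exists_code hpair hinj hιN g hg1
  have hW : ∀ i x τ, InW (V_ l) r J X σ F i x τ → sec (V_ l) Hw i = τ.w :=
    fun i x τ H => hw2 ⟨(i, x, τ), H⟩
  have hS : ∀ i x τ, InW (V_ l) r J X σ F i x τ → sec (V_ l) Hs i = τ.s :=
    fun i x τ H => hs2 ⟨(i, x, τ), H⟩
  have hC : ∀ i x τ, InW (V_ l) r J X σ F i x τ →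
      CVal (V_ l) T r b (sec (V_ l) Hw i) (sec (V_ l) Hs i) (sec (V_ l) Hg i) := by
    intro i x τ H
    have h1 : sec (V_ l) Hg i = g ⟨(i, x, τ), H⟩ := hG2 ⟨(i, x, τ), H⟩
    rw [hW i x τ H, hS i x τ H, h1]
    exact hg2 ⟨(i, x, τ), H⟩
  have hSame : ∀ i x τ, InW (V_ l) r J X σ F i x τ →
      Same τ (nd (V_ l) r (sec (V_ l) Hw i) (sec (V_ l) Hs i) (sec (V_ l) Hg i)) := by
    intro i x τ H
    have h1 : sec (V_ l) Hg i = g ⟨(i, x, τ), H⟩ := hG2 ⟨(i, x, τ), H⟩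
    refine ⟨hW i x τ H, hS i x τ H, fun a ha => ?_⟩
    change lab (V_ l) r (sec (V_ l) Hg i) a = τ.ρ a
    rw [h1]
    exact hg3 ⟨(i, x, τ), H⟩ a ha
  let Al := ZFSet.sep (fun p => ∃ i x τ, InW (V_ l) r J X σ F i x τ ∧ p = pair x i) (V_ l)
  have hA1 : ∀ i x τ, InW (V_ l) r J X σ F i x τ → pair x i ∈ Al := fun i x τ H =>
    mem_sep.2 ⟨hpair _ (hmem i x τ H).2.1 _ (hmem i x τ H).1, i, x, τ, H, rfl⟩
  have hA2 : ∀ i x, pair x i ∈ Al → ∃ τ, InW (V_ l) r J X σ F i x τ := by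
    intro i x H
    obtain ⟨_, i', x', τ, H1, H2⟩ := mem_sep.1 H
    obtain ⟨h1, h2⟩ := pair_inj.1 H2
    subst h1 h2
    exact ⟨τ, H1⟩
  refine ⟨Hw, Hs, Hg, Al, hw1, hs1, hG1, sep_subset, ?_,
    fun j hj => ⟨hA1 _ _ _ (.root j hj), hSame _ _ _ (.root j hj)⟩⟩
  intro x hx i hi hp
  obtain ⟨τ, H⟩ := hA2 i x hp
  refine ⟨hC i x τ H, fun x' hx' hxx a ha => ?_⟩
  obtain ⟨f1, f2, f3, f4⟩ := hFs τ x' a (hsp τ x x' a hx (hmem i x τ H).2.2 hx' hxx ha)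
  have hch : ∀ y ∈ a, InW (V_ l) r J X σ F (pair (pair i x') (pair a y)) x' (F τ x' a y) :=
    fun y hy => .child i x τ x' a y H hx' hxx ha hy
  obtain ⟨n1, hn1⟩ := hF.W_cof (hpair _ hi _ hx')
  obtain ⟨n2, hn2⟩ := hF.W_cof ha
  have hn3 := hF.W_mono (le_max_left n1 n2) hn1
  have hn4 := hF.W_mono (le_max_right n1 n2) hn2
  have hpW := hF.pair_mem_W (max n1 n2)
  let hh := ZFSet.sep (fun p => ∃ y, y ∈ a ∧ p = pair y (pair (pair i x') (pair a y)))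
    (V_ (lam (max n1 n2)))
  have hh1 : ∀ y ∈ a, pair y (pair (pair i x') (pair a y)) ∈ hh := fun y hy => by
    have hyW := isTransitive_vonNeumann _ _ hn4 hy
    exact mem_sep.2 ⟨hpW _ hyW _ (hpW _ hn3 _ (hpW _ hn4 _ hyW)), y, hy, rfl⟩
  have hh2 : ∀ y i', pair y i' ∈ hh → i' = pair (pair i x') (pair a y) := by
    intro y i' H'
    obtain ⟨_, y', _, H2⟩ := mem_sep.1 H'
    obtain ⟨h1, h2⟩ := pair_inj.1 H2
    rw [h2, h1]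
  refine ⟨fw τ x' a, f1, f2, hh, hF.sub_W_mem sep_subset,
    fun y hy => ⟨_, (hmem _ _ _ (hch y hy)).1, hh1 y hy⟩, fun y hy i' _ hi' => ?_,
    fun y hy y' hy' i1 _ i2 _ hi1 hi2 he => ?_⟩
  · rw [hh2 y i' hi']
    refine ⟨hA1 _ _ _ (hch y hy), (hW _ _ _ (hch y hy)).trans (f3 y hy).1, ?_⟩
    exact (cext_iff hr (hC i x τ H).2.2.2.1 (hC _ _ _ (hch y hy)).2.2.2.1).2
      ((hSame _ _ _ (hch y hy)).ext_right ((hSame i x τ H).ext_left (f3 y hy).2.1))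
  · rw [hh2 y i1 hi1, hh2 y' i2 hi2] at he
    have he' : sec (V_ l) Hs (pair (pair i x') (pair a y)) ∩ Y =
        sec (V_ l) Hs (pair (pair i x') (pair a y')) ∩ Y := he
    rw [hS _ _ _ (hch y hy), hS _ _ _ (hch y' hy')] at he'
    exact f4 y hy y' hy' he'

end Pool.Agent.I1PSP.S3
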