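import Pool.Agent.Lib.MP_9c5ecf_lc.S3.El

/-!
The critical sequence of a Sigma-3-elementary embedding (port of the part Crit of `Main`).
-/

namespace Pool.Agent.I1PSP.S3

open ZFSet Order

universe u

variable {l : Ordinal.{u}} {j : ZFSet.{u} → ZFSet.{u}} {N : ZFSet.{u}}
  {t s : (ℕ → ZFSet.{u}) → ZFSet.{u}}

/-- `j (V_ l) = V_ l` comes from the Pi-1 formula saying that every set is a subset of `v 0`
(use its negation, written by hand as an `Fml`). -/
theorem IsSigmaElem.toEl (h : IsSigmaElem 3 l j) : El 3 (V_ l) j := by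
  have hN := isTransitive_vonNeumann l
  have hm : ∀ x, x ⊆ V_ l → j x ⊆ V_ l :=
    fun x hx => mem_V_succ.1 (h.maps x (mem_V_succ.2 hx))
  have he : ∀ φ, Lv 3 true φ → ∀ v, Val (V_ l) v →
      (Sat (PP (V_ l)) φ v ↔ Sat (PP (V_ l)) φ fun i => j (v i)) := fun φ hφ v hv => by
    rw [← setOf_mem_V_succ]
    exact h.elem φ hφ v fun i => mem_V_succ.2 (hv i)
  refine ⟨hm, subset_antisymm (hm _ (subset_refl _)) fun y hy => ?_,
    fun φ hφ v hv => (he φ hφ v hv).1, fun φ hφ v hv => (he φ hφ v hv).2⟩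
  by_contra hc
  obtain ⟨x, hx, z, -, hz, hn⟩ := (he (.ex (.ex (.and (.mem 0 (0 + 1)) (.neg (.mem 0 2)))))
    (.ex (Lv.of_delta0 (.bex 0 (.neg (.mem 0 2))) 3 true)) (fun _ => V_ l)
    fun _ => subset_refl _).2 ⟨V_ l, mem_PP.2 (subset_refl _), y, mem_PP.2 (hN y hy), hy, hc⟩
  exact hn (hx hz)

theorem DL.isPow (hN : N.IsTransitive) (ht : T0 N t) (hs : T0 N s) :
    DL N 1 false fun v => IsPow N (t v) (s v) := by
  refine DL.comp2 hN (R := IsPow N) ?_ ht hs
  unfold IsPow
  apply DL.all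
  apply D0.dl
  repeat' with_reducible first
    | exact T0.var _ | apply D0.iff | apply D0.subset hN | apply D0.mem hN

theorem DL.isLevel (hN : N.IsTransitive) (ht : T0 N t) :
    DL N 2 true fun v => IsLevel N (t v) := by
  refine DL.comp1 hN (R := IsLevel N) ?_ ht
  unfold IsLevel
  apply DL.ex
  apply DL.upT
  apply DL.and
  · apply DL.ball hN
    · exact T0.var _
    apply DL.all
    apply D0.dl
    repeat' with_reducible first
      | exact T0.var _ | apply D0.bex hN | apply D0.and | apply D0.iff | apply D0.subset hN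
      | apply D0.mem hN
  · apply DL.all
    apply D0.dl
    repeat' with_reducible first
      | exact T0.var _ | apply D0.bex hN | apply D0.and | apply D0.iff | apply D0.subset hN
      | apply D0.mem hN

theorem El.map_V (hj : El 3 (V_ l) j) {a : Ordinal.{u}} (h : a ≤ l) :
    j (V_ a) = V_ (rank (j (V_ a))) := by
  have hN := isTransitive_vonNeumann l
  have h1 := vonNeumann_subset_of_le h
  exact IsLevel.eq hN (hj.maps _ h1)
    ((hj.iff1 (R := IsLevel (V_ l)) ((DL.isLevel hN (T0.var 0)).mono (by norm_num)) h1).1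
      (isLevel_V h))

theorem El.fix_V89 (hj : El 3 (V_ l) j) {k : Ordinal.{u}} (hk : k ≤ l + 1)
    (h : ∀ a < k, j (V_ a) = V_ a) (x : ZFSet.{u}) : x ∈ V_ k → j x = x := by
  have hN := isTransitive_vonNeumann l
  induction hr : rank x using Ordinal.induction generalizing x with
  | _ r ih =>
    subst hr
    intro hx
    rw [mem_vonNeumann] at hx
    have h1 : rank x ≤ l := Order.lt_add_one_iff.1 (hx.trans_le hk)
    have h2 : x ⊆ V_ l := subset_vonNeumann.2 h1
    have h3 : j x ⊆ V_ (rank x) := by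
      rw [← h _ hx, hj.subset_iff hN h2 (vonNeumann_subset_of_le h1)]
      exact subset_vonNeumann_self x
    have h4 : ∀ y, rank y < rank x → (y ∈ j x ↔ y ∈ x) := by
      intro y hy
      conv_lhs => rw [← ih _ hy y rfl (mem_vonNeumann.2 (hy.trans hx))]
      exact hj.mem_iff hN (subset_vonNeumann.2 (hy.le.trans h1)) h2
    ext y
    exact ⟨fun hy => (h4 y (mem_vonNeumann.1 (h3 hy))).1 hy,
      fun hy => (h4 y (rank_lt_of_mem hy)).2 hy⟩

theorem lim_iff89 (d : Ordinal.{u}) :
    (∀ a, a ∈ V_ d → ∃ c, c ∈ V_ d ∧ a ∈ c) ↔ ∀ a < d, succ a < d := by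
  refine ⟨fun h a ha => ?_, fun h a ha => ⟨{a}, ?_, mem_singleton.2 rfl⟩⟩
  · obtain ⟨c, h1, h2⟩ := h _ (vonNeumann_mem_of_lt ha)
    have h3 := rank_lt_of_mem h2
    rw [rank_vonNeumann] at h3
    exact (succ_le_of_lt h3).trans_lt (mem_vonNeumann.1 h1)
  · rw [mem_vonNeumann, rank_singleton]
    exact h _ (mem_vonNeumann.1 ha)

/-- Port of `IsI1.exists_crit`; that every `lam n` is a limit follows from the case `n = 0` by
the bounded statement: for all `a ∈ W` there is `c ∈ W` with `a ∈ c` (use it with ranks). -/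
theorem IsSigmaElem.exists_crit (hI : IsSigmaElem 3 l j) : ∃ lam : ℕ → Ordinal.{u},
    StrictMono lam ∧ (∀ n, lam n < l) ∧ (∀ n, j (V_ (lam n)) = V_ (lam (n + 1))) ∧
    (∀ x ∈ V_ (lam 0), j x = x) ∧ Ordinal.omega0 < lam 0 ∧ ∀ n, ∀ a < lam n, succ a < lam n := by
  have hj := hI.toEl
  have hN := isTransitive_vonNeumann l
  let σ : Ordinal.{u} → Ordinal.{u} := fun a => rank (j (V_ a))
  have hσ : ∀ a ≤ l, j (V_ a) = V_ (σ a) := fun a ha => hj.map_V ha
  have hlt : ∀ a b, a < b → b ≤ l → σ a < σ b := by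
    intro a b hab hb
    rw [← vonNeumann_mem_vonNeumann_iff, ← hσ a (hab.le.trans hb), ← hσ b hb,
      hj.mem_iff hN (vonNeumann_subset_of_le (hab.le.trans hb)) (vonNeumann_subset_of_le hb)]
    exact vonNeumann_mem_of_lt hab
  have hle : ∀ a, a ≤ l → a ≤ σ a := by
    intro a
    induction a using Ordinal.induction with
    | _ a ih =>
      intro ha
      by_contra hc
      rw [not_le] at hc
      exact absurd (hlt _ _ hc ha) (not_lt.2 (ih _ hc (hc.le.trans ha)))
  have hl : σ l = l := by simp only [σ]; rw [hj.univ, rank_vonNeumann]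
  have hex : ∃ a, a ≤ l ∧ σ a ≠ a := by
    by_contra hc
    push Not at hc
    obtain ⟨x, hx, hx'⟩ := hI.nontrivial
    refine hx' (hj.fix_V89 le_rfl (fun a ha => ?_) x hx)
    have ha' := Order.lt_add_one_iff.1 ha
    rw [hσ a ha', hc a ha']
  obtain ⟨k, ⟨hk, hk'⟩, hmin⟩ := wellFounded_lt.has_min {a | a ≤ l ∧ σ a ≠ a} hex
  have hkl : k < l := lt_of_le_of_ne hk (by rintro rfl; exact hk' hl)
  have hfixV : ∀ a < k, j (V_ a) = V_ a := by
    intro a ha
    have h1 : a ≤ l := ha.le.trans hk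
    rw [hσ a h1]
    congr 1
    by_contra hc
    exact hmin a ⟨h1, hc⟩ ha
  have hfix := hj.fix_V89 (hk.trans le_self_add) hfixV
  have hkσ : k < σ k := lt_of_le_of_ne (hle k hk) (Ne.symm hk')
  let lam : ℕ → Ordinal.{u} := fun n => σ^[n] k
  have hs : ∀ n, lam (n + 1) = σ (lam n) := fun n => Function.iterate_succ_apply' _ _ _
  have h1 : ∀ n, lam n < l := by
    intro n
    induction n with
    | zero => exact hkl
    | succ n ih => rw [hs, ← hl]; exact hlt _ _ ih le_rfl
  have h2 : ∀ n, lam n < lam (n + 1) := by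
    intro n
    induction n with
    | zero => exact hkσ
    | succ n ih => rw [hs (n + 1)]; nth_rewrite 1 [hs n]; exact hlt _ _ ih (h1 _).le
  have hVk : V_ k ⊆ V_ l := vonNeumann_subset_of_le hk
  have hlim : IsSuccLimit k := by
    rcases Ordinal.zero_or_succ_or_isSuccLimit k with h | ⟨a, h⟩ | h
    · exfalso
      apply hk'
      simp only [σ]
      rw [h, vonNeumann_zero, hj.map_empty hN, rank_empty]
    · exfalso
      apply hk'
      have ha : a < k := h ▸ lt_succ a
      have hVa : V_ a ⊆ V_ l := vonNeumann_subset_of_le (ha.le.trans hk)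
      have h3 : IsPow (V_ l) (V_ k) (V_ a) := fun w _ => by
        rw [← h, vonNeumann_succ, mem_powerset]
      rw [hj.iff2 (R := IsPow (V_ l)) ((DL.isPow hN (T0.var 0) (T0.var 1)).mono (by norm_num)) hVk hVa,
        hfixV a ha] at h3
      simp only [σ]
      rw [h3.eq hN (hj.maps _ hVk) hVa, ← vonNeumann_succ, rank_vonNeumann, h]
    · exact h
  have hL : ∀ n, ∀ a < lam n, succ a < lam n := by
    intro n
    induction n with
    | zero => exact fun a ha => hlim.succ_lt ha
    | succ n ih =>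
      have hd : D0 (V_ l) fun v => ∀ a, a ∈ v 0 → ∃ c, c ∈ v 0 ∧ a ∈ c :=
        D0.ball hN (T0.var _) (D0.bex hN (T0.var _) (D0.mem hN (T0.var _) (T0.var _)))
      have h3 := (hj.iff1 (b := true) (R := fun x => ∀ a, a ∈ x → ∃ c, c ∈ x ∧ a ∈ c) hd.dl
        (vonNeumann_subset_of_le (h1 n).le)).1 ((lim_iff89 _).2 ih)
      rw [hσ _ (h1 n).le, ← hs] at h3
      exact (lim_iff89 _).1 h3
  refine ⟨lam, strictMono_nat_of_lt_succ h2, h1, fun n => by rw [hs]; exact hσ _ (h1 n).le,
    hfix, lt_of_le_of_ne (Ordinal.omega0_le_of_isSuccLimit hlim) fun h => ?_, hL⟩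
  change Ordinal.omega0 = k at h
  have hdef : DL (V_ l) 3 false fun v => ∀ y, y ∈ v 0 → IsLevel (V_ l) y →
      y = ∅ ∨ ∃ c, c ∈ y ∧ IsPow (V_ l) y c :=
    DL.ball hN (T0.var _) (DL.impF ((DL.isLevel hN (T0.var _)).mono (by norm_num))
      (DL.or (D0.eq hN (T0.var _) T0.empty).dl
        (DL.bex hN (T0.var _) (DL.isPow hN (T0.var _) (T0.var _)).upT).upF))
  have h3 := (hj.iff1 (R := fun x => ∀ y, y ∈ x → IsLevel (V_ l) y →
      y = ∅ ∨ ∃ c, c ∈ y ∧ IsPow (V_ l) y c) hdef hVk).1 (by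
    intro y hy hy'
    have h4 := hy'.eq hN (hN y (hVk hy))
    rw [mem_vonNeumann, ← h, Ordinal.lt_omega0] at hy
    obtain ⟨n, hn⟩ := hy
    rw [hn] at h4
    cases n with
    | zero => left; rw [h4]; simp
    | succ n =>
      right
      refine ⟨V_ n, by rw [h4]; exact vonNeumann_mem_of_lt (by simp), fun w _ => ?_⟩
      rw [h4, Nat.cast_succ, vonNeumann_add_one, mem_powerset])
  rcases h3 (V_ k) (by rw [hσ k hk]; exact vonNeumann_mem_of_lt hkσ) (isLevel_V hk) with
    h4 | ⟨c, hc, h4⟩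
  · have := congrArg rank h4
    rw [rank_vonNeumann, rank_empty] at this
    exact hlim.ne_bot this
  · have := congrArg rank (h4.eq hN hVk (hN c (hVk hc)))
    rw [rank_vonNeumann, rank_powerset] at this
    exact hlim.succ_ne _ this.symm

end Pool.Agent.I1PSP.S3
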