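import Pool.Agent.Lib.MP_9c5ecf_lc.S3.Calc

/-!
Maps that are elementary up to a level, and the frame of levels below `l`.
-/

namespace Pool.Agent.I1PSP.S3

open ZFSet Order

universe u

/-- Sigma-n statements go up along `k`. -/
def Up (n : ℕ) (N : ZFSet.{u}) (k : ZFSet.{u} → ZFSet.{u}) : Prop :=
  ∀ φ, Lv n true φ → ∀ v, Val N v → Sat (PP N) φ v → Sat (PP N) φ fun i => k (v i)

/-- Sigma-n statements go down along `k`. -/
def Dn (n : ℕ) (N : ZFSet.{u}) (k : ZFSet.{u} → ZFSet.{u}) : Prop :=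
  ∀ φ, Lv n true φ → ∀ v, Val N v → Sat (PP N) φ (fun i => k (v i)) → Sat (PP N) φ v

/-- Sigma-n-elementary maps of the power set of `N` into itself that fix `N`. -/
structure El (n : ℕ) (N : ZFSet.{u}) (k : ZFSet.{u} → ZFSet.{u}) : Prop where
  maps : ∀ x, x ⊆ N → k x ⊆ N
  univ : k N = N
  up : Up n N k
  dn : Dn n N k

variable {N : ZFSet.{u}} {P : (ℕ → ZFSet.{u}) → Prop} {t : (ℕ → ZFSet.{u}) → ZFSet.{u}}
  {n : ℕ} {b : Bool} {k : ZFSet.{u} → ZFSet.{u}}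

theorem map_cons (k : ZFSet.{u} → ZFSet.{u}) (x : ZFSet.{u}) (v : ℕ → ZFSet.{u}) :
    (fun i => k (cons x v i)) = cons (k x) fun i => k (v i) := by
  funext i; cases i <;> rfl

theorem Up.mono {m : ℕ} (h : Up n N k) (hm : m ≤ n) : Up m N k :=
  fun φ hφ => h φ (hφ.mono hm)

theorem Dn.mono {m : ℕ} (h : Dn n N k) (hm : m ≤ n) : Dn m N k :=
  fun φ hφ => h φ (hφ.mono hm)

theorem El.mono {m : ℕ} (h : El n N k) (hm : m ≤ n) : El m N k :=
  ⟨h.maps, h.univ, h.up.mono hm, h.dn.mono hm⟩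

theorem El.zero (h : El n N k) : El 0 N k := h.mono (Nat.zero_le n)

theorem El.val (h : El n N k) {v : ℕ → ZFSet.{u}} (hv : Val N v) : Val N fun i => k (v i) :=
  fun i => h.maps _ (hv i)

/-- A Sigma-n relation goes up. -/
theorem Up.sigma {m : ℕ} (h : Up n N k) (h0 : El m N k) (hP : DL N n true P)
    {v : ℕ → ZFSet.{u}} (hv : Val N v) (H : P v) : P fun i => k (v i) := by
  obtain ⟨φ, h1, h2⟩ := hP
  have := h φ h1 _ (hv.cons (subset_refl N)) ((h2 v hv).1 H)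
  rw [map_cons, h0.univ] at this
  exact (h2 _ (h0.val hv)).2 this

/-- A Sigma-n relation goes down. -/
theorem Dn.sigma {m : ℕ} (h : Dn n N k) (h0 : El m N k) (hP : DL N n true P)
    {v : ℕ → ZFSet.{u}} (hv : Val N v) (H : P fun i => k (v i)) : P v := by
  obtain ⟨φ, h1, h2⟩ := hP
  refine (h2 v hv).2 (h φ h1 _ (hv.cons (subset_refl N)) ?_)
  rw [map_cons, h0.univ]
  exact (h2 _ (h0.val hv)).1 H

/-- A Pi-n relation goes up. -/
theorem Dn.pi {m : ℕ} (h : Dn n N k) (h0 : El m N k) (hP : DL N n false P)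
    {v : ℕ → ZFSet.{u}} (hv : Val N v) (H : P v) : P fun i => k (v i) := by
  by_contra hc
  exact h.sigma h0 hP.notT hv hc H

theorem El.iff (hk : El n N k) (h : DL N n b P) {v : ℕ → ZFSet.{u}} (hv : Val N v) :
    P v ↔ P fun i => k (v i) := by
  cases b with
  | true => exact ⟨hk.up.sigma hk h hv, hk.dn.sigma hk h hv⟩
  | false => exact not_iff_not.1 ⟨hk.up.sigma hk h.notT hv, hk.dn.sigma hk h.notT hv⟩

theorem El.iff0 (hk : El n N k) (h : D0 N P) {v : ℕ → ZFSet.{u}} (hv : Val N v) :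
    P v ↔ P fun i => k (v i) :=
  hk.iff (h.dl (b := true)) hv

theorem El.term (hk : El n N k) (hN : N.IsTransitive) (h : T0 N t) {v : ℕ → ZFSet.{u}}
    (hv : Val N v) : k (t v) = t fun i => k (v i) :=
  (hk.iff0 (D0.eq hN (T0.var 0) h.shift) (hv.cons (h.1 v hv))).1 rfl

theorem El.iff1 (hk : El n N k) {R : ZFSet.{u} → Prop} (h : DL N n b fun v => R (v 0))
    {a : ZFSet.{u}} (ha : a ⊆ N) : R a ↔ R (k a) :=
  hk.iff h (v := fun _ => a) fun _ => ha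

theorem El.iff2 (hk : El n N k) {R : ZFSet.{u} → ZFSet.{u} → Prop}
    (h : DL N n b fun v => R (v 0) (v 1)) {a c : ZFSet.{u}} (ha : a ⊆ N) (hc : c ⊆ N) :
    R a c ↔ R (k a) (k c) :=
  hk.iff h (v := cons a fun _ => c) (Val.cons ha fun _ => hc)

theorem El.iff3 (hk : El n N k) {R : ZFSet.{u} → ZFSet.{u} → ZFSet.{u} → Prop}
    (h : DL N n b fun v => R (v 0) (v 1) (v 2)) {a c d : ZFSet.{u}} (ha : a ⊆ N) (hc : c ⊆ N)
    (hd : d ⊆ N) : R a c d ↔ R (k a) (k c) (k d) :=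
  hk.iff h (v := cons a (cons c fun _ => d)) (Val.cons ha (Val.cons hc fun _ => hd))

theorem El.iff4 (hk : El n N k) {R : ZFSet.{u} → ZFSet.{u} → ZFSet.{u} → ZFSet.{u} → Prop}
    (h : DL N n b fun v => R (v 0) (v 1) (v 2) (v 3)) {a c d e : ZFSet.{u}} (ha : a ⊆ N)
    (hc : c ⊆ N) (hd : d ⊆ N) (he : e ⊆ N) : R a c d e ↔ R (k a) (k c) (k d) (k e) :=
  hk.iff h (v := cons a (cons c (cons d fun _ => e)))
    (Val.cons ha (Val.cons hc (Val.cons hd fun _ => he)))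

theorem El.mem_iff (hk : El n N k) (hN : N.IsTransitive) {a c : ZFSet.{u}} (ha : a ⊆ N)
    (hc : c ⊆ N) : k a ∈ k c ↔ a ∈ c :=
  (hk.iff2 (b := true) (R := fun a b => a ∈ b) (D0.mem hN (T0.var 0) (T0.var 1)).dl ha hc).symm

theorem El.inj (hk : El n N k) (hN : N.IsTransitive) {a c : ZFSet.{u}} (ha : a ⊆ N)
    (hc : c ⊆ N) (h : k a = k c) : a = c :=
  (hk.iff2 (b := true) (R := fun a b => a = b) (D0.eq hN (T0.var 0) (T0.var 1)).dl ha hc).2 h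

theorem El.map_empty (hk : El n N k) (hN : N.IsTransitive) : k ∅ = ∅ :=
  hk.term hN T0.empty (val_empty N)

theorem El.mem_univ_iff (hk : El n N k) (hN : N.IsTransitive) {a : ZFSet.{u}} (ha : a ⊆ N) :
    k a ∈ N ↔ a ∈ N := by
  have := hk.mem_iff hN ha (subset_refl N)
  rwa [hk.univ] at this

theorem El.mem_univ (hk : El n N k) (hN : N.IsTransitive) {a : ZFSet.{u}} (ha : a ∈ N) :
    k a ∈ N :=
  (hk.mem_univ_iff hN (hN a ha)).2 ha

theorem El.subset_iff (hk : El n N k) (hN : N.IsTransitive) {a c : ZFSet.{u}} (ha : a ⊆ N)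
    (hc : c ⊆ N) : k a ⊆ k c ↔ a ⊆ c :=
  (hk.iff2 (b := true) (R := fun a b => a ⊆ b) (D0.subset hN (T0.var 0) (T0.var 1)).dl
    ha hc).symm

theorem El.pair_mem_iff (hk : El n N k) (hN : N.IsTransitive) {a c d : ZFSet.{u}} (ha : a ⊆ N)
    (hc : c ⊆ N) (hd : d ⊆ N) : pair (k a) (k c) ∈ k d ↔ pair a c ∈ d :=
  (hk.iff3 (b := true) (R := fun a b c => pair a b ∈ c)
    (D0.pairMem hN (T0.var 2) (T0.var 0) (T0.var 1)).dl ha hc hd).symm

theorem El.map_pair (hk : El n N k) (hN : N.IsTransitive) {a c : ZFSet.{u}} (ha : a ⊆ N)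
    (hc : c ⊆ N) (hp : pair a c ⊆ N) : k (pair a c) = pair (k a) (k c) :=
  (hk.iff3 (b := true) (R := fun p a b => p = pair a b)
    (D0.eqPair hN (T0.var 0) (T0.var 1) (T0.var 2)).dl hp ha hc).1 rfl

theorem El.inter (hk : El n N k) (hN : N.IsTransitive) {a c : ZFSet.{u}} (ha : a ⊆ N)
    (hc : c ⊆ N) : k (a ∩ c) = k a ∩ k c :=
  hk.term hN (T0.inter (T0.var 0) (T0.var 1)) (v := cons a fun _ => c) (Val.cons ha fun _ => hc)

theorem El.sec (hk : El n N k) (hN : N.IsTransitive) {a c : ZFSet.{u}} (ha : a ⊆ N)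
    (hc : c ⊆ N) : k (sec N a c) = sec N (k a) (k c) :=
  hk.term hN (T0.sec hN (T0.var 0) (T0.var 1)) (v := cons a fun _ => c) (Val.cons ha fun _ => hc)

theorem El.ap (hk : El n N k) (hN : N.IsTransitive) {a c : ZFSet.{u}} (ha : a ⊆ N)
    (hc : c ⊆ N) : k (ap N a c) = ap N (k a) (k c) :=
  hk.term hN (T0.ap hN (T0.var 0) (T0.var 1)) (v := cons a fun _ => c) (Val.cons ha fun _ => hc)

/-- The set of the finite levels. -/
noncomputable def II : ZFSet.{u} := ZFSet.range ix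

theorem mem_II {a : ZFSet.{u}} : a ∈ II.{u} ↔ ∃ n, ix n = a := mem_range

/-- A cofinal sequence of limit ordinals below `l`. -/
structure Fr (l : Ordinal.{u}) (lam : ℕ → Ordinal.{u}) : Prop where
  mono : StrictMono lam
  lt : ∀ n, lam n < l
  cof : ∀ a < l, ∃ n, a < lam n
  lim : ∀ n, ∀ a < lam n, succ a < lam n
  om : Ordinal.omega0 < lam 0

namespace Fr

variable {l : Ordinal.{u}} {lam : ℕ → Ordinal.{u}}

theorem limN (h : Fr l lam) : ∀ a < l, succ a < l := fun a ha => by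
  obtain ⟨n, hn⟩ := h.cof a ha
  exact (h.lim n a hn).trans (h.lt n)

theorem W_mem (h : Fr l lam) (n : ℕ) : V_ (lam n) ∈ V_ l := vonNeumann_mem_of_lt (h.lt n)

theorem W_sub (h : Fr l lam) (n : ℕ) : V_ (lam n) ⊆ V_ l := vonNeumann_subset_of_le (h.lt n).le

theorem W_mono (h : Fr l lam) {n m : ℕ} (hnm : n ≤ m) : V_ (lam n) ⊆ V_ (lam m) :=
  vonNeumann_subset_of_le (h.mono.monotone hnm)

theorem W_mem_W (h : Fr l lam) {n m : ℕ} (hnm : n < m) : V_ (lam n) ∈ V_ (lam m) :=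
  vonNeumann_mem_of_lt (h.mono hnm)

theorem sub_mem_W (h : Fr l lam) {n m : ℕ} (hnm : n < m) {a : ZFSet.{u}} (ha : a ⊆ V_ (lam n)) :
    a ∈ V_ (lam m) :=
  mem_vonNeumann.2 ((subset_vonNeumann.1 ha).trans_lt (h.mono hnm))

theorem sub_W_mem (h : Fr l lam) {n : ℕ} {a : ZFSet.{u}} (ha : a ⊆ V_ (lam n)) : a ∈ V_ l :=
  mem_vonNeumann.2 ((subset_vonNeumann.1 ha).trans_lt (h.lt n))

theorem W_cof (h : Fr l lam) {x : ZFSet.{u}} (hx : x ∈ V_ l) : ∃ n, x ∈ V_ (lam n) := by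
  simpa only [mem_vonNeumann] using h.cof _ (mem_vonNeumann.1 hx)

theorem W_cof_sub (h : Fr l lam) {x : ZFSet.{u}} (hx : x ∈ V_ l) : ∃ n, x ⊆ V_ (lam n) := by
  obtain ⟨n, hn⟩ := h.W_cof hx
  exact ⟨n, isTransitive_vonNeumann _ x hn⟩

theorem pair_mem (h : Fr l lam) : ∀ a ∈ V_ l, ∀ b ∈ V_ l, pair a b ∈ V_ l :=
  fun _ ha _ hb => pair_mem_V h.limN ha hb

theorem pair_mem_W (h : Fr l lam) (n : ℕ) :
    ∀ a ∈ V_ (lam n), ∀ b ∈ V_ (lam n), pair a b ∈ V_ (lam n) :=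
  fun _ ha _ hb => pair_mem_V (h.lim n) ha hb

theorem sub_mem (_h : Fr l lam) : ∀ a ∈ V_ l, ∀ b, b ⊆ a → b ∈ V_ l :=
  fun _ ha _ hb => mem_vonNeumann.2 ((rank_mono hb).trans_lt (mem_vonNeumann.1 ha))

theorem pow_mem_W (h : Fr l lam) (n : ℕ) {a : ZFSet.{u}} (ha : a ∈ V_ (lam n)) :
    powerset a ∈ V_ (lam n) := by
  rw [mem_vonNeumann] at ha ⊢
  rw [rank_powerset]
  exact h.lim n _ ha

theorem pow_mem (h : Fr l lam) {a : ZFSet.{u}} (ha : a ∈ V_ l) : powerset a ∈ V_ l := by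
  obtain ⟨n, hn⟩ := h.W_cof ha
  exact h.W_sub n (h.pow_mem_W n hn)

theorem union_mem (h : Fr l lam) {a c : ZFSet.{u}} (ha : a ∈ V_ l) (hc : c ∈ V_ l) :
    a ∪ c ∈ V_ l := by
  obtain ⟨n, hn⟩ := h.W_cof_sub ha
  obtain ⟨m, hm⟩ := h.W_cof_sub hc
  exact h.sub_W_mem (n := max n m) fun x hx => (mem_union.1 hx).elim
    (fun H => h.W_mono (le_max_left _ _) (hn H)) fun H => h.W_mono (le_max_right _ _) (hm H)

theorem prod_mem (h : Fr l lam) {a c : ZFSet.{u}} (ha : a ∈ V_ l) (hc : c ∈ V_ l) :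
    ZFSet.prod a c ∈ V_ l := by
  obtain ⟨n, hn⟩ := h.W_cof_sub ha
  obtain ⟨m, hm⟩ := h.W_cof_sub hc
  refine h.sub_W_mem (n := max n m) fun x hx => ?_
  obtain ⟨y, hy, z, hz, rfl⟩ := mem_prod.1 hx
  exact h.pair_mem_W _ _ (h.W_mono (le_max_left _ _) (hn hy)) _
    (h.W_mono (le_max_right _ _) (hm hz))

theorem ix_mem_W (h : Fr l lam) (n i : ℕ) : ix i ∈ V_ (lam n) :=
  ix_mem (h.om.le.trans (h.mono.monotone (Nat.zero_le n))) i

theorem ix_mem_N (h : Fr l lam) (i : ℕ) : ix i ∈ V_ l := h.W_sub 0 (h.ix_mem_W 0 i)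

theorem empty_mem_W (h : Fr l lam) (n : ℕ) : (∅ : ZFSet.{u}) ∈ V_ (lam n) :=
  ix_zero ▸ h.ix_mem_W n 0

theorem empty_mem (h : Fr l lam) : (∅ : ZFSet.{u}) ∈ V_ l := ix_zero ▸ h.ix_mem_N 0

theorem II_mem_W (h : Fr l lam) (n : ℕ) : II ∈ V_ (lam n) := by
  have h1 : II.{u} ⊆ V_ Ordinal.omega0 := fun x hx => by
    obtain ⟨i, rfl⟩ := mem_II.1 hx
    exact ix_mem le_rfl i
  exact h.W_mono (Nat.zero_le n) (mem_vonNeumann.2 ((subset_vonNeumann.1 h1).trans_lt h.om))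

theorem II_mem (h : Fr l lam) : II ∈ V_ l := h.W_sub 0 (h.II_mem_W 0)

theorem ext_W (h : Fr l lam) {A B : ZFSet.{u}} (hA : A ⊆ V_ l) (hB : B ⊆ V_ l)
    (H : ∀ d, A ∩ V_ (lam d) = B ∩ V_ (lam d)) : A = B := by
  ext x
  constructor
  · intro hx
    obtain ⟨d, hd⟩ := h.W_cof (hA hx)
    exact (mem_inter.1 (H d ▸ mem_inter.2 ⟨hx, hd⟩)).1
  · intro hx
    obtain ⟨d, hd⟩ := h.W_cof (hB hx)
    exact (mem_inter.1 ((H d).symm ▸ mem_inter.2 ⟨hx, hd⟩)).1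

end Fr

/-- Above every level, every sequence of subsets of `V_ l` lies in the range of a
Sigma-1-elementary map that is the identity on the level and not onto the next level. -/
def Rich (l : Ordinal.{u}) (lam : ℕ → Ordinal.{u}) : Prop :=
  ∀ (m : ℕ) (A : ℕ → ZFSet.{u}), Val (V_ l) A → ∃ k, El 1 (V_ l) k ∧
    (∀ x ∈ V_ (lam m), k x = x) ∧ (∀ i, ∃ A', A' ⊆ V_ l ∧ k A' = A i) ∧
      ∃ a ∈ V_ (lam (m + 1)), ∀ x, x ⊆ V_ l → k x ≠ a

end Pool.Agent.I1PSP.S3
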