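import Pool.Agent.Lib.MP_9c5ecf_lc.S3.El

/-!
From a perfect tree to a perfect embedding (the end of the proof of `psp`), and small sets.
-/

namespace Pool.Agent.I1PSP.S3

open ZFSet Order

universe u

variable {l : Ordinal.{u}} {lam : ℕ → Ordinal.{u}}

/-- The index sets of the tree. -/
noncomputable def Idx (lam : ℕ → Ordinal.{u}) (t : ℕ) : ZFSet.{u} :=
  V_ (lam ((Nat.unpair t).2 + 1))

/-- Copy the end of the proof of `psp` in `Main` (the map `e`, `isEmbedding_of`). -/
theorem embed_of_tree (hF : Fr l lam) {X : Set ZFSet.{u}} (F : (ℕ → ZFSet.{u}) → ZFSet.{u})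
    (h0 : ∀ s, (∀ t, s t ∈ Idx lam t) → F s ⊆ l.toZFSet ∧ F s ∈ X)
    (h1 : ∀ s s', (∀ t, s t ∈ Idx lam t) → (∀ t, s' t ∈ Idx lam t) → ∀ n,
      (∀ i ≤ n, s' i = s i) → F s' ∩ V_ (lam n) = F s ∩ V_ (lam n))
    (h2 : ∀ s, (∀ t, s t ∈ Idx lam t) → ∀ n, ∃ d, ∀ s', (∀ t, s' t ∈ Idx lam t) →
      F s' ∩ V_ (lam d) = F s ∩ V_ (lam d) → ∀ i ≤ n, s' i = s i) :
    HasPerfectEmbedding l X := by
  have hmono := hF.mono
  have hcof := hF.cof
  let e : (ℕ → Set.Iio l) → ℕ → ZFSet.{u} := fun x t =>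
    V_ (min (x (Nat.unpair t).1).1 (lam (Nat.unpair t).2))
  have he : ∀ x t, e x t ∈ Idx lam t := fun x t =>
    vonNeumann_mem_of_lt ((min_le_right _ _).trans_lt (hmono (Nat.lt_succ_self _)))
  have hS : ∀ x, F (e x) ⊆ l.toZFSet := fun x => (h0 _ (he x)).1
  refine ⟨fun x => ⟨F (e x), hS x⟩, isEmbedding_of (fun a ha => ?_) fun s n => ?_,
    fun x => (h0 _ (he x)).2⟩
  · obtain ⟨n, hn⟩ := hcof a ha
    refine ⟨n + 1, fun s s' h => ?_⟩
    have h4 := h1 _ _ (he s) (he s') n fun i hi => by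
      simp only [e]
      rw [h _ (Nat.lt_succ_of_le ((Nat.unpair_left_le i).trans hi))]
    have h5 : V_ a ⊆ V_ (lam n) := vonNeumann_subset_of_le hn.le
    change F (e s') ∩ _ = F (e s) ∩ _
    rw [inter_toZFSet (hS s'), inter_toZFSet (hS s), ← inter_inter_of_subset _ h5, h4,
      inter_inter_of_subset _ h5]
  · obtain ⟨m, hm⟩ : ∃ m, ∀ i < n, (s i).1 < lam m := by
      induction n with
      | zero => exact ⟨0, fun i hi => absurd hi (Nat.not_lt_zero i)⟩
      | succ n ih =>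
        obtain ⟨m, hm⟩ := ih
        obtain ⟨m', hm'⟩ := hcof _ (s n).2
        refine ⟨max m m', fun i hi => ?_⟩
        rcases Nat.lt_succ_iff_lt_or_eq.1 hi with h | rfl
        · exact (hm i h).trans_le (hmono.monotone (le_max_left _ _))
        · exact hm'.trans_le (hmono.monotone (le_max_right _ _))
    obtain ⟨d, hd⟩ := h2 _ (he s) (Nat.pair n m)
    refine ⟨lam d, hF.lt _, fun s' h i hi => ?_⟩
    change F (e s') ∩ _ = F (e s) ∩ _ at h
    rw [inter_toZFSet (hS s'), inter_toZFSet (hS s)] at h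
    have h4 := congrArg rank
      (hd _ (he s') h (Nat.pair i m) (Nat.pair_lt_pair_left m hi).le)
    simp only [e, Nat.unpair_pair, rank_vonNeumann] at h4
    rw [min_eq_left (hm i hi).le] at h4
    refine Subtype.ext ?_
    rcases le_total (s' i).1 (lam m) with h5 | h5
    · rwa [min_eq_left h5] at h4
    · rw [min_eq_right h5] at h4
      exact absurd (hm i hi) (by rw [h4]; exact lt_irrefl _)

/-- `exists_level` for the frame: build a `Sys` with `N = V_ l`, `W n = V_ (lam n)`, `idx = ix`,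
`U n = V_ (ω + n)`, `b n = V_ (ω + n)`; the hypothesis `hseq` is proved in `psp`. -/
theorem Fr.exists_level (hF : Fr l lam) {D : Set ZFSet.{u}} (hD : ∀ y ∈ D, y ⊆ V_ l)
    (h : ¬ Sm (V_ l) D) {a : ZFSet.{u}} (ha : a ∈ V_ l) :
    ∃ (d : ℕ) (g : ZFSet.{u} → ZFSet.{u}), (∀ x ∈ a, g x ∈ D) ∧
      ∀ x ∈ a, ∀ x' ∈ a, g x ∩ V_ (lam d) = g x' ∩ V_ (lam d) → x = x' := by
  have hom : ∀ n : ℕ, Ordinal.omega0 + n < lam 0 := by
    intro n
    induction n with
    | zero => simpa using hF.om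
    | succ n ih =>
      rw [Nat.cast_succ, ← add_assoc]
      exact hF.lim 0 _ ih
  let S : Sys.{u} :=
    { N := V_ l
      W := fun n => V_ (lam n)
      U := fun n => V_ (Ordinal.omega0 + n)
      b := fun n => V_ (Ordinal.omega0 + n)
      idx := ix
      trans := isTransitive_vonNeumann l
      W_mem := hF.W_mem
      W_succ := fun i => hF.W_mono (Nat.le_succ i)
      W_cof := fun _ hx => hF.W_cof hx
      U_sub := fun n => vonNeumann_subset_of_le (hom n).le
      U_trans := fun n => isTransitive_vonNeumann _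
      b_succ := fun n => by rw [Nat.cast_succ, ← add_assoc, vonNeumann_add_one]
      b_sub := fun n => subset_rfl
      idx_mem := fun n i => ix_mem le_self_add i }
  refine Pool.Agent.I1PSP.exists_level S ix_injective (fun a ha c hc => ?_) hF.pair_mem hD h ha
  obtain ⟨n, hn⟩ := hF.W_cof_sub ha
  refine hF.sub_W_mem (n := n) fun q hq => ?_
  obtain ⟨i, x, hx, rfl⟩ := hc q hq
  exact hF.pair_mem_W n _ (hF.ix_mem_W n i) _ (hn hx)

end Pool.Agent.I1PSP.S3
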