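import Pool.Agent.Lib.MP_9c5ecf_lc.S3.Rank

/-!
Common fixed points of a small family of embeddings.
-/

namespace Pool.Agent.I1PSP.S3

open ZFSet Order Cardinal

universe u

/-- Simulations between two relations. -/
def Sim (N s r r' : ZFSet.{u}) : Prop :=
  ∀ x, x ∈ N → ∀ x', x' ∈ N → pair x x' ∈ s → ∀ y, y ∈ N → pair y x ∈ r →
    ∃ y', y' ∈ N ∧ pair y' x' ∈ r' ∧ pair y y' ∈ s

variable {l : Ordinal.{u}} {lam : ℕ → Ordinal.{u}} {N r r' s a a' : ZFSet.{u}}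
  {k : ZFSet.{u} → ZFSet.{u}}

theorem Sim.rk_le (h : Sim N s r r') (hr : WellFounded (Rl N r)) (hr' : WellFounded (Rl N r'))
    (ha : a ∈ N) (ha' : a' ∈ N) (hp : pair a a' ∈ s) : rk N r a ≤ rk N r' a' := by
  induction a using hr.induction generalizing a' with
  | _ a ih =>
    by_contra hc
    obtain ⟨y, h1, h2⟩ := exists_rl_of_lt hr (not_le.1 hc)
    obtain ⟨y', h3, h4, h5⟩ := h a ha a' ha' hp y h1.1 h1.2.2
    exact absurd (h2.trans (ih y h1 h1.1 h3 h5)) (not_le.2 (rk_lt_of_rl hr' ⟨h3, ha', h4⟩))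

theorem d0_sim (hN : N.IsTransitive) : D0 N fun v => Sim N (v 0) (v 1) (v 2) := by
  unfold Sim
  repeat' with_reducible first
    | exact T0.var _ | exact T0.univ | apply D0.ball hN | apply D0.bex hN | apply D0.and
    | apply D0.imp | apply D0.pairMem hN

/-- The set of the pairs with `rk N r x ≤ rk N r' x'` is a simulation; apply `k` to it. -/
theorem rk_map_le (hF : Fr l lam) (hk : El 1 (V_ l) k) (hr : SW (V_ l) r) (hr' : SW (V_ l) r')
    (ha : a ∈ V_ l) (ha' : a' ∈ V_ l) (h : rk (V_ l) r a ≤ rk (V_ l) r' a') :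
    rk (V_ l) (k r) (k a) ≤ rk (V_ l) (k r') (k a') := by
  have hN := isTransitive_vonNeumann l
  let s : ZFSet.{u} := ZFSet.sep
    (fun p => ∃ x x', p = pair x x' ∧ rk (V_ l) r x ≤ rk (V_ l) r' x') (V_ l)
  have h1 : ∀ x ∈ V_ l, ∀ x' ∈ V_ l, pair x x' ∈ s ↔ rk (V_ l) r x ≤ rk (V_ l) r' x' := by
    intro x hx x' hx'
    refine mem_sep.trans ⟨?_, fun h => ⟨hF.pair_mem x hx x' hx', x, x', rfl, h⟩⟩
    rintro ⟨-, y, y', h2, h3⟩
    obtain ⟨rfl, rfl⟩ := pair_inj.1 h2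
    exact h3
  have h2 : Sim (V_ l) s r r' := by
    intro x hx x' hx' h2 y hy h3
    obtain ⟨y', h4, h5⟩ := exists_rl_of_lt hr'.wf
      ((rk_lt_of_rl hr.wf ⟨hy, hx, h3⟩).trans_le ((h1 x hx x' hx').1 h2))
    exact ⟨y', h4.1, h4.2.2, (h1 y hy y' h4.1).2 h5⟩
  have h3 : s ⊆ V_ l := sep_subset
  exact Sim.rk_le ((hk.iff3 (b := true) (R := Sim (V_ l)) (d0_sim hN).dl h3 hr.sub hr'.sub).1 h2)
    (hr.map hN hk).wf (hr'.map hN hk).wf (hk.mem_univ hN ha) (hk.mem_univ hN ha')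
    ((hk.pair_mem_iff hN (hN a ha) (hN a' ha') h3).2 ((h1 a ha a' ha').2 h))

/-- Continuity at limits of countable cofinality. The set
`S = {pair (ix i) y : pair y (c i) ∈ r}` satisfies: every `y` below `a` lies in a section of `S`
at a member of `II`, and the section at `ix i` is the set of the `y` below `c i`. Apply `k`. -/
theorem rk_map_le_of_seq (hF : Fr l lam) (hk : El 1 (V_ l) k) (hI : k II = II)
    (hi : ∀ i, k (ix i) = ix i) (hr : SW (V_ l) r) (ha : a ∈ V_ l) {c : ℕ → ZFSet.{u}}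
    (hc : ∀ i, c i ∈ V_ l) (h : ∀ γ < rk (V_ l) r a, ∃ i, γ < rk (V_ l) r (c i))
    {δ : Ordinal.{u + 1}} (hδ : ∀ i, rk (V_ l) (k r) (k (c i)) ≤ δ) :
    rk (V_ l) (k r) (k a) ≤ δ := by
  have hN := isTransitive_vonNeumann l
  let S : ZFSet.{u} := ZFSet.sep (fun p => ∃ i y, p = pair (ix i) y ∧ pair y (c i) ∈ r) (V_ l)
  have h0 : S ⊆ V_ l := sep_subset
  have h1 : ∀ y, y ∈ V_ l → pair y a ∈ r → ∃ t, t ∈ II ∧ pair t y ∈ S := by
    intro y hy h1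
    obtain ⟨i, h2⟩ := h _ (rk_lt_of_rl hr.wf ⟨hy, ha, h1⟩)
    exact ⟨ix i, mem_II.2 ⟨i, rfl⟩, mem_sep.2 ⟨hF.pair_mem _ (hF.ix_mem_N i) y hy, i, y, rfl,
      (hr.pair_mem_iff hy (hc i)).2 h2⟩⟩
  have h2 : ∀ i y, y ∈ V_ l → pair (ix i) y ∈ S → pair y (c i) ∈ r := by
    intro i y _ h2
    obtain ⟨-, j, y', h3, h4⟩ := mem_sep.1 h2
    obtain ⟨h5, rfl⟩ := pair_inj.1 h3
    rwa [ix_injective h5]
  have h3 := (hk.iff4 (b := true)
    (R := fun r a I S => ∀ y, y ∈ V_ l → pair y a ∈ r → ∃ t, t ∈ I ∧ pair t y ∈ S) (D0.dl (by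
      repeat' with_reducible first
        | exact T0.var _ | exact T0.univ | apply D0.ball hN | apply D0.bex hN | apply D0.imp
        | apply D0.pairMem hN)) hr.sub (hN a ha) (hN _ hF.II_mem) h0).1 h1
  have h4 := fun i => (hk.iff4 (b := true)
    (R := fun S t r c => ∀ y, y ∈ V_ l → pair t y ∈ S → pair y c ∈ r) (D0.dl (by
      repeat' with_reducible first
        | exact T0.var _ | exact T0.univ | apply D0.ball hN | apply D0.bex hN | apply D0.imp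
        | apply D0.pairMem hN)) h0 (hN _ (hF.ix_mem_N i)) hr.sub (hN _ (hc i))).1 (h2 i)
  have h5 := (hr.map hN hk).wf
  by_contra hlt
  obtain ⟨y, h6, h7⟩ := exists_rl_of_lt h5 (not_le.1 hlt)
  obtain ⟨t, h8, h9⟩ := h3 y h6.1 h6.2.2
  rw [hI] at h8
  obtain ⟨i, rfl⟩ := mem_II.1 h8
  have h10 := h4 i y h6.1 ((hi i).symm ▸ h9)
  exact absurd (h7.trans_lt (rk_lt_of_rl h5 ⟨h6.1, hk.mem_univ hN (hc i), h10⟩))
    (not_lt.2 (hδ i))

/-- Choose a code `(r_γ, a_γ)` for every `γ < Lam`, let `g (i + 1)` be a bound of `g i` and of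
the ranks of `K e a_(g i)` in `K e r_(g i)`, and take the supremum of the `g i`. -/
theorem exists_fix (hF : Fr l lam) {ι : Type (u + 1)} (hι : #ι ≤ #{x : ZFSet.{u} | x ∈ V_ l})
    (K : ι → ZFSet.{u} → ZFSet.{u}) (hK : ∀ e, El 1 (V_ l) (K e)) (hI : ∀ e, K e II = II)
    (hi : ∀ e i, K e (ix i) = ix i) {γ : Ordinal.{u + 1}} (hγ : γ < Lam (V_ l)) :
    ∃ δ, γ < δ ∧ δ < Lam (V_ l) ∧ ∀ e, FixO (V_ l) (K e) δ := by
  have hN := isTransitive_vonNeumann l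
  have step : ∀ x : Set.Iio (Lam (V_ l)), ∃ y : Set.Iio (Lam (V_ l)), x.1 < y.1 ∧
      ∀ e r a, SW (V_ l) r → a ∈ V_ l → rk (V_ l) r a = x.1 →
        rk (V_ l) (K e r) (K e a) < y.1 := by
    intro x
    obtain ⟨r0, h0, h1⟩ := exists_sw hF x.2
    obtain ⟨a0, h2, h3⟩ := h1 x.1 le_rfl
    obtain ⟨β, h4, h5⟩ := exists_bound hF hι (fun e => rk (V_ l) (K e r0) (K e a0))
      fun e => rk_lt_Lam (h0.map hN (hK e)).wf _
    refine ⟨⟨max β (x.1 + 1), max_lt h4 (succ_lt_Lam hF x.2)⟩,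
      lt_max_of_lt_right (lt_add_one _), fun e r a hr ha h6 => ?_⟩
    exact lt_max_of_lt_left
      ((rk_map_le hF (hK e) hr h0 ha h2 (h6.trans h3.symm).le).trans_lt (h5 e))
  choose nx n1 n2 using step
  obtain ⟨g, g0, g1⟩ : ∃ g : ℕ → Set.Iio (Lam (V_ l)), (g 0).1 = γ ∧ ∀ i, g (i + 1) = nx (g i) :=
    ⟨fun i => nx^[i] ⟨γ, hγ⟩, rfl, fun i => Function.iterate_succ_apply' _ _ _⟩
  have a1 : ∀ i, (g (i + 1)).1 ≤ ⨆ i, (g i).1 := fun i =>
    Ordinal.le_iSup (fun i => (g i).1) (i + 1)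
  have a2 : ∀ i, (g i).1 < ⨆ i, (g i).1 := fun i => by
    refine lt_of_lt_of_le ?_ (a1 i)
    rw [g1]
    exact n1 _
  refine ⟨⨆ i, (g i).1, g0 ▸ a2 0, ?_, fun e r a hr ha h => ?_⟩
  · obtain ⟨β, h1, h2⟩ := exists_bound hF (ι := ULift.{u + 1} ℕ)
      (mk_le_aleph0.trans (aleph0_le_mk hF)) (fun i => (g i.down).1) fun i => (g i.down).2
    exact (Ordinal.iSup_le fun i => (h2 ⟨i⟩).le).trans_lt h1
  · choose c c1 c2 using fun i => exists_rk_eq hr.wf ((a2 i).trans_eq h.symm)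
    refine le_antisymm (rk_map_le_of_seq hF (hK e) (hI e) (hi e) hr ha c1 (fun γ' hγ' => ?_)
      fun i => ?_) (h.symm.le.trans (hr.rk_le_map hN (hK e) ha))
    · rw [h, Ordinal.lt_iSup_iff] at hγ'
      obtain ⟨i, hi'⟩ := hγ'
      exact ⟨i, hi'.trans_eq (c2 i).symm⟩
    · refine le_trans ?_ (a1 i)
      rw [g1]
      exact (n2 _ e r _ hr (c1 i) (c2 i)).le

/-- A well-founded relation on `N` has a monotone labelling with values in a given unbounded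
set (recursion along the relation, with `exists_bound`). -/
theorem exists_label (hF : Fr l lam) {C : Set Ordinal.{u + 1}}
    (hC : ∀ γ < Lam (V_ l), ∃ δ ∈ C, γ < δ ∧ δ < Lam (V_ l)) (hr : WellFounded (Rl (V_ l) r)) :
    ∃ (ρ : ZFSet.{u} → Ordinal.{u + 1}) (β : Ordinal.{u + 1}), β ∈ C ∧ β < Lam (V_ l) ∧
      (∀ a ∈ V_ l, ρ a ∈ C ∧ ρ a < β) ∧ ∀ a b, Rl (V_ l) r a b → ρ a < ρ b := by
  classical
  have h0 : (0 : Ordinal.{u + 1}) < Lam (V_ l) := zero_le.trans_lt (rk_lt_Lam hr ∅)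
  have key : ∀ f : ZFSet.{u} → Ordinal.{u + 1}, ∃ δ, δ ∈ C ∧ δ < Lam (V_ l) ∧
      ∀ a ∈ V_ l, f a < Lam (V_ l) → f a < δ := by
    intro f
    obtain ⟨β, h1, h2⟩ := exists_bound hF (ι := {x : ZFSet.{u} | x ∈ V_ l}) le_rfl
      (fun x => if f x.1 < Lam (V_ l) then f x.1 else 0) fun x => by
        split_ifs with h
        · exact h
        · exact h0
    obtain ⟨δ, h3, h4, h5⟩ := hC β h1
    refine ⟨δ, h3, h5, fun a ha h6 => ?_⟩
    have h7 := h2 ⟨a, ha⟩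
    rw [if_pos h6] at h7
    exact h7.trans h4
  choose F f1 f2 f3 using key
  obtain ⟨ρ, hρ⟩ : ∃ ρ : ZFSet.{u} → Ordinal.{u + 1},
      ∀ b, ρ b = F fun a => if Rl (V_ l) r a b then ρ a else 0 := by
    refine ⟨hr.fix fun b ih => F fun a => if h : Rl (V_ l) r a b then ih a h else 0, fun b => ?_⟩
    rw [WellFounded.fix_eq]
    rfl
  have h1 : ∀ b, ρ b < Lam (V_ l) := fun b => (hρ b).trans_lt (f2 _)
  refine ⟨ρ, F ρ, f1 _, f2 _, fun a ha => ⟨by rw [hρ]; exact f1 _, f3 ρ a ha (h1 a)⟩,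
    fun a b hab => ?_⟩
  have h2 := f3 (fun a => if Rl (V_ l) r a b then ρ a else 0) a hab.1
  rw [if_pos hab, ← hρ] at h2
  exact h2 (h1 a)

end Pool.Agent.I1PSP.S3
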