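import Pool.Agent.Lib.MP_9c5ecf_lc.S3.El

/-!
Roots raise the level of elementarity (the argument of Martin).
-/

namespace Pool.Agent.I1PSP.S3

open ZFSet

universe u

variable {N : ZFSet.{u}} {n : ℕ} {k : ZFSet.{u} → ZFSet.{u}}

/-- `k` has roots in the class `R`. -/
def Roots (N : ZFSet.{u}) (R : (ZFSet.{u} → ZFSet.{u}) → Prop) (k : ZFSet.{u} → ZFSet.{u}) :
    Prop :=
  ∀ A B : ℕ → ZFSet.{u}, Val N A → Val N B → ∃ k', R k' ∧ (∀ i, k' (A i) = k (A i)) ∧
    ∀ i, ∃ B', B' ⊆ N ∧ k' B' = B i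

/-- A statement or its negation. -/
def sgLv (b : Bool) (p : Prop) : Prop := if b = true then p else ¬ p

theorem sgLv_true {p : Prop} : sgLv true p ↔ p := by simp [sgLv]

theorem sgLv_false {p : Prop} : sgLv false p ↔ ¬ p := by simp [sgLv]

theorem sgLv_not {b : Bool} {p : Prop} : sgLv (!b) (¬ p) ↔ sgLv b p := by
  cases b <;> simp [sgLv]

theorem Up.flipLv (h : Up n N k) {m : ℕ} {b : Bool} {φ : Fml} (hφ : Lv m b φ) (hm : m ≤ n)
    {v : ℕ → ZFSet.{u}} (hv : Val N v) (H : sgLv b (Sat (PP N) φ v)) :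
    sgLv b (Sat (PP N) φ fun i => k (v i)) := by
  cases b with
  | true => exact sgLv_true.2 (h φ (hφ.mono hm) v hv (sgLv_true.1 H))
  | false => exact sgLv_false.2 (h (.neg φ) (hφ.neg.mono hm) v hv (sgLv_false.1 H))

theorem El.iffLv (h : El n N k) {m : ℕ} {b : Bool} {φ : Fml} (hφ : Lv m b φ) (hm : m ≤ n)
    {v : ℕ → ZFSet.{u}} (hv : Val N v) :
    Sat (PP N) φ v ↔ Sat (PP N) φ fun i => k (v i) := by
  cases b with
  | true => exact ⟨h.up φ (hφ.mono hm) v hv, h.dn φ (hφ.mono hm) v hv⟩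
  | false =>
    exact not_iff_not.1 ⟨h.up (.neg φ) (hφ.neg.mono hm) v hv, h.dn (.neg φ) (hφ.neg.mono hm) v hv⟩

theorem El.up_auxLv (h : El n N k) {m : ℕ} {b : Bool} {φ : Fml} (hφ : Lv m b φ) :
    m ≤ n + 1 → ∀ v, Val N v → sgLv b (Sat (PP N) φ v) →
      sgLv b (Sat (PP N) φ fun i => k (v i)) := by
  induction hφ with
  | delta0 b h0 =>
    intro _ v hv H
    rwa [← h.iffLv (Lv.delta0 b h0) (Nat.zero_le n) hv]
  | up c h0 _ =>
    intro hm v hv H
    rwa [← h.iffLv h0 (by omega) hv]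
  | neg _ ih =>
    intro hm v hv H
    exact sgLv_not.2 (ih hm v hv (sgLv_not.1 H))
  | @and m b φ ψ _ _ ih1 ih2 =>
    intro hm v hv H
    cases b with
    | true =>
      have H' : Sat (PP N) φ v ∧ Sat (PP N) ψ v := sgLv_true.1 H
      exact sgLv_true.2 ⟨sgLv_true.1 (ih1 hm v hv (sgLv_true.2 H'.1)),
        sgLv_true.1 (ih2 hm v hv (sgLv_true.2 H'.2))⟩
    | false =>
      have H' : ¬ (Sat (PP N) φ v ∧ Sat (PP N) ψ v) := sgLv_false.1 H
      refine sgLv_false.2 fun hc => ?_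
      rcases not_and_or.1 H' with h1 | h1
      · exact sgLv_false.1 (ih1 hm v hv (sgLv_false.2 h1)) hc.1
      · exact sgLv_false.1 (ih2 hm v hv (sgLv_false.2 h1)) hc.2
  | ex _ ih =>
    intro hm v hv H
    obtain ⟨x, hx, h1⟩ := sgLv_true.1 H
    have h2 := sgLv_true.1 (ih hm (cons x v) (hv.cons hx) (sgLv_true.2 h1))
    rw [map_cons] at h2
    exact sgLv_true.2 ⟨k x, h.maps x hx, h2⟩

theorem capture_flipLv {m : ℕ} {b : Bool} {φ : Fml} (hφ : Lv m b φ) (hm : m ≤ n)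
    {w : ℕ → ZFSet.{u}} (H : sgLv (!b) (Sat (PP N) φ w)) {k' : ZFSet.{u} → ZFSet.{u}}
    (hk : Up n N k') {v : ℕ → ZFSet.{u}} (hv : Val N v) (e : ∀ i, k' (v i) = w i) :
    sgLv (!b) (Sat (PP N) φ v) := by
  have h1 := hk.flipLv hφ hm hv
  rw [funext e] at h1
  cases b with
  | true => exact sgLv_false.2 fun hc => sgLv_false.1 H (sgLv_true.1 (h1 (sgLv_true.2 hc)))
  | false =>
    exact sgLv_true.2 (by_contra fun hc => sgLv_false.1 (h1 (sgLv_false.2 hc)) (sgLv_true.1 H))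

theorem capture_auxLv {m : ℕ} {b : Bool} {φ : Fml} (hφ : Lv m b φ) :
    m ≤ n + 1 → ∀ w, Val N w → sgLv b (Sat (PP N) φ w) →
      ∃ B, Val N B ∧ ∀ k' : ZFSet.{u} → ZFSet.{u}, Up n N k' →
        (∀ i, ∃ B', B' ⊆ N ∧ k' B' = B i) → ∀ v, Val N v → (∀ i, k' (v i) = w i) →
          sgLv b (Sat (PP N) φ v) := by
  induction hφ with
  | delta0 b h0 =>
    intro _ w hw H
    refine ⟨w, hw, fun k' hk _ v hv e => ?_⟩
    have := capture_flipLv (Lv.delta0 (!b) h0) (Nat.zero_le n) (w := w)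
      (by rwa [Bool.not_not]) hk hv e
    rwa [Bool.not_not] at this
  | @up m b φ c h0 ih =>
    intro hm w hw H
    by_cases hc : c = b
    · subst hc
      exact ih (by omega) w hw H
    · obtain rfl : c = !b := by cases b <;> cases c <;> simp at hc ⊢
      exact ⟨w, hw, fun k' hk _ v hv e => capture_flipLv h0 (by omega) H hk hv e⟩
  | neg _ ih =>
    intro hm w hw H
    obtain ⟨B, hB, h1⟩ := ih hm w hw (sgLv_not.1 H)
    exact ⟨B, hB, fun k' hk hr v hv e => sgLv_not.2 (h1 k' hk hr v hv e)⟩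
  | @and m b φ ψ _ _ ih1 ih2 =>
    intro hm w hw H
    cases b with
    | true =>
      have H' : Sat (PP N) φ w ∧ Sat (PP N) ψ w := sgLv_true.1 H
      obtain ⟨B, hB, h1⟩ := ih1 hm w hw (sgLv_true.2 H'.1)
      obtain ⟨C, hC, h2⟩ := ih2 hm w hw (sgLv_true.2 H'.2)
      refine ⟨fun i => if i % 2 = 0 then B (i / 2) else C (i / 2), fun i => ?_,
        fun k' hk hr v hv e => sgLv_true.2 ⟨sgLv_true.1 (h1 k' hk (fun i => ?_) v hv e),
          sgLv_true.1 (h2 k' hk (fun i => ?_) v hv e)⟩⟩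
      · by_cases hi : i % 2 = 0
        · simp only [if_pos hi]
          exact hB _
        · simp only [if_neg hi]
          exact hC _
      · have h3 := hr (2 * i)
        beta_reduce at h3
        rwa [if_pos (by omega), show 2 * i / 2 = i by omega] at h3
      · have h3 := hr (2 * i + 1)
        beta_reduce at h3
        rwa [if_neg (by omega), show (2 * i + 1) / 2 = i by omega] at h3
    | false =>
      have H' : ¬ (Sat (PP N) φ w ∧ Sat (PP N) ψ w) := sgLv_false.1 H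
      rcases not_and_or.1 H' with h0 | h0
      · obtain ⟨B, hB, h1⟩ := ih1 hm w hw (sgLv_false.2 h0)
        exact ⟨B, hB, fun k' hk hr v hv e =>
          sgLv_false.2 fun hc => sgLv_false.1 (h1 k' hk hr v hv e) hc.1⟩
      · obtain ⟨B, hB, h1⟩ := ih2 hm w hw (sgLv_false.2 h0)
        exact ⟨B, hB, fun k' hk hr v hv e =>
          sgLv_false.2 fun hc => sgLv_false.1 (h1 k' hk hr v hv e) hc.2⟩
  | ex _ ih =>
    intro hm w hw H
    obtain ⟨x, hx, h1⟩ := sgLv_true.1 H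
    obtain ⟨B, hB, h2⟩ := ih hm (cons x w) (hw.cons hx) (sgLv_true.2 h1)
    refine ⟨cons x B, hB.cons hx, fun k' hk hr v hv e => ?_⟩
    obtain ⟨x', h3, h4⟩ := hr 0
    refine sgLv_true.2 ⟨x', h3, sgLv_true.1
      (h2 k' hk (fun i => hr (i + 1)) (cons x' v) (hv.cons h3) fun i => ?_)⟩
    cases i with
    | zero => exact h4
    | succ i => exact e i

/-- Induction on `Lv m b φ` with `m ≤ n + 1`: for `b = true` truth goes up, for `b = false`
falsity goes up; in the case `up` use `h.up`, `h.dn` when the sign changes. -/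
theorem El.up_succ (h : El n N k) : Up (n + 1) N k := by
  intro φ hφ v hv H
  exact sgLv_true.1 (h.up_auxLv hφ le_rfl v hv (sgLv_true.2 H))

/-- Induction on `Lv m b φ` with `m ≤ n + 1`, the statement for `b = false` being this one for
`¬ Sat`. Interleave the sequences for `and`, put the witness in front for `ex`; when the sign
changes in `up`, the negation is Sigma-n and `Up n` applies. -/
theorem capture_wit {φ : Fml} (hφ : Lv (n + 1) true φ) {w : ℕ → ZFSet.{u}} (hw : Val N w)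
    (h : Sat (PP N) φ w) : ∃ B, Val N B ∧ ∀ k' : ZFSet.{u} → ZFSet.{u}, Up n N k' →
      (∀ i, ∃ B', B' ⊆ N ∧ k' B' = B i) → ∀ v, Val N v → (∀ i, k' (v i) = w i) →
        Sat (PP N) φ v := by
  obtain ⟨B, hB, h1⟩ := capture_auxLv hφ le_rfl w hw (sgLv_true.2 h)
  exact ⟨B, hB, fun k' hk hr v hv e => sgLv_true.1 (h1 k' hk hr v hv e)⟩

theorem dn_of_roots (hm : ∀ x, x ⊆ N → k x ⊆ N) (h : Roots N (Up n N) k) : Dn (n + 1) N k := by
  intro φ hφ v hv H
  obtain ⟨B, hB, h1⟩ := capture_wit hφ (fun i => hm _ (hv i)) H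
  obtain ⟨k', h2, h3, h4⟩ := h v B hv hB
  exact h1 k' h2 h4 v hv h3

theorem Roots.mono {R R' : (ZFSet.{u} → ZFSet.{u}) → Prop} (h : Roots N R k)
    (H : ∀ k', R k' → R' k') : Roots N R' k := fun A B hA hB => by
  obtain ⟨k', h1, h2⟩ := h A B hA hB
  exact ⟨k', H k' h1, h2⟩

theorem el2_of_roots (h0 : El 0 N k) (h : Roots N (El 0 N) k) : El 2 N k := by
  have h2 : Dn 2 N k := dn_of_roots h0.maps (h.mono fun _ h => h.up_succ)
  have h1 : El 1 N k := ⟨h0.maps, h0.univ, h0.up_succ, h2.mono (by omega)⟩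
  exact ⟨h0.maps, h0.univ, h1.up_succ, h2⟩

theorem dn4_of_roots (h0 : El 0 N k) (h : Roots N (El 2 N) k) : Dn 4 N k :=
  dn_of_roots h0.maps (h.mono fun _ h => h.up_succ)

end Pool.Agent.I1PSP.S3
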