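import Pool.Agent.Lib.MP_9c5ecf_lc.S3.El

/-!
Well-founded relations on `N`, their ranks, and the ordinals below the successor of the size of
`N`.
-/

namespace Pool.Agent.I1PSP.S3

open ZFSet Order Cardinal

universe u

/-- The relation on `N` given by the set of pairs `r`. -/
def Rl (N r a b : ZFSet.{u}) : Prop := a ∈ N ∧ b ∈ N ∧ pair a b ∈ r

open Classical in
/-- The rank of `a` in the relation `r`. -/
noncomputable def rk (N r a : ZFSet.{u}) : Ordinal.{u + 1} :=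
  if h : Acc (Rl N r) a then h.rank else 0

/-- Negative transitivity. -/
def NT (N r : ZFSet.{u}) : Prop :=
  ∀ a, a ∈ N → ∀ b, b ∈ N → ∀ c, c ∈ N → pair a b ∈ r → pair a c ∈ r ∨ pair c b ∈ r

/-- Codes: well-founded strict weak orders on `N`. -/
structure SW (N r : ZFSet.{u}) : Prop where
  sub : r ⊆ N
  wf : WellFounded (Rl N r)
  nt : NT N r

/-- The first ordinal that is larger in size than `N`. -/
noncomputable def Lam (N : ZFSet.{u}) : Ordinal.{u + 1} := (succ #{x : ZFSet.{u} | x ∈ N}).ord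

variable {l : Ordinal.{u}} {lam : ℕ → Ordinal.{u}} {N r a b : ZFSet.{u}} {n : ℕ}
  {k : ZFSet.{u} → ZFSet.{u}}

theorem rk_eq82 (h : WellFounded (Rl N r)) (a : ZFSet.{u}) : rk N r a = (h.apply a).rank :=
  dif_pos _

theorem rk_lt_of_rl (h : WellFounded (Rl N r)) (hab : Rl N r a b) : rk N r a < rk N r b := by
  rw [rk_eq82 h, rk_eq82 h]
  exact Acc.rank_lt_of_rel _ hab

theorem exists_rl_of_lt (h : WellFounded (Rl N r)) {γ : Ordinal.{u + 1}} (hγ : γ < rk N r b) :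
    ∃ a, Rl N r a b ∧ γ ≤ rk N r a := by
  rw [rk_eq82 h, Acc.rank_eq, Ordinal.lt_iSup_iff] at hγ
  obtain ⟨⟨a, ha⟩, h1⟩ := hγ
  refine ⟨a, ha, ?_⟩
  rw [rk_eq82 h]
  exact lt_succ_iff.1 h1

theorem exists_rk_eq (h : WellFounded (Rl N r)) {γ : Ordinal.{u + 1}} (hγ : γ < rk N r b) :
    ∃ a, a ∈ N ∧ rk N r a = γ := by
  induction b using h.induction with
  | _ b ih =>
    obtain ⟨a, h1, h2⟩ := exists_rl_of_lt h hγ
    rcases h2.eq_or_lt with e | e
    · exact ⟨a, h1.1, e.symm⟩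
    · exact ih a h1 e

theorem SW.pair_mem_iff (h : SW N r) (ha : a ∈ N) (hb : b ∈ N) :
    pair a b ∈ r ↔ rk N r a < rk N r b := by
  refine ⟨fun H => rk_lt_of_rl h.wf ⟨ha, hb, H⟩, fun H => ?_⟩
  obtain ⟨c, h1, h2⟩ := exists_rl_of_lt h.wf H
  rcases h.nt c h1.1 b hb a ha h1.2.2 with h3 | h3
  · exact absurd (rk_lt_of_rl h.wf ⟨h1.1, ha, h3⟩) (not_lt.2 h2)
  · exact h3

/-- Every smaller ordinal is the rank of a member of `N`, so the rank injects into `N`. -/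
theorem rk_lt_Lam (h : WellFounded (Rl N r)) (a : ZFSet.{u}) : rk N r a < Lam N := by
  choose f h1 h2 using fun γ : Set.Iio (rk N r a) => exists_rk_eq h γ.2
  have hi : Function.Injective fun γ => (⟨f γ, h1 γ⟩ : {x : ZFSet.{u} | x ∈ N}) :=
    fun γ δ e => Subtype.ext (by rw [← h2 γ, ← h2 δ, Subtype.mk.inj e])
  have h3 := lift_mk_le_lift_mk_of_injective hi
  rw [Cardinal.mk_Iio_ordinal, lift_lift] at h3
  rw [Lam, lt_ord, lt_succ_iff]
  exact lift_le.1 h3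

theorem aleph0_le_mk (hF : Fr l lam) : ℵ₀ ≤ #{x : ZFSet.{u} | x ∈ V_ l} := by
  rw [aleph0_le_mk_iff]
  exact Infinite.of_injective
    (fun i : ℕ => (⟨ix i, hF.ix_mem_N i⟩ : {x : ZFSet.{u} | x ∈ V_ l}))
    fun i j h => ix_injective (congrArg Subtype.val h)

theorem exists_bound (hF : Fr l lam) {ι : Type (u + 1)} (hι : #ι ≤ #{x : ZFSet.{u} | x ∈ V_ l})
    (f : ι → Ordinal.{u + 1}) (hf : ∀ i, f i < Lam (V_ l)) :
    ∃ β, β < Lam (V_ l) ∧ ∀ i, f i < β := by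
  have hreg := isRegular_succ (aleph0_le_mk hF)
  have h1 : iSup f < Lam (V_ l) :=
    iSup_lt_ord_of_isRegular hreg (hι.trans_lt (lt_succ _)) hf
  refine ⟨iSup f + 1, (isSuccLimit_ord hreg.aleph0_le).add_one_lt h1, fun i => ?_⟩
  exact (Ordinal.le_iSup f i).trans_lt (lt_add_one _)

theorem succ_lt_Lam (hF : Fr l lam) {γ : Ordinal.{u + 1}} (h : γ < Lam (V_ l)) :
    γ + 1 < Lam (V_ l) := by
  exact (isSuccLimit_ord (isRegular_succ (aleph0_le_mk hF)).aleph0_le).add_one_lt h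

/-- An injection of the ordinals below `β` into `N`. -/
theorem exists_cd {β : Ordinal.{u + 1}} (h : β < Lam N) : ∃ cd : Ordinal.{u + 1} → ZFSet.{u},
    (∀ γ < β, cd γ ∈ N) ∧ ∀ γ < β, ∀ δ < β, cd γ = cd δ → γ = δ := by
  classical
  have h1 : #β.ToType ≤ #{x : ZFSet.{u} | x ∈ N} := by
    rw [Cardinal.mk_toType]
    exact Cardinal.card_le_iff.2 h
  obtain ⟨e⟩ := (Cardinal.le_def _ _).1 h1
  refine ⟨fun γ => if hγ : γ < β then (e (Ordinal.ToType.mk ⟨γ, hγ⟩)).1 else ∅,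
    fun γ hγ => ?_, fun γ hγ δ hδ hh => ?_⟩
  · simp only [dif_pos hγ]
    exact (e (Ordinal.ToType.mk ⟨γ, hγ⟩)).2
  · simp only [dif_pos hγ, dif_pos hδ] at hh
    have h2 := e.injective (Subtype.ext hh)
    exact congrArg Subtype.val (Ordinal.ToType.mk.injective h2)

/-- Take `e : N → Ordinal` onto the ordinals `≤ γ` (inverse of `exists_cd`, value `0`
elsewhere), `r = {pair a b : e a < e b}`; then `rk N r a = e a`. -/
theorem exists_sw (hF : Fr l lam) {γ : Ordinal.{u + 1}} (h : γ < Lam (V_ l)) :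
    ∃ r, SW (V_ l) r ∧ ∀ δ ≤ γ, ∃ a, a ∈ V_ l ∧ rk (V_ l) r a = δ := by
  classical
  obtain ⟨cd, hc1, hc2⟩ := exists_cd (succ_lt_Lam hF h)
  have hle : ∀ δ, δ ≤ γ → δ < γ + 1 := fun δ hδ => hδ.trans_lt (lt_add_one _)
  obtain ⟨e, he1, he2⟩ : ∃ e : ZFSet.{u} → Ordinal.{u + 1},
      (∀ a, e a ≤ γ) ∧ ∀ δ ≤ γ, e (cd δ) = δ := by
    refine ⟨fun a => if ha : ∃ δ, δ ≤ γ ∧ cd δ = a then ha.choose else 0, fun a => ?_,
      fun δ hδ => ?_⟩
    · by_cases ha : ∃ δ, δ ≤ γ ∧ cd δ = a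
      · simp only [dif_pos ha]
        exact ha.choose_spec.1
      · simp only [dif_neg ha]
        exact zero_le
    · have ha : ∃ δ', δ' ≤ γ ∧ cd δ' = cd δ := ⟨δ, hδ, rfl⟩
      simp only [dif_pos ha]
      exact hc2 _ (hle _ ha.choose_spec.1) _ (hle _ hδ) ha.choose_spec.2
  obtain ⟨r, hr0, hr⟩ : ∃ r : ZFSet.{u}, r ⊆ V_ l ∧
      ∀ a ∈ V_ l, ∀ b ∈ V_ l, pair a b ∈ r ↔ e a < e b := by
    refine ⟨ZFSet.sep (fun p => ∃ a b, p = pair a b ∧ e a < e b) (V_ l),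
      fun p hp => (mem_sep.1 hp).1, fun a ha b hb => ?_⟩
    rw [mem_sep]
    constructor
    · rintro ⟨_, a', b', h1, h2⟩
      obtain ⟨rfl, rfl⟩ := pair_inj.1 h1
      exact h2
    · intro hab
      exact ⟨hF.pair_mem a ha b hb, a, b, rfl, hab⟩
  have hwf : WellFounded (Rl (V_ l) r) :=
    Subrelation.wf (r := InvImage (· < ·) e) (fun {a b} hab => (hr a hab.1 b hab.2.1).1 hab.2.2)
      (InvImage.wf e wellFounded_lt)
  have hrk : ∀ δ, ∀ a ∈ V_ l, e a = δ → rk (V_ l) r a = δ := by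
    intro δ
    induction δ using WellFoundedLT.induction with
    | _ δ ih =>
      intro a ha hδ
      rcases lt_trichotomy (rk (V_ l) r a) δ with hlt | heq | hgt
      · have hγ' : rk (V_ l) r a ≤ γ := hlt.le.trans (hδ ▸ he1 a)
        have hm := hc1 _ (hle _ hγ')
        have hab : Rl (V_ l) r (cd (rk (V_ l) r a)) a :=
          ⟨hm, ha, (hr _ hm _ ha).2 (by rw [he2 _ hγ', hδ]; exact hlt)⟩
        have h3 := rk_lt_of_rl hwf hab
        rw [ih _ hlt _ hm (he2 _ hγ')] at h3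
        exact absurd h3 (lt_irrefl _)
      · exact heq
      · obtain ⟨a', hab, h3⟩ := exists_rl_of_lt hwf hgt
        have h4 : e a' < δ := hδ ▸ (hr _ hab.1 _ hab.2.1).1 hab.2.2
        rw [ih _ h4 _ hab.1 rfl] at h3
        exact absurd h4 (not_lt.2 h3)
  refine ⟨r, ⟨hr0, hwf, fun a ha b hb c hc hab => ?_⟩, fun δ hδ =>
    ⟨cd δ, hc1 _ (hle _ hδ), hrk _ _ (hc1 _ (hle _ hδ)) (he2 _ hδ)⟩⟩
  rw [hr a ha b hb] at hab
  rw [hr a ha c hc, hr c hc b hb]
  rcases lt_or_ge (e a) (e c) with h1 | h1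
  · exact Or.inl h1
  · exact Or.inr (h1.trans_lt hab)

theorem wf_iff82 : WellFounded (Rl N r) ↔
    ∀ x, x ⊆ N → (∀ a, a ∈ x → ∃ c, c ∈ x ∧ pair c a ∈ r) → x = ∅ := by
  constructor
  · intro h x hx H
    by_contra hne
    obtain ⟨y, hy⟩ := (eq_empty_or_nonempty x).resolve_left hne
    obtain ⟨a, ha, hm⟩ := h.has_min {z | z ∈ x} ⟨y, hy⟩
    obtain ⟨c, hc, h1⟩ := H a ha
    exact hm c hc ⟨hx hc, hx ha, h1⟩
  · intro H
    refine WellFounded.wellFounded_iff_has_min.2 fun s hs => ?_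
    by_contra hc
    push Not at hc
    obtain ⟨y, hy⟩ := hs
    have h1 := H (ZFSet.sep (fun z => z ∈ s) N) sep_subset fun a ha => by
      obtain ⟨c, h2, h3⟩ := hc a (mem_sep.1 ha).2
      exact ⟨c, mem_sep.2 ⟨h3.1, h2⟩, h3.2.2⟩
    obtain ⟨c, -, h3⟩ := hc y hy
    exact notMem_empty y (h1 ▸ mem_sep.2 ⟨h3.2.1, hy⟩)

/-- Well-foundedness is the Pi-1 statement that every non-empty subset of `N` has a minimal
member. -/
theorem SW.map (hN : N.IsTransitive) (hk : El 1 N k) (h : SW N r) : SW N (k r) := by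
  refine ⟨hk.maps r h.sub, wf_iff82.2 ?_, ?_⟩
  · refine (hk.iff1 (b := false) (R := fun r => ∀ x, x ⊆ N →
      (∀ a, a ∈ x → ∃ c, c ∈ x ∧ pair c a ∈ r) → x = ∅) ?_ h.sub).1 (wf_iff82.1 h.wf)
    refine DL.all (D0.dl ?_)
    repeat' with_reducible first
      | exact T0.var _ | exact T0.empty | apply D0.ball hN | apply D0.bex hN | apply D0.imp
      | apply D0.pairMem hN | apply D0.eq hN
  · refine (hk.iff1 (b := true) (R := NT N) (D0.dl ?_) h.sub).1 h.nt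
    unfold NT
    repeat' with_reducible first
      | exact T0.var _ | exact T0.univ | apply D0.ball hN | apply D0.or | apply D0.imp
      | apply D0.pairMem hN

theorem SW.rk_le_map (hN : N.IsTransitive) (hk : El 1 N k) (h : SW N r) (ha : a ∈ N) :
    rk N r a ≤ rk N (k r) (k a) := by
  induction a using h.wf.induction with
  | _ a ih =>
    by_contra hc
    obtain ⟨c, h1, h2⟩ := exists_rl_of_lt h.wf (not_le.1 hc)
    have h3 : Rl N (k r) (k c) (k a) := ⟨hk.mem_univ hN h1.1, hk.mem_univ hN ha,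
      (hk.pair_mem_iff hN (hN c h1.1) (hN a ha) h.sub).2 h1.2.2⟩
    exact absurd (rk_lt_of_rl (h.map hN hk).wf h3) (not_lt.2 (h2.trans (ih c h1 h1.1)))

/-- `k` fixes the ordinal `γ`, in all codes. -/
def FixO (N : ZFSet.{u}) (k : ZFSet.{u} → ZFSet.{u}) (γ : Ordinal.{u + 1}) : Prop :=
  ∀ r a, SW N r → a ∈ N → rk N r a = γ → rk N (k r) (k a) = γ

end Pool.Agent.I1PSP.S3
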