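import Pool.Agent.Lib.MP_9c5ecf_lc.S3.An
import Pool.Agent.Lib.MP_9c5ecf_lc.S3.Rank

/-!
The normal form of Sigma-1 truth: a branch through a tree with a well-founded relation.
-/

namespace Pool.Agent.I1PSP.S3

open ZFSet Order

universe u

variable {l : Ordinal.{u}} {lam : ℕ → Ordinal.{u}} {N : ZFSet.{u}}
  {t s : (ℕ → ZFSet.{u}) → ZFSet.{u}}

/-- The converse relation. -/
def conv (N R : ZFSet.{u}) : ZFSet.{u} :=
  ZFSet.sep (fun p => ∃ a, a ∈ N ∧ ∃ c, c ∈ N ∧ p = pair a c ∧ pair c a ∈ R) N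

theorem T0.conv (hN : N.IsTransitive) (ht : T0 N t) : T0 N fun v => conv N (t v) := by
  refine T0.comp1 hN (f := S3.conv N) ?_ ht
  unfold S3.conv
  repeat' with_reducible first
    | exact T0.var _ | exact T0.univ | apply T0.sep | apply D0.bex hN | apply D0.and
    | apply D0.eqPair hN | apply D0.pairMem hN

theorem T0.ext (hN : N.IsTransitive) (ht : T0 N t) (hs : T0 N s) :
    T0 N fun v => I1PSP.ext N (t v) (s v) := by
  refine T0.comp2 hN (f := I1PSP.ext N) ?_ ht hs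
  unfold I1PSP.ext
  repeat' with_reducible first
    | exact T0.var _ | exact T0.univ | exact T0.empty | apply T0.sep
    | apply D0.bex hN | apply D0.and | apply D0.eqPair hN | apply D0.eq hN | apply T0.sec hN

/-- As `def_satE`. -/
theorem d0_satE (hN : N.IsTransitive) (φ : Fml) :
    ∀ (t : (ℕ → ZFSet.{u}) → ZFSet.{u}) (s : ℕ → (ℕ → ZFSet.{u}) → ZFSet.{u}), T0 N t →
      (∀ i, T0 N (s i)) → D0 N fun v => SatE N (t v) φ fun i => s i v := by
  induction φ with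
  | mem a b =>
    intro t s ht hs
    exact D0.bex hN (R := fun c v => sec N (t v) c = s a v) (hs b)
      (D0.eq hN (T0.sec hN ht.shift (T0.var 0)) (hs a).shift)
  | eq a b => intro t s _ hs; exact D0.eq hN (hs a) (hs b)
  | neg φ ih => intro t s ht hs; exact (ih t s ht hs).not
  | and φ ψ ih1 ih2 => intro t s ht hs; exact (ih1 t s ht hs).and (ih2 t s ht hs)
  | ex φ ih =>
    intro t s ht hs
    refine D0.bex hN (R := fun a v => SatE N (t v) φ (cons (sec N (t v) a) fun i => s i v))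
      T0.univ ?_
    refine ih (fun w => t fun i => w (i + 1))
      (fun k w => cons (sec N (t fun i => w (i + 1)) (w 0)) (fun k => s k fun i => w (i + 1)) k)
      ht.shift fun k => ?_
    cases k with
    | zero => exact T0.sec hN ht.shift (T0.var 0)
    | succ k => exact (hs k).shift

theorem pair_mem_conv (hpair : ∀ a ∈ N, ∀ b ∈ N, pair a b ∈ N) {R a c : ZFSet.{u}} (ha : a ∈ N)
    (hc : c ∈ N) : pair a c ∈ conv N R ↔ pair c a ∈ R := by
  rw [conv, mem_sep]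
  constructor
  · rintro ⟨-, a', -, c', -, h, h'⟩
    obtain ⟨rfl, rfl⟩ := pair_inj.1 h
    exact h'
  · exact fun h => ⟨hpair a ha c hc, a, ha, c, hc, rfl, h⟩

theorem pair_notMem_toZFSet (o : Ordinal.{u}) (a b : ZFSet.{u}) : pair a b ∉ o.toZFSet := by
  intro h
  obtain ⟨c, -, e⟩ := Ordinal.mem_toZFSet_iff.1 h
  have h1 : ({a} : ZFSet.{u}) ∈ c.toZFSet := by rw [e]; simp [pair]
  obtain ⟨d, hd, -⟩ := Ordinal.mem_toZFSet_iff.1 h1
  have h2 : (0 : Ordinal.{u}).toZFSet ∈ c.toZFSet :=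
    Ordinal.toZFSet_mem_toZFSet_iff.2 (lt_of_le_of_lt bot_le hd)
  rw [e, Ordinal.toZFSet_zero, pair, mem_pair] at h2
  rcases h2 with h2 | h2
  · exact notMem_empty a (h2 ▸ mem_singleton.2 rfl)
  · exact notMem_empty a (h2 ▸ mem_pair.2 (Or.inl rfl))

theorem satE_congr {E E' : ZFSet.{u}} (h : sec N E = sec N E') (φ : Fml) :
    ∀ w, SatE N E φ w ↔ SatE N E' φ w := by
  induction φ with
  | mem a b => intro w; simp only [SatE, h]
  | eq a b => intro w; rfl
  | neg φ ih => intro w; exact not_congr (ih w)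
  | and φ ψ ih1 ih2 => intro w; exact and_congr (ih1 w) (ih2 w)
  | ex φ ih => intro w; simp only [SatE, h, ih]

theorem ext_congr {E E' : ZFSet.{u}} (h : sec N E = sec N E') (A : ZFSet.{u}) :
    I1PSP.ext N E A = I1PSP.ext N E' A := by
  simp only [I1PSP.ext, h]

/-- The first-order clauses of `Good`. -/
def Gd (N E : ZFSet.{u}) : Prop :=
  (∀ a, a ∈ N → ∀ b, b ∈ N → ∀ d, d ∈ N → sec N E a = sec N E b → pair d a ∈ E → pair d b ∈ E) ∧
  ∀ x, x ∈ N → ∀ q, q ∈ N → q = pair ∅ x → sec N E q = I1PSP.ext N E x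

theorem D0.gd (hN : N.IsTransitive) (ht : T0 N t) : D0 N fun v => Gd N (t v) := by
  refine D0.comp1 hN (R := Gd N) ?_ ht
  unfold Gd
  repeat' with_reducible first
    | exact T0.var _ | exact T0.univ | exact T0.empty | apply D0.ball hN
    | apply D0.and | apply D0.imp | apply D0.eqPair hN | apply D0.eq hN | apply D0.pairMem hN
    | apply T0.sec hN | apply T0.ext hN

/-- With `E = conv N (sec N U ∅)` and `y = U ∩ l.toZFSet` let `R` say that the last two clauses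
of `Good N E` hold and `SatE N E φ (fun i => ext N E (cons y z i))`; the parameters are
`cons l.toZFSet z`. For `→` use `exists_good` and `U = y ∪ {pair ∅ (pair c a) : pair a c ∈ E}`
(a pair is not an ordinal: it is non-empty and does not contain `∅`); for `←` use
`Good.sound`. -/
theorem normal_d0 (hF : Fr l lam) {φ : Fml} (hφ : IsSigma1 φ) {z : ℕ → ZFSet.{u}}
    (hz : Val (V_ l) z) : ∃ R : (ℕ → ZFSet.{u}) → Prop, D0 (V_ l) R ∧
      (∀ y, y ⊆ l.toZFSet → Sat Set.univ φ (cons y z) → ∃ U, U ⊆ V_ l ∧ U ∩ l.toZFSet = y ∧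
        (∀ p ∈ U, p ∈ l.toZFSet ∨ ∃ q, p = pair ∅ q) ∧ R (cons U (cons l.toZFSet z)) ∧
          WellFounded (Rl (V_ l) (sec (V_ l) U ∅))) ∧
      ∀ U, U ⊆ V_ l → R (cons U (cons l.toZFSet z)) → WellFounded (Rl (V_ l) (sec (V_ l) U ∅)) →
        Sat Set.univ φ (cons (U ∩ l.toZFSet) z) := by
  have hN := isTransitive_vonNeumann l
  have hYN : l.toZFSet ⊆ V_ l := subset_vonNeumann.2 (Ordinal.rank_toZFSet l).le
  have hE : T0 (V_ l) fun v => conv (V_ l) (sec (V_ l) (v 0) ∅) :=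
    T0.conv hN (T0.sec hN (T0.var 0) T0.empty)
  refine ⟨fun v => Gd (V_ l) (conv (V_ l) (sec (V_ l) (v 0) ∅)) ∧
    SatE (V_ l) (conv (V_ l) (sec (V_ l) (v 0) ∅)) φ fun i =>
      I1PSP.ext (V_ l) (conv (V_ l) (sec (V_ l) (v 0) ∅))
        (cons (v 0 ∩ v 1) (fun i => v (i + 2)) i),
    (D0.gd hN hE).and (d0_satE hN φ _ _ hE fun i => T0.ext hN hE ?_), fun y hy h => ?_,
    fun U hU h hwf => ?_⟩
  · cases i with
    | zero => exact (T0.var 0).inter (T0.var 1)
    | succ i => exact T0.var (i + 2)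
  · obtain ⟨E, hEN, hG, hS⟩ := exists_good hN hF.pair_mem hF.ix_mem_N (cons y z)
      (hz.cons (hy.trans hYN))
    let U : ZFSet.{u} := y ∪ ZFSet.sep (fun p => ∃ a ∈ V_ l, ∃ c ∈ V_ l,
      p = pair ∅ (pair c a) ∧ pair a c ∈ E) (V_ l)
    have h1 : ∀ a ∈ V_ l, ∀ c ∈ V_ l, pair c a ∈ sec (V_ l) U ∅ ↔ pair a c ∈ E := by
      intro a ha c hc
      rw [mem_sec, mem_union, mem_sep]
      constructor
      · rintro ⟨-, h | ⟨-, a', -, c', -, h, h'⟩⟩
        · exact absurd (hy h) (pair_notMem_toZFSet _ _ _)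
        · obtain ⟨rfl, rfl⟩ := pair_inj.1 (pair_inj.1 h).2
          exact h'
      · exact fun h => ⟨hF.pair_mem _ hc _ ha, Or.inr ⟨hF.pair_mem _ hF.empty_mem _
          (hF.pair_mem _ hc _ ha), a, ha, c, hc, rfl, h⟩⟩
    have h2 : ∀ a c, pair a c ∈ conv (V_ l) (sec (V_ l) U ∅) ↔ pair a c ∈ E := by
      intro a c
      constructor
      · intro h
        have h3 : pair a c ∈ V_ l := sep_subset h
        have ha := fst_mem_of_pair_mem hN h3
        have hc := snd_mem_of_pair_mem hN h3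
        exact (h1 a ha c hc).1 ((pair_mem_conv hF.pair_mem ha hc).1 h)
      · intro h
        have ha := fst_mem_of_pair_mem hN (hEN h)
        have hc := snd_mem_of_pair_mem hN (hEN h)
        exact (pair_mem_conv hF.pair_mem ha hc).2 ((h1 a ha c hc).2 h)
    have h3 : sec (V_ l) (conv (V_ l) (sec (V_ l) U ∅)) = sec (V_ l) E := by
      funext a
      ext c
      rw [mem_sec, mem_sec, h2]
    have h4 : U ∩ l.toZFSet = y := by
      ext x
      rw [mem_inter, mem_union, mem_sep]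
      constructor
      · rintro ⟨h | ⟨-, a, -, c, -, rfl, -⟩, h'⟩
        · exact h
        · exact absurd h' (pair_notMem_toZFSet _ _ _)
      · exact fun h => ⟨Or.inl h, hy h⟩
    refine ⟨U, fun x hx => (mem_union.1 hx).elim (fun h => hYN (hy h)) fun h => sep_subset h, h4,
      fun p hp => ?_, ⟨⟨?_, ?_⟩, ?_⟩, ?_⟩
    · rcases mem_union.1 hp with h | h
      · exact Or.inl (hy h)
      · obtain ⟨-, a, -, c, -, rfl, -⟩ := mem_sep.1 h
        exact Or.inr ⟨_, rfl⟩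
    · intro a ha b hb d hd
      simp only [cons_zero, h2, h3]
      exact hG.2.1 a ha b hb d hd
    · intro x hx q hq e
      simp only [cons_zero, h3, ext_congr h3]
      exact hG.2.2 x hx q hq e
    · simp only [cons_zero, satE_congr h3, ext_congr h3]
      change SatE (V_ l) E φ fun i => I1PSP.ext (V_ l) E (cons (U ∩ l.toZFSet) z i)
      rw [h4]
      exact hS φ h
    · refine WellFounded.wellFounded_iff_has_min.2 fun S ⟨a, ha⟩ => ?_
      by_cases h0 : ZFSet.sep (fun x => x ∈ S) (V_ l) = ∅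
      · refine ⟨a, ha, fun c hc h5 => ?_⟩
        exact notMem_empty c (h0 ▸ mem_sep.2 ⟨h5.1, hc⟩)
      · obtain ⟨b, hb, h5⟩ := hG.1 _ sep_subset h0
        exact ⟨b, (mem_sep.1 hb).2, fun c hc h6 =>
          h5 c (mem_sep.2 ⟨h6.1, hc⟩) ((h1 b h6.2.1 c h6.1).1 h6.2.2)⟩
  · refine Good.sound hN (fun x hx => hF.pair_mem _ hF.empty_mem x hx)
      (E := conv (V_ l) (sec (V_ l) U ∅)) ⟨fun S hS hS' => ?_, h.1⟩ hφ
      (hz.cons ((inter_sub_left _ _).trans hU)) h.2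
    obtain ⟨a, ha⟩ : ∃ a, a ∈ S := by
      by_contra hc
      exact hS' (eq_empty _ |>.2 fun a ha => hc ⟨a, ha⟩)
    obtain ⟨b, hb, h1⟩ := hwf.has_min {x | x ∈ S} ⟨a, ha⟩
    exact ⟨b, hb, fun c hc h2 => h1 c hc ⟨hS hc, hS hb,
      (pair_mem_conv hF.pair_mem (hS hb) (hS hc)).1 h2⟩⟩

theorem pair_notMem_ord_nf (l : Ordinal.{u}) (a b : ZFSet.{u}) : pair a b ∉ l.toZFSet := by
  intro h
  have h1 : IsOrdinal (pair a b) := (isOrdinal_toZFSet l).mem h
  have h2 : ({a} : ZFSet.{u}) ∈ pair a b := mem_pair.2 (Or.inl rfl)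
  have h3 : a ∈ pair a b := h1.isTransitive _ h2 (mem_singleton.2 rfl)
  rcases mem_pair.1 h3 with h4 | h4
  · exact mem_irrefl a (Eq.subst (motive := fun x => a ∈ x) h4.symm (mem_singleton.2 rfl))
  · exact mem_irrefl a (Eq.subst (motive := fun x => a ∈ x) h4.symm (mem_pair.2 (Or.inl rfl)))

theorem ix_one_ne_nf : (∅ : ZFSet.{u}) ≠ ix 1 := fun h =>
  absurd (ix_injective (ix_zero.trans h)) (by decide)

/-- The part of `U` that does not code the witness. -/
noncomputable def cutNf (U : ZFSet.{u}) : ZFSet.{u} :=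
  ZFSet.sep (fun p => ¬ ∃ q, p = pair (ix 1) q) U

theorem mem_cutNf {U p : ZFSet.{u}} : p ∈ cutNf U ↔ p ∈ U ∧ ¬ ∃ q, p = pair (ix 1) q := mem_sep

theorem cutNf_inter (l : Ordinal.{u}) (U : ZFSet.{u}) : cutNf U ∩ l.toZFSet = U ∩ l.toZFSet := by
  ext p
  rw [mem_inter, mem_inter, mem_cutNf]
  refine ⟨fun h => ⟨h.1.1, h.2⟩, fun h => ⟨⟨h.1, ?_⟩, h.2⟩⟩
  rintro ⟨q, rfl⟩
  exact pair_notMem_ord_nf l _ _ h.2

theorem sec_cutNf (N U : ZFSet.{u}) : sec N (cutNf U) ∅ = sec N U ∅ := by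
  ext p
  rw [mem_sec, mem_sec, mem_cutNf]
  refine ⟨fun h => ⟨h.1, h.2.1⟩, fun h => ⟨h.1, h.2, ?_⟩⟩
  rintro ⟨q, hq⟩
  exact ix_one_ne_nf (pair_inj.1 hq).1

/-- From `normal_d0` and `D0.an`, with the closed relation `F`. For `U ⊆ N` let
`U0 = {p ∈ U : ¬ ∃ q, p = pair (ix 1) q}` and `C = sec N U (ix 1)`; let `G U` say `F U0 C`, and
`T = {pair w (U ∩ w) : w ∈ N, U ⊆ N, G U}`. Then `U0` and `U` have the same trace on the
ordinals and the same section at `∅`. -/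
theorem normal_form (hF : Fr l lam) {φ : Fml} (hφ : IsSigma1 φ) {z : ℕ → ZFSet.{u}}
    (hz : Val (V_ l) z) : ∃ T, T ⊆ V_ l ∧
      (∀ y, y ⊆ l.toZFSet → Sat Set.univ φ (cons y z) → ∃ U, U ⊆ V_ l ∧ U ∩ l.toZFSet = y ∧
        (∀ w ∈ V_ l, pair w (U ∩ w) ∈ T) ∧ WellFounded (Rl (V_ l) (sec (V_ l) U ∅))) ∧
      ∀ U, U ⊆ V_ l → (∀ n, ∃ w, w ∈ V_ l ∧ V_ (lam n) ⊆ w ∧ pair w (U ∩ w) ∈ T) →
        WellFounded (Rl (V_ l) (sec (V_ l) U ∅)) → Sat Set.univ φ (cons (U ∩ l.toZFSet) z) := by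
  obtain ⟨R, hR, h1, h2⟩ := normal_d0 hF hφ hz
  have hl : l.toZFSet ⊆ V_ l := subset_vonNeumann.2 (Ordinal.rank_toZFSet l).le
  obtain ⟨F, hCl, hFU⟩ := D0.an hF hR (hz.cons hl)
  refine ⟨ZFSet.sep (fun p => ∃ w U, U ⊆ V_ l ∧ F (cutNf U) (sec (V_ l) U (ix 1)) ∧
    p = pair w (U ∩ w)) (V_ l), sep_subset, ?_, ?_⟩
  · intro y hy hs
    obtain ⟨U, hU, hUy, hsh, hRU, hwf⟩ := h1 y hy hs
    obtain ⟨C, hC, hFC⟩ := (hFU U hU).1 hRU
    set U' : ZFSet.{u} := U ∪ ZFSet.sep (fun p => ∃ c, c ∈ C ∧ p = pair (ix 1) c) (V_ l) with hU'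
    have hno : ∀ q, pair (ix 1) q ∉ U := by
      intro q hq
      rcases hsh _ hq with h | ⟨q', h⟩
      · exact pair_notMem_ord_nf l _ _ h
      · exact ix_one_ne_nf (pair_inj.1 h).1.symm
    have hsub : U' ⊆ V_ l := fun p hp => (mem_union.1 hp).elim (fun h => hU h)
      fun h => (mem_sep.1 h).1
    have hcut : cutNf U' = U := by
      ext p
      rw [mem_cutNf, hU', mem_union, mem_sep]
      constructor
      · rintro ⟨h | ⟨-, c, -, hc⟩, h'⟩
        · exact h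
        · exact absurd ⟨c, hc⟩ h'
      · intro h
        refine ⟨Or.inl h, ?_⟩
        rintro ⟨q, rfl⟩
        exact hno q h
    have hsec : sec (V_ l) U' (ix 1) = C := by
      ext p
      rw [mem_sec, hU', mem_union, mem_sep]
      constructor
      · rintro ⟨-, h | ⟨-, c, hc, h⟩⟩
        · exact absurd h (hno p)
        · rw [(pair_inj.1 h).2]
          exact hc
      · intro h
        exact ⟨hC h, Or.inr ⟨hF.pair_mem _ (hF.ix_mem_N 1) _ (hC h), p, h, rfl⟩⟩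
    refine ⟨U', hsub, ?_, fun w hw => ?_, ?_⟩
    · rw [← cutNf_inter, hcut, hUy]
    · refine mem_sep.2 ⟨hF.pair_mem _ hw _ (hF.sub_mem w hw _ fun x hx => (mem_inter.1 hx).2),
        w, U', hsub, ?_, rfl⟩
      rw [hcut, hsec]
      exact hFC
    · rw [← sec_cutNf, hcut]
      exact hwf
  · intro U hU hT hwf
    have hcU : cutNf U ⊆ V_ l := fun p hp => hU (mem_cutNf.1 hp).1
    have hFC : F (cutNf U) (sec (V_ l) U (ix 1)) := by
      refine hCl _ _ fun d => ?_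
      obtain ⟨w, -, hdw, hp⟩ := hT d
      obtain ⟨-, w', U', -, hF', he⟩ := mem_sep.1 hp
      obtain ⟨rfl, he⟩ := pair_inj.1 he
      have key : ∀ p ∈ V_ (lam d), p ∈ U' ↔ p ∈ U := fun p hp =>
        ⟨fun h => (mem_inter.1 (he.symm ▸ mem_inter.2 ⟨h, hdw hp⟩ : p ∈ U ∩ w)).1,
          fun h => (mem_inter.1 (he ▸ mem_inter.2 ⟨h, hdw hp⟩ : p ∈ U' ∩ w)).1⟩
      refine ⟨_, _, hF', ?_, ?_⟩
      · ext p
        rw [mem_inter, mem_inter, mem_cutNf, mem_cutNf]
        exact and_congr_left fun hp => and_congr_left fun _ => key p hp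
      · ext p
        rw [mem_inter, mem_inter, mem_sec, mem_sec]
        exact and_congr_left fun hp => and_congr_right fun _ =>
          key _ (hF.pair_mem_W d _ (hF.ix_mem_W d 1) _ hp)
    rw [← cutNf_inter]
    refine h2 _ hcU ((hFU _ hcU).2 ⟨_, sec_subset, hFC⟩) ?_
    rw [sec_cutNf]
    exact hwf

end Pool.Agent.I1PSP.S3
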