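import Pool.Agent.Lib.MP_9c5ecf_lc.S3.Embed

/-!
Few embeddings whose ranges meet in a small set.
-/

namespace Pool.Agent.I1PSP.S3

open ZFSet Order

universe u

variable {l : Ordinal.{u}} {lam : ℕ → Ordinal.{u}}

/-- Call `k` good if it is `El 1`, the identity on `W m`, has all `z i` in its range and misses a
member of `W (m + 1)`. For `b` let `K m b` be a good map that misses `b` if there is one, and any
good map otherwise. If the set is not small, `Fr.exists_level` with `a = W (m + 1)` gives an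
injection `g` of `W (m + 1)` into sets that lie in the range of every good map. Take a good map
`k` that also has the graph of `g` in its range, `k g' = graph`. For `x ∈ W (m + 1)` the value
`g x` is some `k c`; the statement `∃ y ∈ N, pair y c ∈ g'` goes down, so `x = k y`. -/
theorem exists_null (hF : Fr l lam) (hR : Rich l lam) (z : ℕ → ZFSet.{u}) (hz : Val (V_ l) z) :
    ∃ K : ℕ → ZFSet.{u} → ZFSet.{u} → ZFSet.{u},
      (∀ m b, El 1 (V_ l) (K m b) ∧ (∀ x ∈ V_ (lam m), K m b x = x) ∧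
        ∀ i, ∃ A', A' ⊆ V_ l ∧ K m b A' = z i) ∧
      ∀ m, Sm (V_ l) {y | y ⊆ V_ l ∧ ∀ d, m ≤ d →
        ∃ x, x ⊆ V_ l ∧ K m (y ∩ V_ (lam d)) x = y ∩ V_ (lam d)} := by
  classical
  have hN := isTransitive_vonNeumann l
  let Gd : ℕ → (ZFSet.{u} → ZFSet.{u}) → Prop := fun m k =>
    El 1 (V_ l) k ∧ (∀ x ∈ V_ (lam m), k x = x) ∧ ∀ i, ∃ A', A' ⊆ V_ l ∧ k A' = z i
  have hex : ∀ m b, ∃ k, Gd m k ∧
      ((∃ x, x ⊆ V_ l ∧ k x = b) → ∀ k', Gd m k' → ∃ x, x ⊆ V_ l ∧ k' x = b) := by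
    intro m b
    by_cases h : ∀ k', Gd m k' → ∃ x, x ⊆ V_ l ∧ k' x = b
    · obtain ⟨k, h1, h2, h3, -⟩ := hR m z hz
      exact ⟨k, ⟨h1, h2, h3⟩, fun _ => h⟩
    · obtain ⟨k, hk⟩ := not_forall.1 h
      obtain ⟨h1, h2⟩ := Classical.not_imp.1 hk
      exact ⟨k, h1, fun h3 => absurd h3 h2⟩
  choose K hK hK' using hex
  refine ⟨K, hK, fun m => ?_⟩
  by_contra hs
  obtain ⟨d, g, hg, hinj⟩ := hF.exists_level (fun y hy => hy.1) hs (hF.W_mem (m + 1))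
  have hinj' : ∀ x ∈ V_ (lam (m + 1)), ∀ x' ∈ V_ (lam (m + 1)),
      g x ∩ V_ (lam (max d m)) = g x' ∩ V_ (lam (max d m)) → x = x' := by
    intro x hx x' hx' he
    refine hinj x hx x' hx' ?_
    rw [← inter_inter_of_subset (g x) (hF.W_mono (le_max_left d m)), he,
      inter_inter_of_subset (g x') (hF.W_mono (le_max_left d m))]
  obtain ⟨Γ, hΓ⟩ : ∃ Γ : ZFSet.{u}, Γ = ZFSet.sep (fun p => ∃ x, x ∈ V_ (lam (m + 1)) ∧
    p = pair x (g x ∩ V_ (lam (max d m)))) (V_ l) := ⟨_, rfl⟩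
  have hΓN : Γ ⊆ V_ l := by rw [hΓ]; exact sep_subset
  obtain ⟨k, h1, h2, h3, a, ha, hmiss⟩ := hR m (cons Γ z) (hz.cons hΓN)
  have hk : Gd m k := ⟨h1, h2, fun i => h3 (i + 1)⟩
  obtain ⟨g', hg', hkg⟩ := h3 0
  have hkg' : k g' = Γ := hkg
  obtain ⟨c, hc, hkc⟩ := hK' m _ ((hg a ha).2 (max d m) (le_max_right d m)) k hk
  have haN : a ∈ V_ l := hF.W_sub _ ha
  have hD : D0 (V_ l) fun v => ∃ y, y ∈ V_ l ∧ pair y (v 0) ∈ v 1 :=
    D0.bex hN (R := fun y v => pair y (v 0) ∈ v 1) T0.univ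
      (D0.pairMem hN (T0.var 2) (T0.var 0) (T0.var 1))
  have hup : ∃ y, y ∈ V_ l ∧ pair y (k c) ∈ k g' := by
    refine ⟨a, haN, ?_⟩
    rw [hkc, hkg', hΓ]
    exact mem_sep.2 ⟨hF.pair_mem _ haN _ (hF.sub_W_mem (inter_sub_right _ _)), a, ha, rfl⟩
  obtain ⟨y, hy, hyc⟩ := (h1.iff2 (b := true) (R := fun c g => ∃ y, y ∈ V_ l ∧ pair y c ∈ g)
    hD.dl hc hg').2 hup
  have h4 := (h1.pair_mem_iff hN (hN y hy) hc hg').2 hyc
  rw [hkc, hkg', hΓ] at h4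
  obtain ⟨-, x, hx, he⟩ := mem_sep.1 h4
  obtain ⟨e1, e2⟩ := pair_inj.1 he
  exact hmiss y (hN y hy) (e1.trans (hinj' a ha x hx e2).symm)

end Pool.Agent.I1PSP.S3
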