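import Pool.Agent.Lib.MP_9c5ecf_lc.S3.Root

/-!
A Sigma-3-elementary embedding gives roots above every level.
-/

namespace Pool.Agent.I1PSP.S3

open ZFSet Order

universe u

variable {l : Ordinal.{u}} {lam : ℕ → Ordinal.{u}} {j : ZFSet.{u} → ZFSet.{u}}

/-- From `rt_base` with `c = ∅`: code `Fx` interleaved with `A` and code `B`, decode as in
`R1.el2`; `j` fixes every `Fx` by `T0.fx` and `El.term`. -/
theorem roots_el2 (hF : Fr l lam) (hj : El 3 (V_ l) j)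
    (hjV : ∀ n, j (V_ (lam n)) = V_ (lam (n + 1))) (hfix : ∀ x ∈ V_ (lam 0), j x = x) :
    Roots (V_ l) (El 2 (V_ l)) j := by
  have hN := isTransitive_vonNeumann l
  refine roots_of_codes hF (R := R1 (V_ l) II) (fun C hC n => ?_) (fun i d => ?_)
    (fun A hA B hB => ?_) fun G' _ hG' hx' => hG'.el2 hF hx'
  · rw [hj.sec hN hC (hN _ (hF.ix_mem_N n)), hfix _ (hF.ix_mem_W 0 n)]
  · exact hj.term hN (T0.fx hN hF.pair_mem hF.empty_mem i d) (v := fun _ => V_ l)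
      fun _ => subset_rfl
  · obtain ⟨G', -, B', hB', h1, h2, h3, -⟩ := rt_base hF hj hjV hfix hA hB (hF.empty_mem_W 0)
    exact ⟨G', B', hB', h1.1, h1, h2, h3⟩

/-- A set fixed by `j` whose sections at the `ix (Nat.pair i d)` are the sets `Fx`: take
`exists_code` intersected with `prod II N`. -/
theorem exists_fx_code (hF : Fr l lam) (hj : El 3 (V_ l) j) (hfix : ∀ x ∈ V_ (lam 0), j x = x) :
    ∃ e, e ⊆ V_ l ∧ j e = e ∧ ∀ i d, sec (V_ l) e (ix (Nat.pair i d)) = Fx (V_ l) i d := by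
  have hN := isTransitive_vonNeumann l
  obtain ⟨C, hC, hs⟩ := exists_code hF.pair_mem ix_injective hF.ix_mem_N
    (fun n => Fx (V_ l) n.unpair.1 n.unpair.2) fun n => Fx_subset _ _ _
  have he : C ∩ ZFSet.prod II (V_ l) ⊆ V_ l := (inter_sub_left _ _).trans hC
  have hI : II.{u} ⊆ V_ l := hN _ hF.II_mem
  have hsec : ∀ n, sec (V_ l) (C ∩ ZFSet.prod II (V_ l)) (ix n) =
      Fx (V_ l) n.unpair.1 n.unpair.2 := fun n => by
    rw [← hs n]
    ext x
    rw [mem_sec, mem_sec, mem_inter]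
    exact and_congr_right fun hx =>
      and_iff_left (pair_mem_prod.2 ⟨mem_II.2 ⟨n, rfl⟩, hx⟩)
  have hP : ZFSet.prod II (V_ l) ⊆ V_ l := fun p hp => by
    obtain ⟨a, ha, x, hx, rfl⟩ := mem_prod.1 hp
    exact hF.pair_mem _ (hI ha) _ hx
  have hjP : j (ZFSet.prod II (V_ l)) = ZFSet.prod II (V_ l) := by
    have h1 : j (ZFSet.prod II (V_ l)) = ZFSet.prod (j II) (V_ l) :=
      hj.term hN (T0.prod hN hF.pair_mem (T0.var 0) T0.univ) (v := fun _ => II) fun _ => hI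
    rwa [hfix _ (hF.II_mem_W 0)] at h1
  have hkey : ∀ n, sec (V_ l) (j (C ∩ ZFSet.prod II (V_ l))) (ix n) =
      sec (V_ l) (C ∩ ZFSet.prod II (V_ l)) (ix n) := fun n => by
    have h1 := hj.sec hN he (hN _ (hF.ix_mem_N n))
    rw [hfix _ (hF.ix_mem_W 0 n)] at h1
    rw [← h1, hsec]
    exact hj.term hN (T0.fx hN hF.pair_mem hF.empty_mem _ _) (val_empty _)
  have hiff : ∀ p, p ∈ ZFSet.prod II (V_ l) →
      (p ∈ j (C ∩ ZFSet.prod II (V_ l)) ↔ p ∈ C ∩ ZFSet.prod II (V_ l)) := fun p hp => by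
    obtain ⟨a, ha, x, hx, rfl⟩ := mem_prod.1 hp
    obtain ⟨n, rfl⟩ := mem_II.1 ha
    have h1 : x ∈ sec (V_ l) (j (C ∩ ZFSet.prod II (V_ l))) (ix n) ↔
        x ∈ sec (V_ l) (C ∩ ZFSet.prod II (V_ l)) (ix n) := by rw [hkey]
    rwa [mem_sec, mem_sec, and_iff_right hx, and_iff_right hx] at h1
  have hsub : j (C ∩ ZFSet.prod II (V_ l)) ⊆ ZFSet.prod II (V_ l) := by
    have h1 := (hj.subset_iff hN he hP).2 (inter_sub_right _ _)
    rwa [hjP] at h1
  refine ⟨_, he, ?_, fun i d => by rw [hsec, Nat.unpair_pair]⟩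
  ext p
  exact ⟨fun hp => (hiff p (hsub hp)).1 hp, fun hp => (hiff p (mem_inter.1 hp).2).2 hp⟩

/-- The Pi-4 statement about `W` goes up along `j` (`dn4_of_roots`, `Dn.pi`). -/
theorem rt_level (hF : Fr l lam) (hj : El 3 (V_ l) j)
    (hjV : ∀ n, j (V_ (lam n)) = V_ (lam (n + 1))) (hfix : ∀ x ∈ V_ (lam 0), j x = x)
    {e : ZFSet.{u}} (he : e ⊆ V_ l) (hje : j e = e) (n : ℕ) :
    ∀ c, c ∈ V_ (lam n) → ∀ B, B ⊆ V_ l → Rt (V_ l) II e e B c (V_ (lam n)) := by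
  have hN := isTransitive_vonNeumann l
  induction n with
  | zero =>
    intro c hc B hB
    have h1 := rt_base hF hj hjV hfix he hB hc
    rwa [hje] at h1
  | succ n ih =>
    have hD : DL (V_ l) 4 false fun v => ∀ c, c ∈ v 2 → ∀ B, B ⊆ V_ l →
        Rt (V_ l) (v 0) (v 1) (v 1) B c (v 2) :=
      DL.ball hN (T0.var 2) (DL.all (DL.upF ((dl_rt hN hF.pair_mem).rename
        fun i => [2, 3, 3, 0, 1, 4].getD i 0)))
    have h1 : ∀ c, c ∈ j (V_ (lam n)) → ∀ B, B ⊆ V_ l →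
        Rt (V_ l) (j II) (j e) (j e) B c (j (V_ (lam n))) :=
      (dn4_of_roots hj.zero (roots_el2 hF hj hjV hfix)).pi hj hD
        (v := cons II (cons e fun _ => V_ (lam n)))
        (Val.cons (hN _ hF.II_mem) (Val.cons he fun _ => hF.W_sub n)) ih
    rwa [hjV, hje, hfix _ (hF.II_mem_W 0)] at h1

/-- Use `rt_level` at `m + 1` with `c = V_ (lam m)` and `B` a code of the sequence `A`. -/
theorem rich_of_el3 (hF : Fr l lam) (hj : El 3 (V_ l) j)
    (hjV : ∀ n, j (V_ (lam n)) = V_ (lam (n + 1))) (hfix : ∀ x ∈ V_ (lam 0), j x = x) :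
    Rich l lam := by
  intro m A hA
  have hN := isTransitive_vonNeumann l
  obtain ⟨e, he, hje, hs⟩ := exists_fx_code hF hj hfix
  obtain ⟨B, hB, hBs⟩ := exists_code hF.pair_mem ix_injective hF.ix_mem_N A hA
  obtain ⟨G, -, B', hB', hR, h1, h2, h3, a, ha, h4⟩ := rt_level hF hj hjV hfix he hje (m + 1) _
    (hF.W_mem_W (Nat.lt_succ_self m)) B hB
  have hk : El 2 (V_ l) (ap (V_ l) G) := hR.el2 hF fun i d => by
    rw [← hs, hR.1.ap_sec hF he (hF.ix_mem_N _), h1, hR.1.ap_ix hF]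
  refine ⟨ap (V_ l) G, hk.mono (by omega), fun x hx => ?_, fun i => ?_, a, ha, fun x hx H => ?_⟩
  · exact hR.1.ap_eq hF (hF.W_sub m hx) (hF.W_sub m hx) (h3 x hx)
  · refine ⟨sec (V_ l) B' (ix i), sec_subset, ?_⟩
    rw [hR.1.ap_sec hF hB' (hF.ix_mem_N _), h2, hR.1.ap_ix hF, hBs]
  · have hxN : x ∈ V_ l := (hk.mem_univ_iff hN hx).1 (H ▸ hF.W_sub _ ha)
    obtain ⟨a', ha', hp⟩ := hR.1.1 x hxN
    rw [hR.1.ap_eq hF hxN ha' hp] at H
    exact h4 x hxN (H ▸ hp)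

end Pool.Agent.I1PSP.S3
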