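import Pool.Agent.Lib.MP_9c5ecf_lc.S3.Card
import Pool.Agent.Lib.MP_9c5ecf_lc.S3.Rich
import Pool.Agent.Lib.MP_9c5ecf_lc.S3.FixPt
import Pool.Agent.Lib.MP_9c5ecf_lc.S3.Bound
import Pool.Agent.Lib.MP_9c5ecf_lc.S3.Null
import Pool.Agent.Lib.MP_9c5ecf_lc.S3.Capture
import Pool.Agent.Lib.MP_9c5ecf_lc.S3.Normal

/-!
The perfect set property for Sigma-1 sets from a Sigma-3-elementary embedding.
-/

namespace Pool.Agent.I1PSP.S3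

open ZFSet Order Cardinal

universe u

variable {l : Ordinal.{u}} {lam : ℕ → Ordinal.{u}} {j : ZFSet.{u} → ZFSet.{u}}

theorem psp_rich (hF : Fr l lam) (hR : Rich l lam) {φ : Fml} (hφ : IsSigma1 φ)
    {z : ℕ → ZFSet.{u}} (hz : Val (V_ l) z) {X : Set ZFSet.{u}}
    (hX : ∀ y, y ∈ X ↔ y ⊆ l.toZFSet ∧ Sat Set.univ φ (cons y z)) (hbig : ¬ Sm (V_ l) X) :
    HasPerfectEmbedding l X := by
  have hN := isTransitive_vonNeumann l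
  have hYN : l.toZFSet ⊆ V_ l := subset_vonNeumann.2 (Ordinal.rank_toZFSet l).le
  obtain ⟨T, hT, hT1, hT2⟩ := normal_form hF hφ hz
  obtain ⟨K, hK, hsm⟩ := exists_null hF hR (cons T (cons l.toZFSet fun d => V_ (lam d)))
    (Val.cons hT (Val.cons hYN hF.W_sub))
  have hι : #(ℕ × {x : ZFSet.{u} | x ∈ V_ l}) ≤ #{x : ZFSet.{u} | x ∈ V_ l} :=
    mk_le_of_injective (f := fun p => ⟨pair (ix p.1) p.2.1, hF.pair_mem _ (hF.ix_mem_N _) _ p.2.2⟩)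
      fun p q h => by
        obtain ⟨h1, h2⟩ := pair_inj.1 (congrArg Subtype.val h)
        exact Prod.ext (ix_injective h1) (Subtype.ext h2)
  let C : Set Ordinal.{u + 1} := {δ | ∀ m, ∀ b ∈ V_ l, FixO (V_ l) (K m b) δ}
  have hC : ∀ γ < Lam (V_ l), ∃ δ ∈ C, γ < δ ∧ δ < Lam (V_ l) := fun γ hγ => by
    obtain ⟨δ, h1, h2, h3⟩ := exists_fix hF hι (fun p => K p.1 p.2.1) (fun p => (hK _ _).1)
      (fun p => (hK _ _).2.1 _ (hF.II_mem_W _)) (fun p i => (hK _ _).2.1 _ (hF.ix_mem_W _ i)) hγ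
    exact ⟨δ, fun m b hb => h3 (m, ⟨b, hb⟩), h1, h2⟩
  by_contra hno
  refine hbig ((Sm.iUnion hF.pair_mem ix_injective hF.ix_mem_N hsm).mono fun y hy => ?_)
  obtain ⟨hy1, hy2⟩ := (hX y).1 hy
  obtain ⟨U, hU, hUy, hUT, hUwf⟩ := hT1 y hy1 hy2
  obtain ⟨ρ, β, hβC, hβ, hρ, hρ'⟩ := exists_label hF hC hUwf
  let σ : ℕ → Nd.{u} := fun n => ⟨V_ (lam n), U ∩ V_ (lam n), ρ⟩
  have hval : ∀ n, Valid (V_ l) T β (σ n) := fun n =>
    ⟨hF.W_mem n, inter_sub_right _ _, hUT _ (hF.W_mem n), fun a ha => (hρ a (hF.W_sub n ha)).2,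
      fun a ha b hb hab => hρ' a b ⟨hF.W_sub n ha, hF.W_sub n hb,
        mem_sec.2 ⟨hF.pair_mem _ (hF.W_sub n ha) _ (hF.W_sub n hb), (mem_inter.1 hab).1⟩⟩⟩
  have hdead : ¬ ∀ ξ < Lam (V_ l), Alive (V_ l) T l.toZFSet β ξ (σ 0) := by
    intro h
    obtain ⟨F, h1, h2, h3⟩ := perfect_of_alive hF hβ h (Idx lam) fun t => hF.W_mem _
    refine hno (embed_of_tree hF (fun s => F s ∩ l.toZFSet) (fun s hs => ?_)
      (fun s s' hs hs' n H => ?_) h3)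
    · obtain ⟨h4, h5, h6⟩ := h1 s hs
      exact ⟨inter_sub_right _ _, (hX _).2 ⟨inter_sub_right _ _, hT2 _ h4 h5 h6⟩⟩
    · have h4 := h2 s s' hs hs' n H
      ext x
      simp only [mem_inter]
      constructor
      · rintro ⟨⟨e1, e2⟩, e3⟩
        exact ⟨⟨(mem_inter.1 (h4 ▸ mem_inter.2 ⟨e1, e3⟩)).1, e2⟩, e3⟩
      · rintro ⟨⟨e1, e2⟩, e3⟩
        exact ⟨⟨(mem_inter.1 (h4.symm ▸ mem_inter.2 ⟨e1, e3⟩)).1, e2⟩, e3⟩
  have hne : ∃ ζ, ζ < Lam (V_ l) ∧ ∃ n, ¬ ∀ a ∈ V_ l, ∃ w, w ∈ V_ l ∧ a ⊆ w ∧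
      Fam (V_ l) T l.toZFSet β ζ (σ n) a w := by
    by_contra hc
    refine hdead fun ξ hξ => alive_iff.2 ⟨hval 0, fun ζ hζ => ?_⟩
    by_contra h
    exact hc ⟨ζ, hζ.trans hξ, 0, h⟩
  obtain ⟨ξ, ⟨hξ, n, hn⟩, hmin⟩ := wellFounded_lt.has_min _ hne
  have hal : ∀ d, Alive (V_ l) T l.toZFSet β ξ (σ d) := fun d =>
    alive_iff.2 ⟨hval d, fun ζ hζ => by
      by_contra h
      exact hmin ζ ⟨hζ.trans hξ, d, h⟩ hζ⟩
  push Not at hn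
  obtain ⟨a, ha, hn⟩ := hn
  obtain ⟨m₀, hm₀⟩ := hF.W_cof ha
  have hnm : n < max m₀ (n + 1) := (Nat.lt_succ_self n).trans_le (le_max_right _ _)
  have ham : a ∈ V_ (lam (max m₀ (n + 1))) := hF.W_mono (le_max_left _ _) hm₀
  refine ⟨max m₀ (n + 1), hy1.trans hYN, fun d hd => ?_⟩
  have hb : y ∩ V_ (lam d) ∈ V_ l := hF.sub_W_mem (inter_sub_right _ _)
  obtain ⟨hk, hfix, hcap⟩ := hK (max m₀ (n + 1)) (y ∩ V_ (lam d))
  obtain ⟨T', hT', eT⟩ := hcap 0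
  obtain ⟨Y', hY', eY⟩ := hcap 1
  obtain ⟨W', hW', eW⟩ := hcap (d + 2)
  simp only [cons_zero, cons_succ] at eT eW
  replace eY : K (max m₀ (n + 1)) (y ∩ V_ (lam d)) Y' = l.toZFSet := eY
  have hW'N : W' ∈ V_ l := (hk.mem_univ_iff hN hW').1 (by rw [eW]; exact hF.W_mem d)
  have haW : a ⊆ V_ (lam d) := (isTransitive_vonNeumann _ a ham).trans (hF.W_mono hd)
  obtain ⟨p, hp, e⟩ := capture hF hk hT' hY' hW'N hβ hξ (σ := σ n) (τ := σ d) (a := a)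
    (by rw [eT]; exact hval n) (hfix _ (hF.W_mem_W hnm)) (hfix _ (hF.sub_mem_W hnm (inter_sub_right _ _)))
    (fun x hx => hfix x (hF.W_mono hnm.le hx)) (hβC _ _ hb)
    (fun x hx => (hρ x (hF.W_sub n hx)).1 _ _ hb) ha (hfix a ham)
    (fun x hx => hfix x (isTransitive_vonNeumann _ a ham hx))
    (by rw [eT, eY, eW]; exact hn _ (hF.W_mem d) haW) eW.symm
    ⟨hF.W_mono (hnm.le.trans hd), inter_inter_of_subset _ (hF.W_mono (hnm.le.trans hd)),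
      fun _ _ => rfl⟩ (by rw [eT, eY]; exact hal d)
  refine ⟨p, hp, e.trans ?_⟩
  rw [eY, ← hUy]
  ext x
  simp only [σ, mem_inter]
  tauto

theorem psp3 (hI : IsSigmaElem 3 l j) {φ : Fml} (hφ : IsSigma1 φ) {z : ℕ → ZFSet.{u}}
    (hz : ∀ i, z i ∈ V_ (l + 1)) {X : Set ZFSet.{u}}
    (hX : ∀ y, y ∈ X ↔ y ⊆ l.toZFSet ∧ Sat Set.univ φ (cons y z))
    (hcard : #(Set.Iio l) < #X) : HasPerfectEmbedding l X := by
  obtain ⟨lam, hF, h1, h2, h3⟩ := hI.exists_fr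
  exact psp_rich hF (rich_of_el3 hF hI.toEl h1 h2) hφ (fun i => mem_V_succ.1 (hz i)) hX
    (not_sm hF.cof (hF.om.trans (hF.lt 0)) h3 hcard)

theorem isSigmaElem_of_isI1 (h : IsI1 l j) (n : ℕ) : IsSigmaElem n l j :=
  ⟨h.maps, fun φ _ => h.elem φ, h.nontrivial⟩

end Pool.Agent.I1PSP.S3
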