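import Pool.Agent.Lib.MP_9c5ecf_lc.S3.Rank

/-!
The tree of labelled approximations and its splitting rank.
-/

namespace Pool.Agent.I1PSP.S3

open ZFSet Order

universe u

/-- A node: a level `w`, a trace `s` on the level, and ordinal labels for the members of `w`. -/
structure Nd where
  w : ZFSet.{u}
  s : ZFSet.{u}
  ρ : ZFSet.{u} → Ordinal.{u + 1}

/-- The node lies in the tree `T` and its labels are monotone and below `β`. -/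
structure Valid (N T : ZFSet.{u}) (β : Ordinal.{u + 1}) (σ : Nd.{u}) : Prop where
  mem : σ.w ∈ N
  sub : σ.s ⊆ σ.w
  tree : pair σ.w σ.s ∈ T
  lt : ∀ a ∈ σ.w, σ.ρ a < β
  edge : ∀ a ∈ σ.w, ∀ b ∈ σ.w, pair ∅ (pair a b) ∈ σ.s → σ.ρ a < σ.ρ b

/-- `τ` extends `σ`. -/
structure Ext (σ τ : Nd.{u}) : Prop where
  sub : σ.w ⊆ τ.w
  trace : τ.s ∩ σ.w = σ.s
  lab : ∀ a ∈ σ.w, τ.ρ a = σ.ρ a

/-- The node has splitting rank at least `ξ`. -/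
inductive Alive (N T Y : ZFSet.{u}) (β : Ordinal.{u + 1}) : Ordinal.{u + 1} → Nd.{u} → Prop
  | mk (ξ : Ordinal.{u + 1}) (σ : Nd.{u}) (w : Ordinal.{u + 1} → ZFSet.{u} → ZFSet.{u})
      (τ : Ordinal.{u + 1} → ZFSet.{u} → ZFSet.{u} → Nd.{u}) : Valid N T β σ →
      (∀ ζ < ξ, ∀ a ∈ N, w ζ a ∈ N ∧ a ⊆ w ζ a ∧
        (∀ x ∈ a, (τ ζ a x).w = w ζ a ∧ Ext σ (τ ζ a x)) ∧
          ∀ x ∈ a, ∀ y ∈ a, (τ ζ a x).s ∩ Y = (τ ζ a y).s ∩ Y → x = y) →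
      (∀ ζ, ζ < ξ → ∀ a, a ∈ N → ∀ x, x ∈ a → Alive N T Y β ζ (τ ζ a x)) → Alive N T Y β ξ σ

/-- A family, indexed by `a`, of extensions of `σ` on the level `w` of rank at least `ζ` with
different traces on `Y`. -/
def Fam (N T Y : ZFSet.{u}) (β ζ : Ordinal.{u + 1}) (σ : Nd.{u}) (a w : ZFSet.{u}) : Prop :=
  ∃ τ : ZFSet.{u} → Nd.{u}, (∀ x ∈ a, (τ x).w = w ∧ Ext σ (τ x) ∧ Alive N T Y β ζ (τ x)) ∧
    ∀ x ∈ a, ∀ y ∈ a, (τ x).s ∩ Y = (τ y).s ∩ Y → x = y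

variable {N T Y : ZFSet.{u}} {β ξ ζ : Ordinal.{u + 1}} {σ σ' τ : Nd.{u}} {a w : ZFSet.{u}}

theorem alive_iff : Alive N T Y β ξ σ ↔ Valid N T β σ ∧
    ∀ ζ < ξ, ∀ a ∈ N, ∃ w, w ∈ N ∧ a ⊆ w ∧ Fam N T Y β ζ σ a w := by
  constructor
  · rintro ⟨ξ, σ, w, τ, h1, h2, h3⟩
    refine ⟨h1, fun ζ hζ a ha => ?_⟩
    obtain ⟨h4, h5, h6, h7⟩ := h2 ζ hζ a ha
    exact ⟨_, h4, h5, τ ζ a, fun x hx => ⟨(h6 x hx).1, (h6 x hx).2, h3 ζ hζ a ha x hx⟩, h7⟩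
  · rintro ⟨h1, h2⟩
    have : Nonempty Nd.{u} := ⟨σ⟩
    choose! w h3 h4 τ h5 h6 using h2
    exact .mk ξ σ w τ h1 (fun ζ hζ a ha => ⟨h3 ζ hζ a ha, h4 ζ hζ a ha,
      fun x hx => ⟨(h5 ζ hζ a ha x hx).1, (h5 ζ hζ a ha x hx).2.1⟩, h6 ζ hζ a ha⟩)
      fun ζ hζ a ha x hx => (h5 ζ hζ a ha x hx).2.2

theorem Alive.valid (h : Alive N T Y β ξ σ) : Valid N T β σ := (alive_iff.1 h).1

theorem Alive.mono (h : Alive N T Y β ξ σ) (hζ : ζ ≤ ξ) : Alive N T Y β ζ σ :=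
  alive_iff.2 ⟨h.valid, fun η hη => (alive_iff.1 h).2 η (hη.trans_le hζ)⟩

theorem Fam.mono (h : Fam N T Y β ξ σ a w) (hζ : ζ ≤ ξ) : Fam N T Y β ζ σ a w := by
  obtain ⟨τ, h1, h2⟩ := h
  exact ⟨τ, fun x hx => ⟨(h1 x hx).1, (h1 x hx).2.1, (h1 x hx).2.2.mono hζ⟩, h2⟩

/-- Nodes that differ only in labels outside the level. -/
structure Same (σ σ' : Nd.{u}) : Prop where
  w : σ'.w = σ.w
  s : σ'.s = σ.s
  lab : ∀ a ∈ σ.w, σ'.ρ a = σ.ρ a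

theorem Same.symm (h : Same σ σ') : Same σ' σ :=
  ⟨h.w.symm, h.s.symm, fun a ha => (h.lab a (h.w ▸ ha)).symm⟩

theorem Same.valid (h : Same σ σ') (H : Valid N T β σ) : Valid N T β σ' := by
  refine ⟨h.w ▸ H.mem, h.w ▸ h.s ▸ H.sub, h.w ▸ h.s ▸ H.tree, fun a ha => ?_,
    fun a ha b hb hab => ?_⟩
  · rw [h.w] at ha
    rw [h.lab a ha]
    exact H.lt a ha
  · rw [h.w] at ha hb
    rw [h.s] at hab
    rw [h.lab a ha, h.lab b hb]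
    exact H.edge a ha b hb hab

theorem Same.ext_left (h : Same σ σ') (H : Ext σ τ) : Ext σ' τ :=
  ⟨h.w ▸ H.sub, by rw [h.w, h.s]; exact H.trace,
    fun a ha => (H.lab a (h.w ▸ ha)).trans (h.lab a (h.w ▸ ha)).symm⟩

theorem Same.ext_right (h : Same σ σ') (H : Ext τ σ) : Ext τ σ' :=
  ⟨h.w ▸ H.sub, h.s ▸ H.trace, fun a ha => (h.lab a (H.sub ha)).trans (H.lab a ha)⟩

theorem Same.fam (h : Same σ σ') (H : Fam N T Y β ζ σ a w) : Fam N T Y β ζ σ' a w := by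
  obtain ⟨τ, h1, h2⟩ := H
  exact ⟨τ, fun x hx => ⟨(h1 x hx).1, h.ext_left (h1 x hx).2.1, (h1 x hx).2.2⟩, h2⟩

theorem Same.alive (h : Same σ σ') (H : Alive N T Y β ξ σ) : Alive N T Y β ξ σ' :=
  alive_iff.2 ⟨h.valid H.valid, fun ζ hζ a ha => by
    obtain ⟨w, h1, h2, h3⟩ := (alive_iff.1 H).2 ζ hζ a ha
    exact ⟨w, h1, h2, h.fam h3⟩⟩

end Pool.Agent.I1PSP.S3
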