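import Pool.Agent.Lib.MP_9c5ecf_lc.S3.El

/-!
Finitely many operations and countably many fixed sets give elementarity for bounded formulas.
-/

namespace Pool.Agent.I1PSP.S3

open ZFSet

universe u

/-- The set of second coordinates. -/
def proj (N A : ZFSet.{u}) : ZFSet.{u} := ZFSet.sep (fun t => ∃ x, x ∈ N ∧ pair x t ∈ A) N

theorem mem_proj {N A t : ZFSet.{u}} : t ∈ proj N A ↔ t ∈ N ∧ ∃ x, x ∈ N ∧ pair x t ∈ A :=
  mem_sep

theorem T0.proj {N : ZFSet.{u}} {t : (ℕ → ZFSet.{u}) → ZFSet.{u}} (hN : N.IsTransitive)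
    (ht : T0 N t) : T0 N fun v => proj N (t v) :=
  T0.sep (R := fun y v => ∃ x, x ∈ N ∧ pair x y ∈ t v) T0.univ
    (D0.exN hN (D0.pairMem hN ht.shift.shift (T0.var 0) (T0.var 1)))

/-- Preservation of the basic operations on subsets of `N`. -/
structure Ops (N : ZFSet.{u}) (k : ZFSet.{u} → ZFSet.{u}) : Prop where
  maps : ∀ A, A ⊆ N → k A ⊆ N
  univ : k N = N
  mem_iff : ∀ A, A ⊆ N → ∀ B, B ⊆ N → (k A ∈ k B ↔ A ∈ B)
  inter : ∀ A, A ⊆ N → ∀ B, B ⊆ N → k (A ∩ B) = k A ∩ k B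
  diff : ∀ A, A ⊆ N → ∀ B, B ⊆ N → k (A \ B) = k A \ k B
  prod : ∀ A, A ⊆ N → ∀ B, B ⊆ N → k (ZFSet.prod A B) = ZFSet.prod (k A) (k B)
  proj : ∀ A, A ⊆ N → k (proj N A) = proj N (k A)

/-- Nested pairs. -/
def tup : ℕ → (ℕ → ZFSet.{u}) → ZFSet.{u}
  | 0, _ => ∅
  | d + 1, x => pair (x 0) (tup d fun i => x (i + 1))

/-- The tuples of length `d` whose first member lies in the member number `i + 1` (all tuples if
there is no such member). -/
def Fx (N : ZFSet.{u}) (i d : ℕ) : ZFSet.{u} :=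
  ZFSet.sep (fun t => ∃ x : ℕ → ZFSet.{u}, (∀ e, x e ∈ N) ∧ t = tup d x ∧
    (i + 1 < d → x 0 ∈ x (i + 1))) N

theorem Fx_subset (N : ZFSet.{u}) (i d : ℕ) : Fx N i d ⊆ N := sep_subset

variable {N : ZFSet.{u}} {k : ZFSet.{u} → ZFSet.{u}}

theorem tup_mem_fx (hpair : ∀ a ∈ N, ∀ b ∈ N, pair a b ∈ N) (h0 : ∅ ∈ N) (d : ℕ) :
    ∀ x : ℕ → ZFSet.{u}, (∀ e, x e ∈ N) → tup d x ∈ N := by
  induction d with
  | zero => exact fun _ _ => h0
  | succ d ih => exact fun x hx => hpair _ (hx 0) _ (ih _ fun e => hx _)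

/-- `t` is a tuple of length `d` whose member number `i`, if there is one, contains `a`. -/
def MemAtFx (N : ZFSet.{u}) (d i : ℕ) (t a : ZFSet.{u}) : Prop :=
  ∃ x : ℕ → ZFSet.{u}, (∀ e, x e ∈ N) ∧ t = tup d x ∧ (i < d → a ∈ x i)

theorem split_fx (hpair : ∀ a ∈ N, ∀ b ∈ N, pair a b ∈ N) (h0 : ∅ ∈ N) (d : ℕ) (t : ZFSet.{u})
    (R : ZFSet.{u} → (ℕ → ZFSet.{u}) → Prop) :
    (∃ x : ℕ → ZFSet.{u}, (∀ e, x e ∈ N) ∧ t = tup (d + 1) x ∧ R (x 0) fun e => x (e + 1)) ↔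
      ∃ y, y ∈ N ∧ ∃ s, s ∈ N ∧ t = pair y s ∧
        ∃ x : ℕ → ZFSet.{u}, (∀ e, x e ∈ N) ∧ s = tup d x ∧ R y x := by
  constructor
  · rintro ⟨x, hx, rfl, h⟩
    exact ⟨x 0, hx 0, _, tup_mem_fx hpair h0 d _ fun e => hx (e + 1), rfl, _, fun e => hx _, rfl, h⟩
  · rintro ⟨y, hy, s, -, rfl, x, hx, rfl, h⟩
    refine ⟨fun e => Nat.casesOn e y x, fun e => ?_, rfl, h⟩
    cases e with
    | zero => exact hy
    | succ e => exact hx e

theorem d0_memAtFx (hN : N.IsTransitive) (hpair : ∀ a ∈ N, ∀ b ∈ N, pair a b ∈ N) (h0 : ∅ ∈ N)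
    (d : ℕ) : ∀ i, D0 N fun v => MemAtFx N d i (v 0) (v 1) := by
  induction d with
  | zero =>
    intro i
    refine (D0.eq hN (T0.var 0) T0.empty).congr fun v _ => ⟨?_, fun h => ?_⟩
    · rintro ⟨x, -, h, -⟩
      exact h
    · exact ⟨fun _ => ∅, fun _ => h0, h, fun h => absurd h (Nat.not_lt_zero _)⟩
  | succ d ih =>
    intro i
    cases i with
    | zero =>
      refine (D0.exN hN (R := fun y v => ∃ s, s ∈ N ∧ v 0 = pair y s ∧ v 1 ∈ y ∧
        MemAtFx N d d s s) (D0.exN hN ((D0.eqPair hN (T0.var 2) (T0.var 1) (T0.var 0)).and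
          ((D0.mem hN (T0.var 3) (T0.var 1)).and
            (D0.comp2 hN (ih d) (T0.var 0) (T0.var 0)))))).congr fun v _ => ?_
      refine (split_fx hpair h0 d (v 0) fun y _ => 0 < d + 1 → v 1 ∈ y).trans ?_
      refine exists_congr fun y => and_congr_right fun _ => exists_congr fun s =>
        and_congr_right fun _ => and_congr_right fun _ => ⟨?_, ?_⟩
      · rintro ⟨x, hx, e, h⟩
        exact ⟨h d.succ_pos, x, hx, e, fun h => absurd h (lt_irrefl _)⟩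
      · rintro ⟨h, x, hx, e, -⟩
        exact ⟨x, hx, e, fun _ => h⟩
    | succ i =>
      refine (D0.exN hN (R := fun y v => ∃ s, s ∈ N ∧ v 0 = pair y s ∧ MemAtFx N d i s (v 1))
        (D0.exN hN ((D0.eqPair hN (T0.var 2) (T0.var 1) (T0.var 0)).and
          (D0.comp2 hN (ih i) (T0.var 0) (T0.var 3))))).congr fun v _ => ?_
      refine (split_fx hpair h0 d (v 0) fun _ x => i + 1 < d + 1 → v 1 ∈ x i).trans ?_
      simp only [MemAtFx, Nat.add_lt_add_iff_right]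

/-- Show by induction on `d` that `t` is a tuple of length `d` of members of `N` is `D0` in `t`,
by induction on `i` that `a` is the member number `i` of the nested pair `t` is `D0` in `t, a`,
and rewrite membership in `Fx` with these. -/
theorem T0.fx (hN : N.IsTransitive) (hpair : ∀ a ∈ N, ∀ b ∈ N, pair a b ∈ N) (h0 : ∅ ∈ N)
    (i d : ℕ) : T0 N fun _ => Fx N i d := by
  refine T0.sep (R := fun t _ => ∃ x : ℕ → ZFSet.{u}, (∀ e, x e ∈ N) ∧ t = tup d x ∧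
    (i + 1 < d → x 0 ∈ x (i + 1))) T0.univ ?_
  cases d with
  | zero =>
    refine (D0.eq hN (T0.var 0) T0.empty).congr fun v _ => ⟨?_, fun h => ?_⟩
    · rintro ⟨x, -, h, -⟩
      exact h
    · exact ⟨fun _ => ∅, fun _ => h0, h, fun h => absurd h (Nat.not_lt_zero _)⟩
  | succ d =>
    refine (D0.exN hN (R := fun y v => ∃ s, s ∈ N ∧ v 0 = pair y s ∧ MemAtFx N d i s y)
      (D0.exN hN ((D0.eqPair hN (T0.var 2) (T0.var 1) (T0.var 0)).and
        (D0.comp2 hN (d0_memAtFx hN hpair h0 d i) (T0.var 0) (T0.var 1))))).congr fun v _ => ?_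
    refine (split_fx hpair h0 d (v 0) fun y x => i + 1 < d + 1 → y ∈ x i).trans ?_
    simp only [MemAtFx, Nat.add_lt_add_iff_right]

/-- The assignment given by a tuple followed by parameters. -/
def env45 (d : ℕ) (x B : ℕ → ZFSet.{u}) : ℕ → ZFSet.{u} :=
  fun e => if e < d then x e else B (e - d)

/-- The tuples that satisfy a relation. -/
def D45 (N : ZFSet.{u}) (P : (ℕ → ZFSet.{u}) → Prop) (d : ℕ) (B : ℕ → ZFSet.{u}) : ZFSet.{u} :=
  ZFSet.sep (fun t => ∃ x : ℕ → ZFSet.{u}, (∀ e, x e ∈ N) ∧ t = tup d x ∧ P (env45 d x B)) N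

/-- The relation is preserved at length `d`. -/
def Pr45 (N : ZFSet.{u}) (k : ZFSet.{u} → ZFSet.{u}) (P : (ℕ → ZFSet.{u}) → Prop) (d : ℕ) : Prop :=
  ∀ B, Val N B → k (D45 N P d B) = D45 N P d fun i => k (B i)

theorem env45_cons (d : ℕ) (y : ZFSet.{u}) (x B : ℕ → ZFSet.{u}) :
    env45 (d + 1) (cons y x) B = cons y (env45 d x B) := by
  funext e
  cases e with
  | zero => exact if_pos (Nat.succ_pos d)
  | succ e => simp only [env45, cons, Nat.add_lt_add_iff_right, Nat.add_sub_add_right]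

theorem cons_eta45 (x : ℕ → ZFSet.{u}) : cons (x 0) (fun i => x (i + 1)) = x := by
  funext e
  cases e <;> rfl

theorem tup_inj45 : ∀ (d : ℕ) {x y : ℕ → ZFSet.{u}}, tup d x = tup d y → ∀ e < d, x e = y e
  | 0, _, _, _, _, he => absurd he (Nat.not_lt_zero _)
  | _ + 1, _, _, h, 0, _ => (pair_inj.1 h).1
  | d + 1, _, _, h, e + 1, he => tup_inj45 d (pair_inj.1 h).2 e (Nat.lt_of_succ_lt_succ he)

theorem env45_congr {d : ℕ} {x y : ℕ → ZFSet.{u}} (h : tup d x = tup d y) (B : ℕ → ZFSet.{u}) :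
    env45 d x B = env45 d y B := by
  funext e
  unfold env45
  split_ifs with he
  · exact tup_inj45 d h e he
  · rfl

theorem tup_mem45 (hpair : ∀ a ∈ N, ∀ b ∈ N, pair a b ∈ N) (h0 : ∅ ∈ N) :
    ∀ (d : ℕ) {x : ℕ → ZFSet.{u}}, (∀ e, x e ∈ N) → tup d x ∈ N
  | 0, _, _ => h0
  | d + 1, _, h => hpair _ (h 0) _ (tup_mem45 hpair h0 d fun e => h (e + 1))

theorem cons_mem45 {y : ZFSet.{u}} {x : ℕ → ZFSet.{u}} (hy : y ∈ N) (hx : ∀ e, x e ∈ N) :
    ∀ e, cons y x e ∈ N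
  | 0 => hy
  | e + 1 => hx e

theorem D45_subset {P : (ℕ → ZFSet.{u}) → Prop} {d : ℕ} {B : ℕ → ZFSet.{u}} : D45 N P d B ⊆ N :=
  sep_subset

theorem Fx_eq45 (d : ℕ) (B : ℕ → ZFSet.{u}) : Fx N d d = D45 N (fun _ => True) d B := by
  unfold Fx D45
  congr 1
  funext t
  have : ¬ d + 1 < d := by omega
  simp only [this, false_imp_iff]

section closure

variable {P Q : (ℕ → ZFSet.{u}) → Prop} {d : ℕ}

theorem mem_D45 (hpair : ∀ a ∈ N, ∀ b ∈ N, pair a b ∈ N) (h0 : ∅ ∈ N) {B : ℕ → ZFSet.{u}}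
    {t : ZFSet.{u}} :
    t ∈ D45 N P d B ↔ ∃ x : ℕ → ZFSet.{u}, (∀ e, x e ∈ N) ∧ t = tup d x ∧ P (env45 d x B) :=
  mem_sep.trans ⟨fun h => h.2, fun h => ⟨by
    obtain ⟨x, hx, rfl, -⟩ := h
    exact tup_mem45 hpair h0 d hx, h⟩⟩

theorem Pr45.congr (hN : N.IsTransitive) (hk : Ops N k) (h : Pr45 N k P d)
    (H : ∀ v, Val N v → (Q v ↔ P v)) : Pr45 N k Q d := by
  have key : ∀ B, Val N B → D45 N Q d B = D45 N P d B := fun B hB => by
    unfold D45
    congr 1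
    funext t
    refine propext (exists_congr fun x => and_congr_right fun hx => and_congr_right fun _ =>
      H _ fun e => ?_)
    unfold env45
    split_ifs
    · exact hN _ (hx e)
    · exact hB _
  intro B hB
  rw [key B hB, key _ fun i => hk.maps _ (hB i), h B hB]

theorem Pr45.not (hpair : ∀ a ∈ N, ∀ b ∈ N, pair a b ∈ N) (h0 : ∅ ∈ N) (hk : Ops N k)
    (hF : ∀ i d, k (Fx N i d) = Fx N i d) (h : Pr45 N k P d) : Pr45 N k (fun v => ¬ P v) d := by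
  have key : ∀ B, D45 N (fun v => ¬ P v) d B = Fx N d d \ D45 N P d B := fun B => by
    ext t
    rw [mem_sdiff, Fx_eq45 d B]
    simp only [mem_D45 hpair h0]
    constructor
    · rintro ⟨x, hx, rfl, hp⟩
      exact ⟨⟨x, hx, rfl, trivial⟩, fun ⟨y, _, e, hq⟩ => hp (env45_congr e B ▸ hq)⟩
    · rintro ⟨⟨x, hx, rfl, -⟩, hn⟩
      exact ⟨x, hx, rfl, fun hp => hn ⟨x, hx, rfl, hp⟩⟩
  intro B hB
  rw [key, key, hk.diff _ (Fx_subset _ _ _) _ D45_subset, hF, h B hB]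

theorem Pr45.and (hpair : ∀ a ∈ N, ∀ b ∈ N, pair a b ∈ N) (h0 : ∅ ∈ N) (hk : Ops N k)
    (h : Pr45 N k P d) (h' : Pr45 N k Q d) : Pr45 N k (fun v => P v ∧ Q v) d := by
  have key : ∀ B, D45 N (fun v => P v ∧ Q v) d B = D45 N P d B ∩ D45 N Q d B := fun B => by
    ext t
    rw [mem_inter]
    simp only [mem_D45 hpair h0]
    constructor
    · rintro ⟨x, hx, rfl, hp, hq⟩
      exact ⟨⟨x, hx, rfl, hp⟩, x, hx, rfl, hq⟩
    · rintro ⟨⟨x, hx, rfl, hp⟩, y, -, e, hq⟩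
      exact ⟨x, hx, rfl, hp, env45_congr e B ▸ hq⟩
  intro B hB
  rw [key, key, hk.inter _ D45_subset _ D45_subset, h B hB, h' B hB]

theorem Pr45.ex (hpair : ∀ a ∈ N, ∀ b ∈ N, pair a b ∈ N) (h0 : ∅ ∈ N) (hk : Ops N k)
    (h : Pr45 N k P (d + 1)) : Pr45 N k (fun v => ∃ y, y ∈ N ∧ P (cons y v)) d := by
  have key : ∀ B, D45 N (fun v => ∃ y, y ∈ N ∧ P (cons y v)) d B =
      proj N (D45 N P (d + 1) B) := fun B => by
    ext t
    rw [mem_proj]
    simp only [mem_D45 hpair h0]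
    constructor
    · rintro ⟨x, hx, rfl, y, hy, hp⟩
      exact ⟨tup_mem45 hpair h0 d hx, y, hy, cons y x, cons_mem45 hy hx, rfl,
        env45_cons d y x B ▸ hp⟩
    · rintro ⟨-, y, hy, x, hx, e, hp⟩
      obtain ⟨e1, e2⟩ := pair_inj.1 e
      rw [← cons_eta45 x, env45_cons] at hp
      exact ⟨fun i => x (i + 1), fun i => hx _, e2, x 0, hx 0, hp⟩
  intro B hB
  rw [key, key, hk.proj _ D45_subset, h B hB]

theorem Ops.empty45 (hk : Ops N k) : k ∅ = ∅ := by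
  have e : N \ N = ∅ := by
    ext t
    simp
  have := hk.diff N (subset_refl N) N (subset_refl N)
  rwa [hk.univ, e] at this

theorem pr45_mem0 (hpair : ∀ a ∈ N, ∀ b ∈ N, pair a b ∈ N) (h0 : ∅ ∈ N) (hk : Ops N k)
    (hF : ∀ i d, k (Fx N i d) = Fx N i d) (i d : ℕ) :
    Pr45 N k (fun v => v 0 ∈ v (i + 1)) (d + 1) := by
  rcases lt_or_ge i d with hi | hi
  · have key : ∀ B, D45 N (fun v => v 0 ∈ v (i + 1)) (d + 1) B = Fx N i (d + 1) := fun B => by
      unfold Fx D45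
      congr 1
      funext t
      have h1 : i + 1 < d + 1 := by omega
      simp only [env45, h1, Nat.succ_pos, if_true, true_imp_iff]
    intro B _
    rw [key, key, hF]
  · have key : ∀ B, Val N B → D45 N (fun v => v 0 ∈ v (i + 1)) (d + 1) B =
        ZFSet.prod (B (i - d)) (Fx N d d) := fun B hB => by
      have h1 : ¬ i < d := by omega
      ext t
      rw [mem_prod, Fx_eq45 d B]
      simp only [mem_D45 hpair h0]
      constructor
      · rintro ⟨x, hx, rfl, hp⟩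
        rw [← cons_eta45 x, env45_cons] at hp
        refine ⟨x 0, ?_, _, ⟨fun e => x (e + 1), fun e => hx _, rfl, trivial⟩, rfl⟩
        simpa only [cons, env45, h1, if_false] using hp
      · rintro ⟨a, ha, b, ⟨x, hx, rfl, -⟩, rfl⟩
        refine ⟨cons a x, cons_mem45 (hB _ ha) hx, rfl, ?_⟩
        rw [env45_cons]
        simpa only [cons, env45, h1, if_false] using ha
    intro B hB
    rw [key B hB, key _ fun i => hk.maps _ (hB i), hk.prod _ (hB _) _ (Fx_subset _ _ _), hF]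

end closure

theorem pr45_eq (hN : N.IsTransitive) (hpair : ∀ a ∈ N, ∀ b ∈ N, pair a b ∈ N) (h0 : ∅ ∈ N)
    (hk : Ops N k) (hF : ∀ i d, k (Fx N i d) = Fx N i d) (a b d : ℕ) :
    Pr45 N k (fun v => v a = v b) d := by
  have ha := pr45_mem0 hpair h0 hk hF a d
  have hb := pr45_mem0 hpair h0 hk hF b d
  refine ((((ha.and hpair h0 hk (hb.not hpair h0 hk hF)).ex hpair h0 hk).not hpair h0 hk hF).and
    hpair h0 hk (((hb.and hpair h0 hk (ha.not hpair h0 hk hF)).ex hpair h0 hk).not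
      hpair h0 hk hF)).congr hN hk fun v hv => ⟨fun e => ?_, fun h => ?_⟩
  · exact ⟨fun ⟨y, _, h1, h2⟩ => h2 (show y ∈ v b from e ▸ h1),
      fun ⟨y, _, h1, h2⟩ => h2 (show y ∈ v a from e ▸ h1)⟩
  · ext y
    exact ⟨fun hy => by_contra fun hn => h.1 ⟨y, hv a hy, hy, hn⟩,
      fun hy => by_contra fun hn => h.2 ⟨y, hv b hy, hy, hn⟩⟩

theorem pr45_sat (hN : N.IsTransitive) (hpair : ∀ a ∈ N, ∀ b ∈ N, pair a b ∈ N) (h0 : ∅ ∈ N)
    (hk : Ops N k) (hF : ∀ i d, k (Fx N i d) = Fx N i d) {φ : Fml} (hφ : IsDelta0 φ) :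
    ∀ d, Pr45 N k (Sat (PP N) φ) d := by
  induction hφ with
  | mem a b =>
    refine fun d => (((pr45_mem0 hpair h0 hk hF b d).and hpair h0 hk
      (pr45_eq hN hpair h0 hk hF 0 (a + 1) (d + 1))).ex hpair h0 hk).congr hN hk
      fun v hv => ⟨fun h => ⟨v a, hv b h, h, rfl⟩, fun ⟨y, _, h1, h2⟩ => ?_⟩
    have e : y = v a := h2
    exact (e ▸ h1 : v a ∈ v b)
  | eq a b => exact pr45_eq hN hpair h0 hk hF a b
  | neg _ ih => exact fun d => (ih d).not hpair h0 hk hF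
  | and _ _ ih1 ih2 => exact fun d => (ih1 d).and hpair h0 hk (ih2 d)
  | bex i _ ih =>
    exact fun d => (((pr45_mem0 hpair h0 hk hF i d).and hpair h0 hk (ih (d + 1))).ex
      hpair h0 hk).congr hN hk fun v hv =>
      ⟨fun ⟨y, _, h⟩ => ⟨y, hv i h.1, h⟩, fun ⟨y, hy, h⟩ => ⟨y, hN y hy, h⟩⟩

/-- For a relation `P` on assignments, `d : ℕ` and `B` with `Val N B` let `D P d B` be the set of
`tup d x` (all `x e ∈ N`) with `P (fun e => if e < d then x e else B (e - d))`. Call `P`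
preserved at `d` if `k (D P d B) = D P d (k ∘ B)` for all `B`. Closure: negation (difference with
`Fx N d d`), conjunction, `∃ y ∈ N` (`proj`, from `d + 1` to `d`), `v 0 ∈ v e` at `d + 1`
(`Fx`, the empty set, or `prod (B _) (Fx N d d)`); then `v a = v b` is
`∀ y ∈ N, y ∈ v a ↔ y ∈ v b` and `v a ∈ v b` is `∃ y ∈ N, y ∈ v b ∧ y = v a`. Induction on
`IsDelta0` (via `Lv.zero`), and read off the result at `d = 0` with `k ∅ = ∅`. -/
theorem el0_of_ops (hN : N.IsTransitive) (hpair : ∀ a ∈ N, ∀ b ∈ N, pair a b ∈ N) (h0 : ∅ ∈ N)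
    (hk : Ops N k) (hF : ∀ i d, k (Fx N i d) = Fx N i d) : El 0 N k := by
  have key : ∀ φ, Lv 0 true φ → ∀ v, Val N v →
      (Sat (PP N) φ (fun i => k (v i)) ↔ Sat (PP N) φ v) := fun φ hφ v hv => by
    have e : ∀ B, ∅ ∈ D45 N (Sat (PP N) φ) 0 B ↔ Sat (PP N) φ B := fun B =>
      (mem_D45 hpair h0).trans ⟨fun ⟨_, _, _, h⟩ => h, fun h => ⟨fun _ => ∅, fun _ => h0, rfl, h⟩⟩
    rw [← e, ← e v, ← pr45_sat hN hpair h0 hk hF hφ.zero 0 v hv,
      ← hk.mem_iff _ (empty_subset N) _ D45_subset, hk.empty45]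
  exact ⟨hk.maps, hk.univ, fun φ hφ v hv => (key φ hφ v hv).2, fun φ hφ v hv => (key φ hφ v hv).1⟩

end Pool.Agent.I1PSP.S3
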