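import Pool.Agent.Lib.MP_9c5ecf_lc.S3.Code
import Pool.Agent.Lib.MP_9c5ecf_lc.S3.Level

/-!
Roots of a Sigma-3-elementary embedding.
-/

namespace Pool.Agent.I1PSP.S3

open ZFSet Order

universe u

/-- Codes that have roots. -/
def R1 (N I G : ZFSet.{u}) : Prop :=
  RB N I G ∧ ∀ A, A ⊆ N → ∀ B, B ⊆ N → ∃ G', G' ⊆ N ∧ ∃ B', B' ⊆ N ∧
    RB N I G' ∧ ap N G' A = ap N G A ∧ ap N G' B' = B

/-- There is a code with roots that sends `A` to `A'`, has `B` in its range, is the identity on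
`c` and misses a member of `W`. -/
def Rt (N I A A' B c W : ZFSet.{u}) : Prop :=
  ∃ G, G ⊆ N ∧ ∃ B', B' ⊆ N ∧ R1 N I G ∧ ap N G A = A' ∧ ap N G B' = B ∧
    (∀ a, a ∈ c → pair a a ∈ G) ∧ ∃ a, a ∈ W ∧ ∀ x, x ∈ N → ¬ pair x a ∈ G

variable {l : Ordinal.{u}} {lam : ℕ → Ordinal.{u}} {N G : ZFSet.{u}}
  {t s : (ℕ → ZFSet.{u}) → ZFSet.{u}} {j : ZFSet.{u} → ZFSet.{u}}

theorem DL.r1 (hN : N.IsTransitive) (hpair : ∀ a ∈ N, ∀ b ∈ N, pair a b ∈ N) (ht : T0 N t)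
    (hs : T0 N s) : DL N 2 false fun v => R1 N (t v) (s v) := by
  refine DL.comp2 hN (R := R1 N) ?_ ht hs
  refine DL.and (D0.rb hN hpair (T0.var 0) (T0.var 1)).dl ?_
  refine DL.all (R := fun A v => ∀ B, B ⊆ N → ∃ G', G' ⊆ N ∧ ∃ B', B' ⊆ N ∧
    RB N (v 0) G' ∧ ap N G' A = ap N (v 1) A ∧ ap N G' B' = B) ?_
  refine DL.all (R := fun B w => ∃ G', G' ⊆ N ∧ ∃ B', B' ⊆ N ∧
    RB N (w 1) G' ∧ ap N G' (w 0) = ap N (w 2) (w 0) ∧ ap N G' B' = B) ?_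
  refine DL.upF ?_
  refine DL.ex (R := fun G' w => ∃ B', B' ⊆ N ∧
    RB N (w 2) G' ∧ ap N G' (w 1) = ap N (w 3) (w 1) ∧ ap N G' B' = w 0) ?_
  refine DL.ex (R := fun B' w =>
    RB N (w 3) (w 0) ∧ ap N (w 0) (w 2) = ap N (w 4) (w 2) ∧ ap N (w 0) B' = w 1) ?_
  exact ((D0.rb hN hpair (T0.var 4) (T0.var 1)).and
    ((D0.eq hN (T0.ap hN (T0.var 1) (T0.var 3)) (T0.ap hN (T0.var 5) (T0.var 3))).and
      (D0.eq hN (T0.ap hN (T0.var 1) (T0.var 0)) (T0.var 2)))).dl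

theorem dl_rt (hN : N.IsTransitive) (hpair : ∀ a ∈ N, ∀ b ∈ N, pair a b ∈ N) :
    DL N 3 true fun v => Rt N (v 0) (v 1) (v 2) (v 3) (v 4) (v 5) := by
  refine DL.ex (R := fun G v => ∃ B', B' ⊆ N ∧ R1 N (v 0) G ∧ ap N G (v 1) = v 2 ∧
    ap N G B' = v 3 ∧ (∀ a, a ∈ v 4 → pair a a ∈ G) ∧
      ∃ a, a ∈ v 5 ∧ ∀ x, x ∈ N → ¬ pair x a ∈ G) ?_
  refine DL.ex (R := fun B' w => R1 N (w 1) (w 0) ∧ ap N (w 0) (w 2) = w 3 ∧
    ap N (w 0) B' = w 4 ∧ (∀ a, a ∈ w 5 → pair a a ∈ w 0) ∧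
      ∃ a, a ∈ w 6 ∧ ∀ x, x ∈ N → ¬ pair x a ∈ w 0) ?_
  refine DL.and (DL.r1 hN hpair (T0.var 2) (T0.var 1)).upT (D0.dl ?_)
  refine (D0.eq hN (T0.ap hN (T0.var 1) (T0.var 3)) (T0.var 4)).and
    ((D0.eq hN (T0.ap hN (T0.var 1) (T0.var 0)) (T0.var 5)).and (D0.and ?_ ?_))
  · exact D0.ball hN (R := fun a w => pair a a ∈ w 1) (T0.var 6)
      (D0.pairMem hN (T0.var 2) (T0.var 0) (T0.var 0))
  · refine D0.bex hN (R := fun a w => ∀ x, x ∈ N → ¬ pair x a ∈ w 1) (T0.var 7) ?_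
    exact D0.allN hN (R := fun x w => ¬ pair x (w 0) ∈ w 2)
      (D0.pairMem hN (T0.var 3) (T0.var 0) (T0.var 1)).not

/-- Roots for single sets give roots for sequences. -/
theorem roots_of_codes (hF : Fr l lam) {k : ZFSet.{u} → ZFSet.{u}} {R : ZFSet.{u} → Prop}
    {R' : (ZFSet.{u} → ZFSet.{u}) → Prop}
    (hk : ∀ C, C ⊆ V_ l → ∀ n, k (sec (V_ l) C (ix n)) = sec (V_ l) (k C) (ix n))
    (hx : ∀ i d, k (Fx (V_ l) i d) = Fx (V_ l) i d)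
    (h : ∀ A, A ⊆ V_ l → ∀ B, B ⊆ V_ l → ∃ G' B', B' ⊆ V_ l ∧ RB (V_ l) II G' ∧ R G' ∧
      ap (V_ l) G' A = k A ∧ ap (V_ l) G' B' = B)
    (hR : ∀ G', RB (V_ l) II G' → R G' →
      (∀ i d, ap (V_ l) G' (Fx (V_ l) i d) = Fx (V_ l) i d) → R' (ap (V_ l) G')) :
    Roots (V_ l) R' k := by
  intro A B hA hB
  obtain ⟨C, hC, hCs⟩ := exists_code (ι := (ℕ × ℕ) ⊕ ℕ) hF.pair_mem
    (a := fun i => ix (Encodable.encode i)) (ix_injective.comp Encodable.encode_injective)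
    (fun _ => hF.ix_mem_N _) (Sum.elim (fun p => Fx (V_ l) p.1 p.2) A)
    (fun i => by
      cases i with
      | inl p => exact Fx_subset _ _ _
      | inr i => exact hA i)
  obtain ⟨D, hD, hDs⟩ := exists_code hF.pair_mem ix_injective hF.ix_mem_N B hB
  obtain ⟨G', B', hB', hG', hRG, h1, h2⟩ := h C hC D hD
  have key : ∀ n, ap (V_ l) G' (sec (V_ l) C (ix n)) = k (sec (V_ l) C (ix n)) := fun n => by
    rw [hG'.ap_sec hF hC (hF.ix_mem_N n), hG'.ap_ix hF, h1, hk C hC]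
  refine ⟨ap (V_ l) G', hR G' hG' hRG fun i d => ?_, fun i => ?_,
    fun i => ⟨sec (V_ l) B' (ix i), sec_subset, ?_⟩⟩
  · have e := key (Encodable.encode (Sum.inl (i, d) : (ℕ × ℕ) ⊕ ℕ))
    rw [hCs (Sum.inl (i, d))] at e
    exact e.trans (hx i d)
  · have e := key (Encodable.encode (Sum.inr i : (ℕ × ℕ) ⊕ ℕ))
    rw [hCs (Sum.inr i)] at e
    exact e
  · rw [hG'.ap_sec hF hB' (hF.ix_mem_N i), hG'.ap_ix hF, h2, hDs]

/-- Code the sequence (the sets `Fx` interleaved with `A`) and the sequence `B` by single sets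
(`exists_code` with `ix`), decode with `RB.ap_sec`, `RB.ap_ix`; `el0_of_ops`, `el2_of_roots`. -/
theorem R1.el2 (hF : Fr l lam) (h : R1 (V_ l) II G)
    (hx : ∀ i d, ap (V_ l) G (Fx (V_ l) i d) = Fx (V_ l) i d) : El 2 (V_ l) (ap (V_ l) G) := by
  have h0 : ∀ G', RB (V_ l) II G' → (∀ i d, ap (V_ l) G' (Fx (V_ l) i d) = Fx (V_ l) i d) →
      El 0 (V_ l) (ap (V_ l) G') := fun G' hG' hx' =>
    el0_of_ops (isTransitive_vonNeumann l) hF.pair_mem hF.empty_mem (hG'.ops hF) hx'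
  refine el2_of_roots (h0 G h.1 hx) (roots_of_codes hF (R := fun _ => True)
    (fun C hC n => by rw [h.1.ap_sec hF hC (hF.ix_mem_N n), h.1.ap_ix hF]) hx
    (fun A hA B hB => ?_) fun G' hG' _ hx' => h0 G' hG' hx')
  obtain ⟨G', -, B', hB', h1, h2, h3⟩ := h.2 A hA B hB
  exact ⟨G', B', hB', h1, trivial, h2, h3⟩

/-- The Sigma-1 statement with parameters `II, A, j A, B` holds for their images, witnessed by
the graph of `j` and `B`. -/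
theorem r1_graph (hF : Fr l lam) (hj : El 3 (V_ l) j)
    (hjV : ∀ n, j (V_ (lam n)) = V_ (lam (n + 1))) (hfix : ∀ x ∈ V_ (lam 0), j x = x) :
    R1 (V_ l) II (graph (V_ l) j) := by
  have hN : (V_ l).IsTransitive := isTransitive_vonNeumann l
  obtain ⟨hrb, hap⟩ := rb_graph hF hj.zero hjV hfix
  have hG : graph (V_ l) j ⊆ V_ l := sep_subset
  have hII : j II = II := hfix _ (hF.II_mem_W 0)
  refine ⟨hrb, fun A hA B hB => ?_⟩
  have hdef : DL (V_ l) 3 true fun v => ∃ G', G' ⊆ V_ l ∧ ∃ B', B' ⊆ V_ l ∧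
      RB (V_ l) (v 0) G' ∧ ap (V_ l) G' (v 1) = v 2 ∧ ap (V_ l) G' B' = v 3 := by
    refine DL.ex (R := fun G' v => ∃ B', B' ⊆ V_ l ∧
      RB (V_ l) (v 0) G' ∧ ap (V_ l) G' (v 1) = v 2 ∧ ap (V_ l) G' B' = v 3) ?_
    refine DL.ex (R := fun B' w =>
      RB (V_ l) (w 1) (w 0) ∧ ap (V_ l) (w 0) (w 2) = w 3 ∧ ap (V_ l) (w 0) B' = w 4) ?_
    exact ((D0.rb hN hF.pair_mem (T0.var 2) (T0.var 1)).and
      ((D0.eq hN (T0.ap hN (T0.var 1) (T0.var 3)) (T0.var 4)).and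
        (D0.eq hN (T0.ap hN (T0.var 1) (T0.var 0)) (T0.var 5)))).dl
  rw [hap A hA]
  refine (hj.iff4 (R := fun I A A' B => ∃ G', G' ⊆ V_ l ∧ ∃ B', B' ⊆ V_ l ∧
    RB (V_ l) I G' ∧ ap (V_ l) G' A = A' ∧ ap (V_ l) G' B' = B) hdef (hN _ hF.II_mem) hA
      (hj.maps A hA) hB).2 ?_
  rw [hII]
  exact ⟨graph (V_ l) j, hG, B, hB, hrb, hap _ (hj.maps A hA), hap B hB⟩

/-- The Sigma-3 statement holds for the images, witnessed by the graph of `j`, `B` and the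
member `V_ (lam 0)` of `V_ (lam 1)`, which is not a value of `j`. -/
theorem rt_base (hF : Fr l lam) (hj : El 3 (V_ l) j)
    (hjV : ∀ n, j (V_ (lam n)) = V_ (lam (n + 1))) (hfix : ∀ x ∈ V_ (lam 0), j x = x)
    {A B c : ZFSet.{u}} (hA : A ⊆ V_ l) (hB : B ⊆ V_ l) (hc : c ∈ V_ (lam 0)) :
    Rt (V_ l) II A (j A) B c (V_ (lam 0)) := by
  have hN : (V_ l).IsTransitive := isTransitive_vonNeumann l
  obtain ⟨-, hap⟩ := rb_graph hF hj.zero hjV hfix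
  have hG : graph (V_ l) j ⊆ V_ l := sep_subset
  have hII : j II = II := hfix _ (hF.II_mem_W 0)
  have hcW : c ⊆ V_ (lam 0) := isTransitive_vonNeumann _ c hc
  have hv : Val (V_ l) (cons II (cons A (cons (j A) (cons B (cons c fun _ => V_ (lam 0)))))) :=
    Val.cons (hN _ hF.II_mem) (Val.cons hA (Val.cons (hj.maps A hA) (Val.cons hB
      (Val.cons (hcW.trans (hF.W_sub 0)) fun _ => hF.W_sub 0))))
  refine (hj.iff (dl_rt hN hF.pair_mem) hv).2 ?_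
  change Rt (V_ l) (j II) (j A) (j (j A)) (j B) (j c) (j (V_ (lam 0)))
  rw [hII, hfix c hc, hjV 0]
  refine ⟨graph (V_ l) j, hG, B, hB, r1_graph hF hj hjV hfix, hap _ (hj.maps A hA), hap B hB,
    fun a ha => ?_, V_ (lam 0), hF.W_mem_W (Nat.lt_succ_self 0), fun x hx hp => ?_⟩
  · have haW : a ∈ V_ (lam 0) := hcW ha
    have haN : a ∈ V_ l := hF.W_sub 0 haW
    exact mem_sep.2 ⟨hF.pair_mem a haN a haN, a, haN, by rw [hfix a haW]⟩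
  · obtain ⟨-, y, -, hy⟩ := mem_sep.1 hp
    obtain ⟨rfl, hy2⟩ := pair_inj.1 hy
    have h1 : j x ∈ j (V_ (lam 0)) := by
      rw [← hy2, hjV 0]
      exact hF.W_mem_W (Nat.lt_succ_self 0)
    have h2 : x ∈ V_ (lam 0) := (hj.mem_iff hN (hN x hx) (hF.W_sub 0)).1 h1
    have h3 : x ∈ x := by
      have h4 := h2
      rwa [hy2, hfix x h2] at h4
    exact mem_irrefl x h3

end Pool.Agent.I1PSP.S3
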