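import Pool.Agent.Lib.MP_9c5ecf_lc.S3.Comp

/-!
Transfer of the splitting rank along a Sigma-1-elementary map.
-/

namespace Pool.Agent.I1PSP.S3

open ZFSet Order

universe u

variable {l : Ordinal.{u}} {lam : ℕ → Ordinal.{u}} {T Y r b x w s g a W P : ZFSet.{u}}
  {k : ZFSet.{u} → ZFSet.{u}}

theorem exists_wit_up (hF : Fr l lam) (hr : SW (V_ l) r) (hb : b ∈ V_ l) (hx : x ∈ V_ l)
    (hg' : CFun (V_ l) w g) (ha : a ∈ V_ l)
    (h : ∀ η < rk (V_ l) r x, Fam (V_ l) T Y (rk (V_ l) r b) η (nd (V_ l) r w s g) a W) :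
    ∃ Hw Hs Hg Al, Hw ⊆ V_ l ∧ Hs ⊆ V_ l ∧ Hg ⊆ V_ l ∧ Al ⊆ V_ l ∧
      Wit (V_ l) ⟨T, Y, r, b, Hw, Hs, Hg, Al⟩ ∧ ∀ x', x' ∈ V_ l → pair x' x ∈ r →
        CFam (V_ l) ⟨T, Y, r, b, Hw, Hs, Hg, Al⟩ x' w s g a W := by
  have hN := isTransitive_vonNeumann l
  have : Nonempty (ZFSet.{u} → Nd.{u}) := ⟨fun _ => nd (V_ l) r w s g⟩
  have h' : ∀ x', Rl (V_ l) r x' x →
      Fam (V_ l) T Y (rk (V_ l) r b) (rk (V_ l) r x') (nd (V_ l) r w s g) a W :=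
    fun x' hx' => h _ (rk_lt_of_rl hr.wf hx')
  choose! τ h1 h2 using h'
  obtain ⟨Hw, Hs, Hg, Al, a1, a2, a3, a4, hwit, hroot⟩ := exists_wit (T := T) (Y := Y) hF hr hb
    (J := ZFSet.sep (fun j => Rl (V_ l) r (fst j) x ∧ snd j ∈ a) (V_ l)) sep_subset fst
    (fun j => τ (fst j) (snd j)) fun j hj =>
      ⟨(mem_sep.1 hj).2.1.1, (h1 _ (mem_sep.1 hj).2.1 _ (mem_sep.1 hj).2.2).2.2⟩
  refine ⟨Hw, Hs, Hg, Al, a1, a2, a3, a4, hwit, fun x' hx' hp => ?_⟩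
  have hrl : Rl (V_ l) r x' x := ⟨hx', hx, hp⟩
  have key : ∀ y ∈ a, pair x' (pair ∅ (pair x' y)) ∈ Al ∧ Same (τ x' y)
      (Cd.node (V_ l) ⟨T, Y, r, b, Hw, Hs, Hg, Al⟩ (pair ∅ (pair x' y))) := by
    intro y hy
    have := hroot (pair x' y) (mem_sep.2 ⟨hF.pair_mem _ hx' _ (hN a ha hy), by
      rw [fst_pair, snd_pair]; exact ⟨hrl, hy⟩⟩)
    rwa [fst_pair, snd_pair] at this
  obtain ⟨n, hn⟩ := hF.W_cof hx'
  obtain ⟨m, hm⟩ := hF.W_cof_sub ha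
  have hn' := hF.W_mono (le_max_left n m) hn
  have hm' : ∀ y ∈ a, y ∈ V_ (lam (max n m)) := fun y hy => hF.W_mono (le_max_right n m) (hm hy)
  have hi : ∀ y ∈ a, pair ∅ (pair x' y) ∈ V_ (lam (max n m)) := fun y hy =>
    hF.pair_mem_W _ _ (hF.empty_mem_W _) _ (hF.pair_mem_W _ _ hn' _ (hm' y hy))
  have hh : ∀ y i, pair y i ∈ ZFSet.sep (fun p => snd p = pair ∅ (pair x' (fst p)))
      (V_ (lam (max n m))) → i = pair ∅ (pair x' y) := fun y i hp => by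
    have := (mem_sep.1 hp).2
    rwa [fst_pair, snd_pair] at this
  refine ⟨ZFSet.sep (fun p => snd p = pair ∅ (pair x' (fst p))) (V_ (lam (max n m))),
    hF.sub_W_mem sep_subset, fun y hy => ⟨_, hF.W_sub _ (hi y hy), mem_sep.2
      ⟨hF.pair_mem_W _ _ (hm' y hy) _ (hi y hy), by rw [fst_pair, snd_pair]⟩⟩,
    fun y hy i hiN hp => ?_, fun y hy y' hy' i _ i' _ hp hp' he => ?_⟩
  · obtain rfl := hh y i hp
    obtain ⟨k1, k2⟩ := key y hy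
    refine ⟨k1, k2.w.trans (h1 x' hrl y hy).1, ?_⟩
    exact (cext_iff hr hg' (hwit x' hx' _ hiN k1).1.2.2.2.1).2
      (k2.ext_right (h1 x' hrl y hy).2.1)
  · obtain rfl := hh y i hp
    obtain rfl := hh y' i' hp'
    refine h2 x' hrl y hy y' hy' ?_
    rw [← (key y hy).2.s, ← (key y' hy').2.s]
    exact he

theorem d0_below_up {N : ZFSet.{u}} (hN : N.IsTransitive) : D0 N fun v =>
    ∀ x', x' ∈ N → pair x' (v 8) ∈ v 2 → CFam N ⟨v 0, v 1, v 2, v 3, v 4, v 5, v 6, v 7⟩ x'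
      (v 9) (v 10) (v 11) (v 12) (v 13) :=
  D0.ball hN (R := fun x' v => pair x' (v 8) ∈ v 2 →
    CFam N ⟨v 0, v 1, v 2, v 3, v 4, v 5, v 6, v 7⟩ x' (v 9) (v 10) (v 11) (v 12) (v 13)) T0.univ
    ((D0.pairMem hN (T0.var 3) (T0.var 0) (T0.var 9)).imp
      ((d0_cfam hN).rename fun i => if i = 8 then 0 else i + 1))

/-- Upwards. One witness (`exists_wit` with `J` the set of the `pair x' y`, `x'` below `x`,
`y ∈ a`) satisfies the bounded statement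
`Wit ∧ CFun w g ∧ ∀ x' ∈ N, pair x' x ∈ r → CFam x' w s g a W`. Apply `k`, then `Wit.fam`,
`exists_rl_of_lt`, `Fam.mono`. -/
theorem fam_up (hF : Fr l lam) (hk : El 1 (V_ l) k) (hr : SW (V_ l) r) (hT : T ⊆ V_ l)
    (hY : Y ⊆ V_ l) (hb : b ∈ V_ l) (hx : x ∈ V_ l) (hw : w ∈ V_ l) (hs : s ⊆ V_ l)
    (hg : g ⊆ V_ l) (hg' : CFun (V_ l) w g) (ha : a ∈ V_ l) (hW : W ∈ V_ l)
    (h : ∀ η < rk (V_ l) r x, Fam (V_ l) T Y (rk (V_ l) r b) η (nd (V_ l) r w s g) a W) :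
    ∀ ζ < rk (V_ l) (k r) (k x), Fam (V_ l) (k T) (k Y) (rk (V_ l) (k r) (k b)) ζ
      (nd (V_ l) (k r) (k w) (k s) (k g)) (k a) (k W) := by
  have hN := isTransitive_vonNeumann l
  obtain ⟨Hw, Hs, Hg, Al, a1, a2, a3, a4, hwit, hfam⟩ := exists_wit_up hF hr hb hx hg' ha h
  have hv : Val (V_ l) (cons T (cons Y (cons r (cons b (cons Hw (cons Hs (cons Hg (cons Al
      (cons x (cons w (cons s (cons g (cons a fun _ => W))))))))))))) :=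
    .cons hT (.cons hY (.cons hr.sub (.cons (hN b hb) (.cons a1 (.cons a2 (.cons a3 (.cons a4
      (.cons (hN x hx) (.cons (hN w hw) (.cons hs (.cons hg (.cons (hN a ha)
        fun _ => hN W hW))))))))))))
  have k1 : Wit (V_ l) ⟨k T, k Y, k r, k b, k Hw, k Hs, k Hg, k Al⟩ :=
    (hk.iff0 (d0_wit hN) hv).1 hwit
  have k2 : ∀ x', x' ∈ V_ l → pair x' (k x) ∈ k r → CFam (V_ l)
      ⟨k T, k Y, k r, k b, k Hw, k Hs, k Hg, k Al⟩ x' (k w) (k s) (k g) (k a) (k W) :=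
    (hk.iff0 (d0_below_up hN) hv).1 hfam
  have k3 : CFun (V_ l) (k w) (k g) :=
    (hk.iff2 (b := true) (d0_cfun hN).dl (hN w hw) hg).1 hg'
  have hr' := hr.map hN hk
  intro ζ hζ
  obtain ⟨x', hx', hle⟩ := exists_rl_of_lt hr'.wf hζ
  exact (Wit.fam hN hF.pair_mem hr' (hk.mem_univ hN hb) k1 hx'.1 k3
    (k2 x' hx'.1 hx'.2.2)).mono hle

/-- The Sigma-1 statement used in `trace_down`. -/
def TDh (N T Y r b x w s g W P : ZFSet.{u}) : Prop :=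
  ∃ Hw, Hw ⊆ N ∧ ∃ Hs, Hs ⊆ N ∧ ∃ Hg, Hg ⊆ N ∧ ∃ Al, Al ⊆ N ∧
    (Wit N ⟨T, Y, r, b, Hw, Hs, Hg, Al⟩ ∧ ∃ i, i ∈ N ∧ (pair x i ∈ Al ∧ sec N Hw i = W ∧
      CExt N r w s g (sec N Hw i) (sec N Hs i) (sec N Hg i) ∧ ¬ sec N Hs i ∩ Y ∈ P))

theorem dl_TDh {N : ZFSet.{u}} (hN : N.IsTransitive) : DL N 1 true fun v =>
    TDh N (v 0) (v 1) (v 2) (v 3) (v 4) (v 5) (v 6) (v 7) (v 8) (v 9) := by
  unfold TDh
  refine DL.ex (DL.ex (DL.ex (DL.ex (D0.dl (D0.and ?_ (D0.bex hN T0.univ ?_))))))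
  · exact (d0_wit hN).comp hN ((T0.var 4).tc ((T0.var 5).tc ((T0.var 6).tc ((T0.var 7).tc
      ((T0.var 3).tc ((T0.var 2).tc ((T0.var 1).tc (T := fun _ v => v 0)
        fun _ => T0.var 0)))))))
  · refine D0.and (D0.pairMem hN (T0.var 1) (T0.var 9) (T0.var 0))
      (D0.and (D0.eq hN (T0.sec hN (T0.var 4) (T0.var 0)) (T0.var 13)) (D0.and ?_
        (D0.not (D0.mem hN ((T0.sec hN (T0.var 3) (T0.var 0)).inter (T0.var 6)) (T0.var 14)))))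
    exact (d0_cext hN).comp hN ((T0.var 7).tc ((T0.var 10).tc ((T0.var 11).tc ((T0.var 12).tc
      ((T0.sec hN (T0.var 4) (T0.var 0)).tc ((T0.sec hN (T0.var 3) (T0.var 0)).tc
        (T := fun _ v => sec N (v 2) (v 0)) fun _ => T0.sec hN (T0.var 2) (T0.var 0)))))))

/-- Downwards. If the trace of `τ` is not in `k P`, the Sigma-1 statement
`∃ Hw Hs Hg Al, Wit ∧ ∃ i ∈ N, pair x i ∈ Al ∧ sec Hw i = W ∧ CExt w s g (node i) ∧
¬ sec Hs i ∩ Y ∈ P` holds for the images (`exists_wit` with one root, `cext_iff`), so it holds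
below, and `Wit.alive` contradicts `hP`. -/
theorem trace_down (hF : Fr l lam) (hk : El 1 (V_ l) k) (hr : SW (V_ l) r) (hT : T ⊆ V_ l)
    (hY : Y ⊆ V_ l) (hb : b ∈ V_ l) (hx : x ∈ V_ l) (hw : w ∈ V_ l) (hs : s ⊆ V_ l)
    (hg : g ⊆ V_ l) (hg' : CFun (V_ l) w g) (hW : W ∈ V_ l) (hPN : P ⊆ V_ l)
    (hP : ∀ τ : Nd.{u}, τ.w = W → Ext (nd (V_ l) r w s g) τ →
      Alive (V_ l) T Y (rk (V_ l) r b) (rk (V_ l) r x) τ → τ.s ∩ Y ∈ P)
    {τ : Nd.{u}} (h1 : τ.w = k W) (h2 : Ext (nd (V_ l) (k r) (k w) (k s) (k g)) τ)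
    (h3 : Alive (V_ l) (k T) (k Y) (rk (V_ l) (k r) (k b)) (rk (V_ l) (k r) (k x)) τ) :
    τ.s ∩ k Y ∈ k P := by
  have hN := isTransitive_vonNeumann l
  by_contra hc
  have hkr : SW (V_ l) (k r) := hr.map hN hk
  have hkg : CFun (V_ l) (k w) (k g) :=
    (hk.iff2 (b := true) (R := CFun (V_ l)) (d0_cfun hN).dl (hN w hw) hg).1 hg'
  have h0 : pair (∅ : ZFSet.{u}) ∅ ∈ V_ l := hF.pair_mem _ hF.empty_mem _ hF.empty_mem
  obtain ⟨Hw, Hs, Hg, Al, a1, a2, a3, a4, a5, a6⟩ := exists_wit (T := k T) (Y := k Y) hF hkr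
    (hk.mem_univ hN hb) (J := {∅}) (fun y hy => by
      rw [mem_singleton.1 hy]; exact hF.empty_mem) (fun _ => k x) (fun _ => τ)
    fun _ _ => ⟨hk.mem_univ hN hx, h3⟩
  obtain ⟨a7, a8⟩ := a6 ∅ (mem_singleton.2 rfl)
  have e1 : sec (V_ l) Hw (pair ∅ ∅) = τ.w := a8.w
  have e2 : sec (V_ l) Hs (pair ∅ ∅) = τ.s := a8.s
  have up : TDh (V_ l) (k T) (k Y) (k r) (k b) (k x) (k w) (k s) (k g) (k W) (k P) :=
    ⟨Hw, a1, Hs, a2, Hg, a3, Al, a4, a5, pair ∅ ∅, h0, a7, e1.trans h1,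
      (cext_iff hkr hkg (a5 _ (hk.mem_univ hN hx) _ h0 a7).1.2.2.2.1).2 (a8.ext_right h2),
      by rw [e2]; exact hc⟩
  have dn : TDh (V_ l) T Y r b x w s g W P :=
    hk.dn.sigma hk (dl_TDh hN) (v := cons T (cons Y (cons r (cons b (cons x (cons w (cons s
      (cons g (cons W fun _ => P)))))))))
      (Val.cons hT (Val.cons hY (Val.cons hr.sub (Val.cons (hN b hb) (Val.cons (hN x hx)
        (Val.cons (hN w hw) (Val.cons hs (Val.cons hg (Val.cons (hN W hW) fun _ => hPN)))))))))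
      up
  obtain ⟨Hw, -, Hs, -, Hg, -, Al, -, b1, i, hi, b2, b3, b4, b5⟩ := dn
  exact b5 (hP (Cd.node (V_ l) ⟨T, Y, r, b, Hw, Hs, Hg, Al⟩ i) b3
    ((cext_iff hr hg' (b1 x hx i hi b2).1.2.2.2.1).1 b4)
    (Wit.alive hN hF.pair_mem (c := ⟨T, Y, r, b, Hw, Hs, Hg, Al⟩) hr hb b1 hx hi b2))

/-- If `a` does not inject into `P` then `P` injects into `a` (`Function.Embedding.total`). Let
`h` be the set of the pairs `(e p, p)`. For `t ∈ k P` there is `y ∈ k a = a` with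
`pair y t ∈ k h`; as `k y = y` there is `p` with `pair y p ∈ h`, and `t = k p`. -/
theorem small_range (hF : Fr l lam) (hk : El 1 (V_ l) k) (ha : a ∈ V_ l) (hka : k a = a)
    (hka' : ∀ y ∈ a, k y = y) (hP : P ⊆ V_ l)
    (h : ¬ ∃ e : ZFSet.{u} → ZFSet.{u}, (∀ y ∈ a, e y ∈ P) ∧
      ∀ y ∈ a, ∀ y' ∈ a, e y = e y' → y = y') {t : ZFSet.{u}} (ht : t ∈ k P) :
    ∃ p, p ⊆ V_ l ∧ k p = t := by
  classical
  have hN := isTransitive_vonNeumann l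
  have haN : a ⊆ V_ l := hN a ha
  obtain ⟨e, he1, he2⟩ : ∃ e : ZFSet.{u} → ZFSet.{u}, (∀ p ∈ P, e p ∈ a) ∧
      ∀ p ∈ P, ∀ p' ∈ P, e p = e p' → p = p' := by
    rcases Function.Embedding.total {y : ZFSet.{u} // y ∈ a} {p : ZFSet.{u} // p ∈ P} with
      ⟨⟨f⟩⟩ | ⟨⟨f⟩⟩
    · refine absurd ⟨fun y => if hy : y ∈ a then (f ⟨y, hy⟩).1 else ∅, fun y hy => ?_,
        fun y hy y' hy' H => ?_⟩ h
      · simp only [dif_pos hy]
        exact (f ⟨y, hy⟩).2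
      · simp only [dif_pos hy, dif_pos hy'] at H
        exact congrArg Subtype.val (f.injective (Subtype.ext H))
    · refine ⟨fun y => if hy : y ∈ P then (f ⟨y, hy⟩).1 else ∅, fun y hy => ?_,
        fun y hy y' hy' H => ?_⟩
      · simp only [dif_pos hy]
        exact (f ⟨y, hy⟩).2
      · simp only [dif_pos hy, dif_pos hy'] at H
        exact congrArg Subtype.val (f.injective (Subtype.ext H))
  obtain ⟨H, hH, key⟩ : ∃ H : ZFSet.{u}, H ⊆ V_ l ∧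
      ∀ p ∈ P, ∀ y, pair y p ∈ H ↔ y = e p := by
    refine ⟨ZFSet.sep (fun q => ∃ p ∈ P, q = pair (e p) p) (V_ l), sep_subset,
      fun p hp y => ?_⟩
    rw [mem_sep]
    constructor
    · rintro ⟨_, p', _, he⟩
      obtain ⟨rfl, rfl⟩ := pair_inj.1 he
      rfl
    · rintro rfl
      exact ⟨hF.pair_mem _ (haN (he1 p hp)) _ (hP hp), p, hp, rfl⟩
  have d1 : D0 (V_ l) fun v => ∀ p, p ∈ v 1 → ∃ y, y ∈ v 0 ∧ pair y p ∈ v 2 := by
    repeat' with_reducible first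
      | exact T0.var _ | apply D0.ball hN | apply D0.bex hN | apply D0.pairMem hN
  have d2 : D0 (V_ l) fun v => ∃ p, p ∈ v 1 ∧ pair (v 0) p ∈ v 2 := by
    repeat' with_reducible first
      | exact T0.var _ | apply D0.ball hN | apply D0.bex hN | apply D0.pairMem hN
  have d3 : D0 (V_ l) fun v => ∀ p, p ∈ v 1 → ∀ p', p' ∈ v 1 → pair (v 0) p ∈ v 2 →
      pair (v 0) p' ∈ v 2 → p = p' := by
    repeat' with_reducible first
      | exact T0.var _ | apply D0.ball hN | apply D0.imp | apply D0.pairMem hN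
      | apply D0.eq hN
  obtain ⟨y, hy, hyt⟩ := (hk.iff3 (b := true)
    (R := fun a P H => ∀ p, p ∈ P → ∃ y, y ∈ a ∧ pair y p ∈ H) d1.dl haN hP hH).1
      (fun p hp => ⟨e p, he1 p hp, (key p hp _).2 rfl⟩) t ht
  rw [hka] at hy
  have hyN : y ⊆ V_ l := hN y (haN hy)
  rw [← hka' y hy] at hyt
  obtain ⟨p, hp, hyp⟩ := (hk.iff3 (b := true)
    (R := fun y P H => ∃ p, p ∈ P ∧ pair y p ∈ H) d2.dl hyN hP hH).2 ⟨t, ht, hyt⟩
  have hpN : p ⊆ V_ l := hN p (hP hp)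
  refine ⟨p, hpN, (hk.iff3 (b := true)
    (R := fun y P H => ∀ p, p ∈ P → ∀ p', p' ∈ P → pair y p ∈ H → pair y p' ∈ H → p = p')
      d3.dl hyN hP hH).1 (fun q hq q' hq' h1 h2 => he2 q hq q' hq' ?_) _
      ((hk.mem_iff hN hpN hP).2 hp) _ ht ((hk.pair_mem_iff hN hyN hpN hH).2 hyp) hyt⟩
  exact ((key q hq y).1 h1).symm.trans ((key q' hq' y).1 h2)

/-- The labels of the image node at a fixed point `a`. -/
theorem lab_map (hF : Fr l lam) (hk : El 1 (V_ l) k) (hr : SW (V_ l) r) (hw : w ∈ V_ l)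
    (hg : g ⊆ V_ l) (hg' : CFun (V_ l) w g) (ha : a ∈ w) (hka : k a = a)
    (hf : FixO (V_ l) k (lab (V_ l) r g a)) :
    lab (V_ l) (k r) (k g) a = lab (V_ l) r g a := by
  have hN := isTransitive_vonNeumann l
  have hwN : w ⊆ V_ l := hN w hw
  have haN : a ⊆ V_ l := hN a (hwN ha)
  obtain ⟨c, hc, hp, _⟩ := hg' a ha
  have h1 : CFun (V_ l) (k w) (k g) :=
    (hk.iff2 (b := true) (R := CFun (V_ l)) (d0_cfun hN).dl hwN hg).1 hg'
  have h2 : a ∈ k w := hka ▸ (hk.mem_iff hN haN hwN).2 ha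
  have h3 : pair a (k c) ∈ k g := hka ▸ (hk.pair_mem_iff hN haN (hN c hc) hg).2 hp
  rw [h1.lab_eq h2 (hk.mem_univ hN hc) h3]
  exact hf r c hr hc (hg'.lab_eq ha hc hp).symm

end Pool.Agent.I1PSP.S3
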