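import Pool.Agent.Lib.MP_9c5ecf_lc.S3.Node

/-!
Coded witnesses for the splitting rank: definitions, definability and soundness.
-/

namespace Pool.Agent.I1PSP.S3

open ZFSet Order

universe u

/-- The label of `a`: the rank in `r` of the value of `g` at `a`. -/
noncomputable def lab (N r g a : ZFSet.{u}) : Ordinal.{u + 1} :=
  rk N r (Classical.epsilon fun c => c ∈ N ∧ pair a c ∈ g)

/-- The node coded by `w, s, g`. -/
noncomputable def nd (N r w s g : ZFSet.{u}) : Nd.{u} := ⟨w, s, lab N r g⟩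

/-- `g` is a function on `w` with values in `N`. -/
def CFun (N w g : ZFSet.{u}) : Prop :=
  ∀ a, a ∈ w → ∃ c, c ∈ N ∧ pair a c ∈ g ∧ ∀ c', c' ∈ N → pair a c' ∈ g → c' = c

/-- The coded form of `Valid`. -/
def CVal (N T r b w s g : ZFSet.{u}) : Prop :=
  w ∈ N ∧ s ⊆ w ∧ pair w s ∈ T ∧ CFun N w g ∧
    (∀ a, a ∈ w → ∀ c, c ∈ N → pair a c ∈ g → pair c b ∈ r) ∧
    ∀ a, a ∈ w → ∀ a', a' ∈ w → ∀ c, c ∈ N → ∀ c', c' ∈ N → pair a c ∈ g → pair a' c' ∈ g →
      ∀ p, p ∈ N → p = pair a a' → pair ∅ p ∈ s → pair c c' ∈ r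

/-- The coded form of `Ext`. -/
def CExt (N r w s g w' s' g' : ZFSet.{u}) : Prop :=
  w ⊆ w' ∧ s' ∩ w = s ∧ ∀ a, a ∈ w → ∀ c, c ∈ N → ∀ c', c' ∈ N → pair a c ∈ g →
    pair a c' ∈ g' → ¬ pair c c' ∈ r ∧ ¬ pair c' c ∈ r

/-- The data of a witness: the tree, the code of the ordinals with the bound `b`, the levels,
traces and labels of the nodes, and the pairs (stage, node). -/
structure Cd where
  T : ZFSet.{u}
  Y : ZFSet.{u}
  r : ZFSet.{u}
  b : ZFSet.{u}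
  Hw : ZFSet.{u}
  Hs : ZFSet.{u}
  Hg : ZFSet.{u}
  Al : ZFSet.{u}

/-- The coded form of `Fam`. -/
def CFam (N : ZFSet.{u}) (c : Cd.{u}) (x w s g a w' : ZFSet.{u}) : Prop :=
  ∃ h, h ∈ N ∧ (∀ y, y ∈ a → ∃ i, i ∈ N ∧ pair y i ∈ h) ∧
    (∀ y, y ∈ a → ∀ i, i ∈ N → pair y i ∈ h → pair x i ∈ c.Al ∧ sec N c.Hw i = w' ∧
      CExt N c.r w s g (sec N c.Hw i) (sec N c.Hs i) (sec N c.Hg i)) ∧
    ∀ y, y ∈ a → ∀ y', y' ∈ a → ∀ i, i ∈ N → ∀ i', i' ∈ N → pair y i ∈ h → pair y' i' ∈ h →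
      sec N c.Hs i ∩ c.Y = sec N c.Hs i' ∩ c.Y → y = y'

/-- Witnesses. -/
def Wit (N : ZFSet.{u}) (c : Cd.{u}) : Prop :=
  ∀ x, x ∈ N → ∀ i, i ∈ N → pair x i ∈ c.Al →
    CVal N c.T c.r c.b (sec N c.Hw i) (sec N c.Hs i) (sec N c.Hg i) ∧
      ∀ x', x' ∈ N → pair x' x ∈ c.r → ∀ a, a ∈ N → ∃ w', w' ∈ N ∧ a ⊆ w' ∧
        CFam N c x' (sec N c.Hw i) (sec N c.Hs i) (sec N c.Hg i) a w'

/-- The node with index `i`. -/
noncomputable def Cd.node (N : ZFSet.{u}) (c : Cd.{u}) (i : ZFSet.{u}) : Nd.{u} :=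
  nd N c.r (sec N c.Hw i) (sec N c.Hs i) (sec N c.Hg i)

variable {N T r b w s g w' s' g' a x i : ZFSet.{u}} {c : Cd.{u}}

theorem d0_cfun (hN : N.IsTransitive) : D0 N fun v => CFun N (v 0) (v 1) := by
  unfold CFun
  repeat' with_reducible first
    | exact T0.var _ | exact T0.univ | exact T0.empty | apply D0.ball hN | apply D0.bex hN
    | apply D0.and | apply D0.or | apply D0.not | apply D0.imp | apply D0.iff
    | apply D0.eqPair hN | apply D0.pairMem hN | apply D0.eq hN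

theorem d0_cval (hN : N.IsTransitive) :
    D0 N fun v => CVal N (v 0) (v 1) (v 2) (v 3) (v 4) (v 5) := by
  unfold CVal CFun
  repeat' with_reducible first
    | exact T0.var _ | exact T0.univ | exact T0.empty | apply D0.ball hN | apply D0.bex hN
    | apply D0.and | apply D0.or | apply D0.not | apply D0.imp | apply D0.iff
    | apply D0.eqPair hN | apply D0.pairMem hN | apply D0.eq hN | apply D0.subset hN
    | apply D0.mem hN

theorem d0_cext (hN : N.IsTransitive) :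
    D0 N fun v => CExt N (v 0) (v 1) (v 2) (v 3) (v 4) (v 5) (v 6) := by
  unfold CExt
  repeat' with_reducible first
    | exact T0.var _ | exact T0.univ | exact T0.empty | apply D0.ball hN | apply D0.bex hN
    | apply D0.and | apply D0.or | apply D0.not | apply D0.imp | apply D0.iff
    | apply D0.eqPair hN | apply D0.pairMem hN | apply D0.eq hN | apply D0.subset hN
    | apply D0.mem hN | apply T0.sec hN | apply T0.inter

theorem d0_cfam (hN : N.IsTransitive) : D0 N fun v =>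
    CFam N ⟨v 0, v 1, v 2, v 3, v 4, v 5, v 6, v 7⟩ (v 8) (v 9) (v 10) (v 11) (v 12) (v 13) := by
  unfold CFam CExt
  dsimp only
  repeat' with_reducible first
    | exact T0.var _ | exact T0.univ | exact T0.empty | apply D0.ball hN | apply D0.bex hN
    | apply D0.and | apply D0.or | apply D0.not | apply D0.imp | apply D0.iff
    | apply D0.eqPair hN | apply D0.pairMem hN | apply D0.eq hN | apply D0.subset hN
    | apply D0.mem hN | apply T0.sec hN | apply T0.inter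

theorem d0_wit (hN : N.IsTransitive) :
    D0 N fun v => Wit N ⟨v 0, v 1, v 2, v 3, v 4, v 5, v 6, v 7⟩ := by
  unfold Wit CVal CFun CFam CExt
  dsimp only
  repeat' with_reducible first
    | exact T0.var _ | exact T0.univ | exact T0.empty | apply D0.ball hN | apply D0.bex hN
    | apply D0.and | apply D0.or | apply D0.not | apply D0.imp | apply D0.iff
    | apply D0.eqPair hN | apply D0.pairMem hN | apply D0.eq hN | apply D0.subset hN
    | apply D0.mem hN | apply T0.sec hN | apply T0.inter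

theorem CFun.lab_eq (h : CFun N w g) (ha : a ∈ w) {e : ZFSet.{u}} (he : e ∈ N)
    (hp : pair a e ∈ g) : lab N r g a = rk N r e := by
  obtain ⟨c, hc, hpc, hu⟩ := h a ha
  have hs := Classical.epsilon_spec (p := fun c => c ∈ N ∧ pair a c ∈ g) ⟨c, hc, hpc⟩
  unfold lab
  rw [hu _ hs.1 hs.2, hu e he hp]

theorem CVal.valid (hN : N.IsTransitive) (hpair : ∀ a ∈ N, ∀ b ∈ N, pair a b ∈ N) (hr : SW N r)
    (hb : b ∈ N) (h : CVal N T r b w s g) : Valid N T (rk N r b) (nd N r w s g) := by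
  obtain ⟨h1, h2, h3, h4, h5, h6⟩ := h
  refine ⟨h1, h2, h3, fun a ha => ?_, fun a ha a' ha' he => ?_⟩
  · obtain ⟨c, hc, hpc, -⟩ := h4 a ha
    change lab N r g a < _
    rw [h4.lab_eq ha hc hpc]
    exact (hr.pair_mem_iff hc hb).1 (h5 a ha c hc hpc)
  · obtain ⟨c, hc, hpc, -⟩ := h4 a ha
    obtain ⟨c', hc', hpc', -⟩ := h4 a' ha'
    change lab N r g a < lab N r g a'
    rw [h4.lab_eq ha hc hpc, h4.lab_eq ha' hc' hpc']
    exact (hr.pair_mem_iff hc hc').1 (h6 a ha a' ha' c hc c' hc' hpc hpc' _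
      (hpair a (hN.mem_trans ha h1) a' (hN.mem_trans ha' h1)) rfl he)

theorem cext_iff (hr : SW N r) (h : CFun N w g) (h' : CFun N w' g') :
    CExt N r w s g w' s' g' ↔ Ext (nd N r w s g) (nd N r w' s' g') := by
  constructor
  · rintro ⟨h1, h2, h3⟩
    refine ⟨h1, h2, fun a ha => ?_⟩
    obtain ⟨c, hc, hpc, -⟩ := h a ha
    obtain ⟨c', hc', hpc', -⟩ := h' a (h1 ha)
    change lab N r g' a = lab N r g a
    rw [h.lab_eq ha hc hpc, h'.lab_eq (h1 ha) hc' hpc']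
    obtain ⟨h4, h5⟩ := h3 a ha c hc c' hc' hpc hpc'
    rw [hr.pair_mem_iff hc hc'] at h4
    rw [hr.pair_mem_iff hc' hc] at h5
    exact le_antisymm (not_lt.1 h4) (not_lt.1 h5)
  · rintro ⟨h1, h2, h3⟩
    refine ⟨h1, h2, fun a ha c hc c' hc' hpc hpc' => ?_⟩
    have h4 : lab N r g' a = lab N r g a := h3 a ha
    rw [h.lab_eq ha hc hpc, h'.lab_eq (h1 ha) hc' hpc'] at h4
    rw [hr.pair_mem_iff hc hc', hr.pair_mem_iff hc' hc, h4]
    exact ⟨lt_irrefl _, lt_irrefl _⟩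

theorem Wit.fam_h54 (hr : SW N c.r) (h : Wit N c) (hx : x ∈ N)
    (hal : ∀ i, i ∈ N → pair x i ∈ c.Al →
      Alive N c.T c.Y (rk N c.r c.b) (rk N c.r x) (c.node N i))
    (hg : CFun N w g) (hf : CFam N c x w s g a w') :
    Fam N c.T c.Y (rk N c.r c.b) (rk N c.r x) (nd N c.r w s g) a w' := by
  obtain ⟨f, -, h1, h2, h3⟩ := hf
  choose! ι hι hp using h1
  refine ⟨fun y => c.node N (ι y), fun y hy => ?_, fun y hy y' hy' he => ?_⟩
  · obtain ⟨h4, h5, h6⟩ := h2 y hy (ι y) (hι y hy) (hp y hy)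
    exact ⟨h5, (cext_iff hr hg (h x hx _ (hι y hy) h4).1.2.2.2.1).1 h6, hal _ (hι y hy) h4⟩
  · exact h3 y hy y' hy' _ (hι y hy) _ (hι y' hy') (hp y hy) (hp y' hy') he

/-- Induction on the rank of `x`; for `ζ < rk x` take `x'` below `x` with `ζ ≤ rk x'`
(`exists_rl_of_lt`) and use `Fam.mono`. -/
theorem Wit.alive (hN : N.IsTransitive) (hpair : ∀ a ∈ N, ∀ b ∈ N, pair a b ∈ N)
    (hr : SW N c.r) (hb : c.b ∈ N) (h : Wit N c) (hx : x ∈ N) (hi : i ∈ N)
    (hp : pair x i ∈ c.Al) : Alive N c.T c.Y (rk N c.r c.b) (rk N c.r x) (c.node N i) := by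
  induction x using hr.wf.induction generalizing i with
  | _ x ih =>
    obtain ⟨h1, h2⟩ := h x hx i hi hp
    refine alive_iff.2 ⟨h1.valid hN hpair hr hb, fun ζ hζ a ha => ?_⟩
    obtain ⟨x', hx', hle⟩ := exists_rl_of_lt hr.wf hζ
    obtain ⟨w', hw', haw, hf⟩ := h2 x' hx'.1 hx'.2.2 a ha
    exact ⟨w', hw', haw,
      (h.fam_h54 hr hx'.1 (fun j hj hpj => ih x' hx' hx'.1 hj hpj) h1.2.2.2.1 hf).mono hle⟩

theorem Wit.fam (hN : N.IsTransitive) (hpair : ∀ a ∈ N, ∀ b ∈ N, pair a b ∈ N)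
    (hr : SW N c.r) (hb : c.b ∈ N) (h : Wit N c) (hx : x ∈ N) (hg : CFun N w g)
    (hf : CFam N c x w s g a w') :
    Fam N c.T c.Y (rk N c.r c.b) (rk N c.r x) (nd N c.r w s g) a w' := by
  exact h.fam_h54 hr hx (fun j hj hpj => h.alive hN hpair hr hb hx hj hpj) hg hf

end Pool.Agent.I1PSP.S3
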